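import Pool.Agent.P.MP_e94e4b_nt.MT.IfB

/-! The statement in plain terms. -/

namespace Pool.Agent.P.MP_e94e4b_nt.MT

open Polynomial Finset
open Pool.Agent.P.MP_8be758_nt Pool.Agent.P.MP_8be758_nt.C2 Pool.Agent.P.MP_8be758_nt.L2
open scoped Classical

theorem wn_of {k : Type} [Field k] {N : k[X]} {m κ κ' : ℕ} (h0 : 1 ≤ κ') (hκ : κ' ≤ κ)
    (h1 : N.Monic) (h2 : |(m : ℝ) - N.natDegree| ≤ N.natDegree / κ) : Wn N m κ' := by
  have k0 : 0 < κ := by omega
  have k1 : (0 : ℝ) < κ := by exact_mod_cast k0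
  obtain ⟨a, b⟩ := abs_le.1 h2
  have key : ∀ x : ℕ, (x : ℝ) ≤ N.natDegree / κ → x ≤ N.natDegree / κ := fun x hx => by
    rw [le_div_iff₀ k1] at hx
    exact (Nat.le_div_iff_mul_le k0).2 (by exact_mod_cast hx)
  refine Wn.mono ⟨h1, ?_, ?_⟩ h0 hκ
  · rcases le_total N.natDegree m with h | h
    · exact h.trans (Nat.le_add_right _ _)
    · have := key (N.natDegree - m) (by rw [Nat.cast_sub h]; linarith)
      omega
  · rcases le_total m N.natDegree with h | h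
    · exact h.trans (Nat.le_add_right _ _)
    · have := key (m - N.natDegree) (by rw [Nat.cast_sub h]; linarith)
      omega

theorem TP_eq {k : Type} [Field k] [Finite k] [CharP k 2] (N g : k[X]) (m : ℕ) :
    TP (N ^ 2) m (g ^ 2) = Set.ncard {x : k[X] | x.degree < m ∧
      Irreducible (N ^ 2 + x) ∧ Irreducible ((N + g) ^ 2 - x)} := by
  rw [TP, ← Set.ncard_coe_finset]
  congr 1
  ext x
  rw [coe_filter, Set.mem_ofPred_eq, Set.mem_ofPred_eq, mem_low, CharTwo.add_sq N,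
    CharTwo.sub_eq_add, add_right_comm]

theorem last (h : S_FD) : ∃ κ t K : ℕ, 1 ≤ κ ∧ ∀ D : ℕ, ∃ n0 : ℕ,
    ∀ (k : Type) [Field k] [Finite k] [CharP k 2] (N : k[X]) (m : ℕ), N.Monic →
      n0 ≤ N.natDegree → |(m : ℝ) - N.natDegree| ≤ N.natDegree / κ →
      Nat.card k ^ (D + 1) ≤ t * (1 + Set.ncard {g : k[X] | g ≠ 0 ∧ g.natDegree ≤ D ∧
        Nat.card k ^ m ≤ Nat.card k ^ (t * D) * N.natDegree ^ K *
          Set.ncard {x : k[X] | x.degree < m ∧ Irreducible (N ^ 2 + x) ∧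
            Irreducible ((N + g) ^ 2 - x)}}) := by
  obtain ⟨κ, t, K, h1, H⟩ := h
  refine ⟨κ, t, K, h1, fun D => ?_⟩
  obtain ⟨n0, H⟩ := H D
  refine ⟨n0, fun k _ _ _ N m a b c => ?_⟩
  simpa only [TP_eq] using H k N m b (wn_of h1 le_rfl a c)

end Pool.Agent.P.MP_e94e4b_nt.MT
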