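import Pool.Agent.P.MP_e94e4b_nt.MT.IfA

/-! Step ABS. -/

namespace Pool.Agent.P.MP_e94e4b_nt.MT

open Finset
open scoped Classical

namespace ABSc

theorem yc_abs {α ι : Type} [Fintype α] [Fintype ι] (δ : α → ℕ) (g : ℕ → ℝ) (R : ℕ)
    (hg : ∀ d, 0 ≤ g d ∧ g d ≤ 2) (ρ : α → Option ι) :
    |yc δ g R ρ| ≤ 2 ^ Fintype.card ι := by
  unfold yc
  split_ifs
  · rw [abs_of_nonneg (prod_nonneg fun j _ => (hg _).1)]
    calc ∏ j, g (ds δ (col ρ j)) ≤ ∏ _j : ι, (2 : ℝ) :=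
          prod_le_prod (fun j _ => (hg _).1) fun j _ => (hg _).2
      _ = 2 ^ Fintype.card ι := by rw [prod_const, card_univ]
  · rw [abs_zero]
    positivity

theorem last (m η B u1 u2 w S : ℝ) (hm : 0 ≤ m) (hη : 0 ≤ η) (hB : 0 ≤ B) (hw : 0 ≤ w)
    (h1 : m * η * B / 2 ≤ u1) (h2 : u2 ≤ 16 * η * B) (h3 : u1 ^ 2 * w / 2 ≤ S) :
    m ^ 2 * η * B * (2 * (w * u2)) ≤ 256 * S := by
  have a0 : 0 ≤ m * η * B / 2 := by positivity
  have a1 : (m * η * B / 2) ^ 2 ≤ u1 ^ 2 := pow_le_pow_left₀ a0 h1 2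
  have a2 : m ^ 2 * η * B * u2 ≤ m ^ 2 * η * B * (16 * η * B) :=
    mul_le_mul_of_nonneg_left h2 (by positivity)
  have a3 : m ^ 2 * η * B * u2 ≤ 64 * u1 ^ 2 := by
    have e : m ^ 2 * η * B * (16 * η * B) = 64 * (m * η * B / 2) ^ 2 := by ring
    linarith
  have a4 : m ^ 2 * η * B * u2 * w ≤ 64 * u1 ^ 2 * w := mul_le_mul_of_nonneg_right a3 hw
  have e : m ^ 2 * η * B * (2 * (w * u2)) = 2 * (m ^ 2 * η * B * u2 * w) := by ring
  rw [e]
  linarith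

theorem mid (t m η B L u2 u3 : ℝ) (ht : 0 ≤ t) (hm : 0 ≤ m) (hη : 0 ≤ η) (hB : 0 ≤ B)
    (hL : 64 * t * m * B ≤ L) (h2 : η * B / 2 ≤ u2) (h3 : u3 ≤ 8 * m * η * B ^ 2) :
    4 * t * u3 ≤ u2 * L := by
  have a0 : 0 ≤ η * B / 2 := by positivity
  have a1 : η * B / 2 * (64 * t * m * B) ≤ u2 * L :=
    mul_le_mul h2 hL (by positivity) (a0.trans h2)
  have a2 : 4 * t * u3 ≤ 4 * t * (8 * m * η * B ^ 2) :=
    mul_le_mul_of_nonneg_left h3 (by positivity)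
  have e : 4 * t * (8 * m * η * B ^ 2) = η * B / 2 * (64 * t * m * B) := by ring
  linarith

end ABSc

theorem p_ABS (hEXI : S_EXI) (hSQ1 : S_SQ1) (hSQ2 : S_SQ2) (hM4 : S_M4) (hUP : S_UP) (hLO : S_LO) (hCD : S_CD) (hGS : S_GS) (hGCH : S_GCH) :
    S_ABS := by
  intro α ι _ _ δ z m B t R η σ Λ hc ht hR hm hB hη hz hσ hσ1 hΛ hH
  obtain ⟨g1, g2, g3, -, -⟩ := hGS m B
  have ht2 : 2 ≤ t := by
    rw [ht]
    calc 2 = 2 ^ 1 := rfl
      _ ≤ 2 ^ m := Nat.pow_le_pow_right (by norm_num) hm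
  have ht2' : (2 : ℝ) ≤ t := by exact_mod_cast ht2
  have hz0 : ∀ P, 0 < z P := fun P => by linarith [hz P]
  obtain ⟨u1, u2, u3, u4, u5⟩ := hGCH α δ z m B η hz0 hm hη.le hH
  have hσ0 : 0 ≤ σ := (sum_nonneg fun P _ => by positivity).trans hσ
  have hσ2 : 16 * σ ≤ 1 := by
    have : (1 : ℝ) ≤ (t : ℝ) ^ 2 := by nlinarith
    nlinarith
  have hLv : Lv δ R (yc (ι := ι) δ (gs m B) R) := fun ρ h => by
    by_contra h'
    exact h (if_neg h')
  obtain ⟨s1, s2⟩ := hSQ1 α ι (yc δ (gs m B) R) (ps z) (fun _ _ => rfl)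
  obtain ⟨s3, s4⟩ := hSQ1 α ι (o2 (yc δ (gs m B) R) (ps z)) ib (fun _ _ => by simp [ib])
  have e1 : LC (o2 (yc (ι := ι) δ (gs m B) R) (ps z)) ib =
      fun x => LC (yc δ (gs m B) R) (ps z) x ^ 2 := funext fun x => (s1 x).symm
  have e2 : LC (o2 (o2 (yc (ι := ι) δ (gs m B) R) (ps z)) ib) ib =
      fun x => LC (yc δ (gs m B) R) (ps z) x ^ 4 := funext fun x => by
    rw [← s3 x, ← s1 x]
    ring
  have hy : ∀ ρ : α → Option ι, |yc δ (gs m B) R ρ| ≤ 2 ^ t := fun ρ =>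
    hc ▸ ABSc.yc_abs δ _ R g2 ρ
  have hz1 : ∀ P, 1 ≤ z P := fun P => by linarith [hz P]
  have hzc : ∀ P, (Fintype.card ι : ℝ) ≤ z P := fun P => by
    rw [hc]
    linarith [hz P]
  obtain ⟨L, hL, hL2⟩ : ∃ L : ℕ, R = L + B * 2 ^ m ∧ 64 * t * m * B ≤ L := by
    have h1 : t * B ≤ t * m * B := Nat.mul_le_mul_right _ (Nat.le_mul_of_pos_right _ hm)
    have h2 : R = 64 * t * m * B + t * m * B := by
      rw [hR]
      ring
    have h3 : B * 2 ^ m = t * B := by rw [ht, mul_comm]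
    refine ⟨R - t * B, ?_, ?_⟩
    · rw [h3]
      omega
    · omega
  have hL0 : 0 < L := lt_of_lt_of_le (by positivity) hL2
  refine ⟨o2 (yc δ (gs m B) R) (ps z), o2 (o2 (yc δ (gs m B) R) (ps z)) ib,
    2 * U2 δ z (gs m B) ^ t, ?_, s2 δ R hLv, ?_, fun x => ?_, s3, ?_, ?_, ?_, fun i => ?_⟩
  · have : 1 ≤ U2 δ z (gs m B) ^ t := one_le_pow₀ u3
    linarith
  · have := s4 δ _ (s2 δ R hLv)
    rwa [← mul_assoc] at this
  · rw [← s1 x]
    positivity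
  · rw [← hEXI, e1, ← hc]
    exact hUP α ι δ z _ R σ (fun P => by linarith [hz P]) hzc hσ hσ2
  · rw [← hEXI, e2]
    have := hM4 α ι z (yc δ (gs m B) R) (2 ^ t) Λ hz1 hzc hΛ hy
    rw [hc, ← pow_mul, mul_comm t 4, pow_mul] at this
    norm_num at this ⊢
    exact this
  · have := hSQ2 α ι z (yc δ (gs m B) R) (2 ^ t) Λ hz1 hΛ hy
    rw [hc, ← pow_mul, mul_comm t 2, pow_mul] at this
    norm_num at this ⊢
    exact this
  · rw [← hEXI, e1]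
    have a := hLO α ι δ z (gs m B) R i (fun P => by
      rw [hc]
      linarith [hz P])
    have b := hCD α ι δ z (gs m B) (B * 2 ^ m) L i σ (fun P => by
      rw [hc]
      exact hz P) g1 (fun d => (g2 d).1) g3 hσ (by rw [hc]; exact hσ1) hL0 (by linarith)
      (by
        rw [hc]
        exact ABSc.mid t m η B L _ _ (by linarith) (Nat.cast_nonneg _) hη.le (Nat.cast_nonneg _)
          (by exact_mod_cast hL2) u2 u5)
    rw [← hL, hc] at b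
    have e : U2 δ z (gs m B) ^ t = U2 δ z (gs m B) ^ (t - 1) * U2 δ z (gs m B) := by
      rw [← pow_succ]
      congr 1
      omega
    rw [e]
    exact ABSc.last m η B _ _ _ _ (Nat.cast_nonneg _) hη.le (Nat.cast_nonneg _)
      (pow_nonneg (by linarith) _) u1 u4 (b.trans a)

end Pool.Agent.P.MP_e94e4b_nt.MT
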