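import Pool.Agent.P.MP_e94e4b_nt.MT.IfB

/-! Step ADM. -/

namespace Pool.Agent.P.MP_e94e4b_nt.MT

open Polynomial Finset
open Pool.Agent.P.MP_8be758_nt Pool.Agent.P.MP_8be758_nt.C2 Pool.Agent.P.MP_8be758_nt.L2
open scoped Classical

theorem p_ADM :
    S_ADM := by
  intro k _ ι c W F h1 h2
  induction W using Finset.induction_on with
  | empty => exact ⟨0, fun j => by rw [pr_empty]; exact isCoprime_one_right⟩
  | insert P W hP ih =>
    have p1 := h1 P (mem_insert_self _ _)
    have p2 := fun Q hQ => h1 Q (mem_insert_of_mem hQ)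
    obtain ⟨x, hx⟩ := ih p2
    obtain ⟨y, hy⟩ := h2 P p1.2
    obtain ⟨a, b, e⟩ := p1.2.coprime_iff_not_dvd.2 (mt (dvd_pr_iff p2 p1).1 hP)
    refine ⟨x + pr W * (b * (y - F - x)), fun j => ?_⟩
    rw [pr_insert hP]
    refine IsCoprime.mul_right ?_ ?_
    · rw [show F + (x + pr W * (b * (y - F - x))) + c j = y + c j + P * (-a * (y - F - x)) by
        linear_combination (y - F - x) * e]
      exact (p1.2.coprime_iff_not_dvd.2 (hy j)).symm.add_mul_left_left _
    · rw [show F + (x + pr W * (b * (y - F - x))) + c j =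
        F + x + c j + pr W * (b * (y - F - x)) by ring]
      exact (hx j).add_mul_left_left _

end Pool.Agent.P.MP_e94e4b_nt.MT
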