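import Pool.Agent.P.MP_e94e4b_nt.MT.IfB
import Pool.Agent.P.MP_e94e4b_nt.LG.APAll

/-! Step AP. -/

namespace Pool.Agent.P.MP_e94e4b_nt.MT

open Polynomial Finset
open Pool.Agent.P.MP_8be758_nt Pool.Agent.P.MP_8be758_nt.C2 Pool.Agent.P.MP_8be758_nt.L2
open scoped Classical

theorem p_AP :
    S_AP := by
  obtain ⟨κ, δ, ν0, h1, h2, H⟩ := LG.t_APFIN
  refine ⟨κ, δ, ν0, h1, h2, fun k _ _ _ N m hν hW S a hS hd ha => ?_⟩
  have := H k N (pr S) a m hν hW (monic_pr hS).ne_zero ha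
    (by rw [natDegree_pr hS, mul_comm]; exact (Nat.le_div_iff_mul_le h2).1 hd)
  rw [natDegree_pr hS, pf_pr hS] at this
  exact (le_div_iff₀ (pow_pos qq_pos _)).2 this

end Pool.Agent.P.MP_e94e4b_nt.MT
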