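import Pool.Agent.P.MP_e94e4b_nt.MT.IfA

/-! Step BIJ. -/

namespace Pool.Agent.P.MP_e94e4b_nt.MT

open Finset
open scoped Classical

namespace BIJc

end BIJc

theorem p_BIJ :
    S_BIJ := by
  intro α ι _ _ Φ
  refine sum_bij (fun ρ _ => col ρ) (fun ρ _ => mem_filter.2 ⟨mem_univ _, dj_col ρ⟩) ?_ ?_
    (fun _ _ => rfl)
  · intro ρ _ ρ' _ h
    funext P
    have key : ∀ j, ρ P = some j ↔ ρ' P = some j := fun j => by
      rw [← mem_col, ← mem_col, h]
    cases h1 : ρ P with
    | none =>
      cases h2 : ρ' P with
      | none => rfl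
      | some j => rw [(key j).2 h2] at h1; exact absurd h1 (by simp)
    | some j => exact ((key j).1 h1).symm
  · intro r hr
    have hd : Dj r := (mem_filter.1 hr).2
    refine ⟨fun P => if h : ∃ j, P ∈ r j then some h.choose else none, mem_univ _, ?_⟩
    funext j
    ext P
    rw [mem_col]
    constructor
    · intro h
      split_ifs at h with h1
      · rw [← Option.some.inj h]; exact h1.choose_spec
    · intro h
      have h1 : ∃ j, P ∈ r j := ⟨j, h⟩
      rw [dif_pos h1]
      by_contra hne
      have hne' : h1.choose ≠ j := fun e => hne (by rw [e])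
      exact disjoint_left.1 (hd _ _ hne') h1.choose_spec h

end Pool.Agent.P.MP_e94e4b_nt.MT
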