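import Pool.Agent.P.MP_e94e4b_nt.MT.IfA

/-! Step CA. -/

namespace Pool.Agent.P.MP_e94e4b_nt.MT

open Finset
open scoped Classical

theorem p_CA (hBIJ : S_BIJ) :
    S_CA := by
  intro α ι _ _ δ z g R σ hz hσ
  have u0 : ∀ r : ι → Finset α, 0 ≤ ∏ j, g (ds δ (r j)) ^ 2 * uz z (r j) := fun r =>
    prod_nonneg fun j _ => mul_nonneg (sq_nonneg _) (uz_pos hz _).le
  have key : ∀ ρ : α → Option ι, yc δ g R ρ ^ 2 * ∏ P, d1 z P (ρ P) ≤
      Real.exp (3 * σ) * ∏ j, g (ds δ (col ρ j)) ^ 2 * uz z (col ρ j) := fun ρ => by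
    have e1 : ∏ P ∈ (sp ρ)ᶜ, d1 z P (none : Option ι) ≤ Real.exp (3 * σ) := by
      refine (prod_one_add_le _ (f := fun P => 3 / z P ^ 2) fun P => by positivity).trans
        (Real.exp_le_exp.2 ((sum_le_sum_of_subset_of_nonneg (subset_univ _)
          fun P _ _ => by positivity).trans ?_))
      simp only [div_eq_mul_inv]
      rw [← mul_sum]
      linarith
    have e2 : yc δ g R ρ ^ 2 ≤ ∏ j, g (ds δ (col ρ j)) ^ 2 := by
      unfold yc
      split_ifs
      · rw [prod_pow]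
      · rw [prod_pow, zero_pow two_ne_zero]; exact sq_nonneg _
    have e3 : 0 ≤ ∏ j, uz z (col ρ j) := prod_nonneg fun j _ => (uz_pos hz _).le
    rw [prod_split, prod_mul_distrib, mul_left_comm]
    exact mul_le_mul e1 (mul_le_mul_of_nonneg_right e2 e3) (mul_nonneg (sq_nonneg _) e3)
      (Real.exp_pos _).le
  refine (sum_le_sum fun ρ _ => key ρ).trans ?_
  rw [← mul_sum, hBIJ α ι fun r => ∏ j, g (ds δ (r j)) ^ 2 * uz z (r j)]
  refine mul_le_mul_of_nonneg_left ((sum_le_sum_of_subset_of_nonneg (subset_univ _)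
    fun r _ _ => u0 r).trans (le_of_eq ?_)) (Real.exp_pos _).le
  rw [sum_prod_fun fun (_ : ι) (S : Finset α) => g (ds δ S) ^ 2 * uz z S, prod_const, card_univ, U2]

end Pool.Agent.P.MP_e94e4b_nt.MT
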