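import Pool.Agent.P.MP_e94e4b_nt.MT.IfA

/-! Step CD1. -/

namespace Pool.Agent.P.MP_e94e4b_nt.MT

open Finset
open scoped Classical

theorem p_CD1 (hSUB : S_SUB) :
    S_CD1 := by
  intro α ι _ _ δ z g R T i ρ hz hg h0 hT hc hR
  have e : Yc δ z g R i ρ = (∑ e ∈ (sp ρ)ᶜ.powerset, g (ds δ e) * uz z e) *
      ∏ j ∈ univ.erase i, g (ds δ (col ρ j)) := by
    rw [Yc, if_pos hc, sum_mul]
    refine sum_congr rfl fun e he => ?_
    have e1 : ∏ j, g (ds δ (col (pt i e ρ) j)) =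
        g (ds δ e) * ∏ j ∈ univ.erase i, g (ds δ (col ρ j)) := by
      rw [← mul_prod_erase _ _ (mem_univ i), col_pt_self hc]
      exact congrArg _ (prod_congr rfl fun j hj => by
        rw [col_pt_ne (mem_powerset.1 he) (ne_of_mem_erase hj)])
    rw [yc, e1, sp_pt]
    split_ifs with h
    · ring
    · have := ds_union_le δ (sp ρ) e
      rw [hT _ (by omega)]
      ring
  rw [e, ← mul_assoc]
  exact mul_le_mul_of_nonneg_right (hSUB α δ z g (sp ρ) hz hg h0) (prod_nonneg fun j _ => h0 _)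

end Pool.Agent.P.MP_e94e4b_nt.MT
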