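import Pool.Agent.P.MP_e94e4b_nt.MT.IfA

/-! Step CD2. -/

namespace Pool.Agent.P.MP_e94e4b_nt.MT

open Finset
open scoped Classical

namespace CD2c

theorem loc {z t : ℝ} (ht : 0 ≤ t) (h : t + 2 ≤ z) :
    (1 + z⁻¹) ^ 2 * (z⁻¹ * (1 - (t + 2) * z⁻¹)) ≤ (z - t) / z ^ 2 := by
  have hz : 0 < z := by linarith
  have e : (z - t) / z ^ 2 - (1 + z⁻¹) ^ 2 * (z⁻¹ * (1 - (t + 2) * z⁻¹)) =
      ((2 * t + 3) * z + t + 2) / z ^ 4 := by
    field_simp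
    ring
  have : 0 ≤ ((2 * t + 3) * z + t + 2) / z ^ 4 := by positivity
  linarith

end CD2c

theorem p_CD2 (hCD1 : S_CD1) :
    S_CD2 := by
  intro α ι _ _ δ z g T L i ρ hz hg hg0 hT hL
  have ht : (0 : ℝ) ≤ Fintype.card ι := Nat.cast_nonneg _
  have hz0 : ∀ P, 0 < z P := fun P => by linarith [hz P]
  by_cases hc : col ρ i = ∅
  swap
  · rw [prod_eq_zero (mem_univ i) (by simp [hc]), Yc, if_neg hc]
    simp
  have h1 := hCD1 α ι δ z g (L + T) T i ρ hz0 hg hg0 hT hc (by rw [ds_sp]; omega)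
  have hU : 0 ≤ U1 δ z g := sum_nonneg fun S _ => mul_nonneg (hg0 _) (uz_pos hz0 S).le
  have hA : 0 ≤ U1 δ z g * ∏ j ∈ univ.erase i, g (ds δ (col ρ j)) :=
    mul_nonneg hU (prod_nonneg fun j _ => hg0 _)
  have h2 := pow_le_pow_left₀ hA h1 2
  have e1 : ∏ P, d2 i z P (ρ P) = ∏ P ∈ sp ρ, (z P - Fintype.card ι) / z P ^ 2 := by
    rw [← prod_compl_mul_prod (sp ρ)]
    have a1 : ∏ P ∈ (sp ρ)ᶜ, d2 i z P (ρ P) = 1 :=
      prod_eq_one fun P hP => by rw [notMem_sp.1 (mem_compl.1 hP)]; rfl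
    rw [a1, one_mul]
    refine prod_congr rfl fun P hP => ?_
    obtain ⟨j, hj⟩ := mem_sp'.1 hP
    have hji : j ≠ i := fun e => col_eq_empty.1 hc P (e ▸ hj)
    rw [hj]
    simp only [d2, Option.elim, if_neg hji]
  have e2 : ∏ j, ((if j = i then (if col ρ j = ∅ then (1 : ℝ) else 0)
        else g (ds δ (col ρ j)) ^ 2 * uz z (col ρ j)) *
        ∏ P ∈ col ρ j, (1 - ((Fintype.card ι : ℝ) + 2) * (z P)⁻¹)) =
      (∏ j ∈ univ.erase i, g (ds δ (col ρ j))) ^ 2 *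
        ∏ P ∈ sp ρ, ((z P)⁻¹ * (1 - ((Fintype.card ι : ℝ) + 2) * (z P)⁻¹)) := by
    rw [prod_sp, ← mul_prod_erase univ _ (mem_univ i),
      ← mul_prod_erase univ (fun j => ∏ P ∈ col ρ j,
        ((z P)⁻¹ * (1 - ((Fintype.card ι : ℝ) + 2) * (z P)⁻¹))) (mem_univ i),
      if_pos rfl, if_pos hc, hc, prod_empty, prod_empty, one_mul, one_mul, one_mul, ← prod_pow,
      ← prod_mul_distrib]
    refine prod_congr rfl fun j hj => ?_
    rw [if_neg (ne_of_mem_erase hj), prod_mul_distrib, uz, mul_assoc]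
  have hB : ∀ P, 0 ≤ (z P)⁻¹ * (1 - ((Fintype.card ι : ℝ) + 2) * (z P)⁻¹) := fun P => by
    refine mul_nonneg (inv_pos.2 (hz0 P)).le ?_
    rw [sub_nonneg, ← div_eq_mul_inv, div_le_one (hz0 P)]
    exact hz P
  rw [e1, e2, ← mul_assoc, ← mul_pow]
  refine (mul_le_mul_of_nonneg_right h2 (prod_nonneg fun P _ => hB P)).trans ?_
  rw [mul_pow, mul_comm (_ ^ 2) (Yc δ z g (L + T) i ρ ^ 2), mul_assoc, ← prod_pow,
    ← prod_mul_distrib]
  refine mul_le_mul_of_nonneg_left ?_ (sq_nonneg _)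
  exact prod_le_prod (fun P _ => mul_nonneg (sq_nonneg _) (hB P)) fun P _ =>
    CD2c.loc ht (hz P)

end Pool.Agent.P.MP_e94e4b_nt.MT
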