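import Pool.Agent.P.MP_e94e4b_nt.MT.IfB

/-! Step CIND. -/

namespace Pool.Agent.P.MP_e94e4b_nt.MT

open Polynomial Finset
open Pool.Agent.P.MP_8be758_nt Pool.Agent.P.MP_8be758_nt.C2 Pool.Agent.P.MP_8be758_nt.L2
open scoped Classical

theorem p_CIND (hCRT : S_CRT) :
    S_CIND := by
  intro k _ _ α ι _ _ v c W F x0 ω L m hS hL hm
  unfold LC
  rw [sum_comm, mul_sum]
  refine sum_congr rfl fun σ _ => ?_
  by_cases h0 : ω σ = 0
  · simp [h0]
  obtain ⟨r, -, -, hr⟩ := hCRT k α ι v c W F x0 σ hS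
  have hP : ∀ P ∈ W ∪ (sp σ).image v, IsPr P := fun P hP => (mem_union.1 hP).elim (hS.pW P)
    fun h => by obtain ⟨a, -, rfl⟩ := mem_image.1 h; exact hS.pv a
  have hd : (pr (W ∪ (sp σ).image v)).natDegree = dg W + ds (dv v) (sp σ) := by
    rw [natDegree_pr hP, dg_union, dg_image hS.inj]
    exact disjoint_right.2 fun P h => by obtain ⟨a, -, rfl⟩ := mem_image.1 h; exact hS.nw a
  have e : pw (p0 (zv v)) σ = uz (zv v) (sp σ) := by
    rw [pw, prod_split σ fun P b => b.elim 1 (p0 (zv v) P), uz_sp]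
    simp [uz, p0]
  have := hL σ h0
  rw [← mul_sum, L3.Gx, sum_filter, sum_congr rfl fun x _ => hr x, sum_boole, ← L3.Gx,
    L3.card_Gx (monic_pr hP).ne_zero r (by omega), hd, e, uz_zv, pow_add]
  ring

end Pool.Agent.P.MP_e94e4b_nt.MT
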