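import Pool.Agent.P.MP_e94e4b_nt.MT.IfA

/-! Step CNT. -/

namespace Pool.Agent.P.MP_e94e4b_nt.MT

open Finset
open scoped Classical

theorem p_CNT :
    S_CNT := by
  intro β ι _ H W p U V A r hW hU hV hA hr h1 hr1
  set n : β → ℕ := fun h => (univ.filter (fun j => p j h)).card with hn
  set G := H.filter (fun h => r ≤ n h) with hG
  set t : ℝ := (Fintype.card ι : ℝ) with ht
  have r1 : (1 : ℝ) ≤ r := by exact_mod_cast hr1
  have e1 : ∑ j, ∑ h ∈ H.filter (p j), W h = ∑ h ∈ H, W h * n h := by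
    simp only [sum_filter, hn, card_filter]
    rw [sum_comm]
    refine sum_congr rfl fun h _ => ?_
    push_cast
    rw [mul_sum]
    exact sum_congr rfl fun j _ => by split_ifs <;> simp
  have e2 : t * (H.card * A) ≤ ∑ h ∈ H, W h * n h := by
    rw [← e1, ht, ← nsmul_eq_mul, ← card_univ]
    exact card_nsmul_le_sum _ _ _ fun j _ => hA j
  have e3 : ∑ h ∈ H, W h * n h ≤ (r - 1) * ∑ h ∈ H, W h + t * ∑ h ∈ G, W h := by
    rw [hG, sum_filter, mul_sum, mul_sum, ← sum_add_distrib]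
    refine sum_le_sum fun h _ => ?_
    have := hW h
    split_ifs with c
    · have : (n h : ℝ) ≤ t := Nat.cast_le.2 (card_le_univ _)
      nlinarith
    · have : (n h : ℝ) + 1 ≤ r := by exact_mod_cast not_le.1 c
      nlinarith
  have H0 : (0 : ℝ) ≤ H.card := Nat.cast_nonneg _
  have e4 : (H.card : ℝ) ≤ t * ∑ h ∈ G, W h := by
    nlinarith [mul_le_mul_of_nonneg_left hU (sub_nonneg.2 r1), mul_le_mul_of_nonneg_left hr H0,
      mul_le_mul_of_nonneg_left h1 H0]
  have e5 : (∑ h ∈ G, W h) ^ 2 ≤ G.card * (H.card * V) :=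
    sq_sum_le_card_mul_sum_sq.trans (mul_le_mul_of_nonneg_left
      ((sum_le_sum_of_subset_of_nonneg (filter_subset _ _) fun _ _ _ => sq_nonneg _).trans hV)
        (Nat.cast_nonneg _))
  rcases H.eq_empty_or_nonempty with rfl | hH
  · simp [hG]
  have H1 : (0 : ℝ) < H.card := Nat.cast_pos.2 hH.card_pos
  refine le_of_mul_le_mul_right ?_ H1
  have := pow_le_pow_left₀ H0 e4 2
  nlinarith [mul_le_mul_of_nonneg_left e5 (sq_nonneg t)]

end Pool.Agent.P.MP_e94e4b_nt.MT
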