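import Pool.Agent.P.MP_e94e4b_nt.MT.IfB

/-! Step CO0. -/

namespace Pool.Agent.P.MP_e94e4b_nt.MT

open Polynomial Finset
open Pool.Agent.P.MP_8be758_nt Pool.Agent.P.MP_8be758_nt.C2 Pool.Agent.P.MP_8be758_nt.L2
open scoped Classical

theorem p_CO0 (hABS : S_ABS) (hHS2 : S_HS2) (hHS3 : S_HS3) :
    S_CO0 := by
  intro k _ _ ι _ c W F x0 m1 B t R D h1 h2 h3 h4 hW hD hq hc hco hB
  have hE : En (Subtype.val : {P // P ∈ Pr k R \ W} → k[X]) (Pr k R \ W) :=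
    ⟨Subtype.val_injective, fun P => ⟨fun h => ⟨⟨P, h⟩, rfl⟩, fun ⟨a, e⟩ => e ▸ a.2⟩⟩
  obtain ⟨a1, a2, a3⟩ := hHS2 k _ _ W R D hE hD
  obtain ⟨b1, b2, b3⟩ := hHS3 k _ _ W R B _ hE hW hB rfl
  have t1 : 1 ≤ t := h2 ▸ Nat.one_le_two_pow
  have t2 : (1 : ℝ) ≤ t := by exact_mod_cast t1
  have B1 : 1 ≤ B := le_trans (Nat.mul_pos (by norm_num) (by positivity)) hB
  have q0 : 0 < qq k ^ (D + 1) := pow_pos qq_pos _
  obtain ⟨ω, ω', U, u1, u2, u3, u4, u5, u6, u7, u8, u9⟩ := hABS _ ι _ _ m1 B t R _ _ _ h1 h2 h3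
    h4 B1 b1 (fun P => by
      have : qq k ^ (D + 1) ≤ zv Subtype.val P := qq_pow_mono (a1 P).2.2.1
      nlinarith) a3 (by
      rw [← mul_div_assoc, div_le_one q0]; linarith) a2 fun x x1 x2 => b3 x x1 (by
      rw [← h2] at x2
      have := Nat.mul_le_mul_left (t * B) h4
      rw [h3]; nlinarith)
  refine ⟨_, inferInstance, Subtype.val, ω, ω', U, ⟨hE.1, fun P => (a1 P).1, fun P => (a1 P).2.1,
    hW, fun P => hc _ (a1 P).1 (a1 P).2.1, hco⟩,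
    fun P => (a1 P).2.2.2, u1, u2, u3, u4, u5, u6, u7, u8, fun i => ?_⟩
  · have e1 := mul_le_mul_of_nonneg_left (u9 i) (zero_le_one.trans (L3.one_le_eu hW))
    have e2 := mul_le_mul_of_nonneg_right b2
      (show 0 ≤ (m1 : ℝ) ^ 2 * B * U by have := zero_le_one.trans u1; positivity)
    linarith

end Pool.Agent.P.MP_e94e4b_nt.MT
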