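import Pool.Agent.P.MP_e94e4b_nt.MT.IfB

/-! Step CO1. -/

namespace Pool.Agent.P.MP_e94e4b_nt.MT

open Polynomial Finset
open Pool.Agent.P.MP_8be758_nt Pool.Agent.P.MP_8be758_nt.C2 Pool.Agent.P.MP_8be758_nt.L2
open scoped Classical

namespace CO1c

theorem low_bd {h ν M U S Z e E : ℝ} (hh : 0 ≤ h) (hν : 0 < ν) (hU : 1 ≤ U) (hM : 1024 ≤ M)
    (h1 : M * U ≤ 512 * Z) (h2 : |2 * ν * S - h * Z| ≤ e) (h3 : e ≤ E) (h4 : E ≤ h) :
    h * (M * U / (2048 * ν)) ≤ S := by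
  have a1 := (abs_le.1 h2).1
  have a2 : h * (M * U) ≤ h * (512 * Z) := mul_le_mul_of_nonneg_left h1 hh
  have a3 : 1024 ≤ M * U := by nlinarith
  have a4 : h * 1024 ≤ h * (M * U) := mul_le_mul_of_nonneg_left a3 hh
  rw [← mul_div_assoc, div_le_iff₀ (by positivity)]
  nlinarith

end CO1c

theorem p_CO1 (hCO0 : S_CO0) (hCNT : S_CNT) (hCIND : S_CIND) (hCWP : S_CWP) :
    S_CO1 := by
  intro k _ _ ι _ c W N x0 m1 B t R D m μ r err ht ht2 hR hm1 hr hW hD hq hc hcop hB hN hDm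
    hm hRN h4 h2 hAP herr hE hMB hrB
  obtain ⟨α, _, v, ω, ω', U, sv, dvR, hU, l2, l4, pos, sq, b1, b2, b3, b4⟩ :=
    hCO0 k ι c W (N ^ 2) x0 m1 B t R D ht ht2 hR hm1 hW hD hq hc hcop hB
  have q0 := qq_pos (k := k)
  have hν : (0 : ℝ) < N.natDegree := by exact_mod_cast (by omega : 0 < N.natDegree)
  have cH : ((L3.Gx (pr W) x0 m).card : ℝ) = qq k ^ m / qq k ^ dg W := by
    rw [L3.card_Gx (monic_pr hW).ne_zero x0 (by rw [natDegree_pr hW]; omega), natDegree_pr hW]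
  have h0 : 0 ≤ qq k ^ m / qq k ^ dg W := by positivity
  have hM : (1024 : ℝ) ≤ (m1 : ℝ) ^ 2 * B := by exact_mod_cast hMB
  have key := hCNT k[X] ι (L3.Gx (pr W) x0 m) (fun h => LC ω ib (XS v c (N ^ 2) h))
    (fun j h => Irreducible (N ^ 2 + h + c j)) U
    (16 ^ t * Real.exp (20 * (t : ℝ) * (1 + Real.log (R + 1))))
    ((m1 : ℝ) ^ 2 * B * U / (2048 * N.natDegree)) r (fun h => pos _) ?_ ?_ ?_ ?_ hU hr
  · rw [cH, ht] at key
    refine key.trans (mul_le_mul_of_nonneg_left ?_ (by positivity))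
    refine Nat.cast_le.2 (card_le_card fun x hx => ?_)
    obtain ⟨a1, a2⟩ := mem_filter.1 hx
    exact mem_filter.2 ⟨(L3.mem_Gx.1 a1).1, by convert a2⟩
  · rw [hCIND k α ι v c W (N ^ 2) x0 ω (2 * R) m sv l2 (by omega), cH]
    exact mul_le_mul_of_nonneg_left b1 h0
  · simp only [sq]
    rw [hCIND k α ι v c W (N ^ 2) x0 ω' (4 * R) m sv l4 h4, cH]
    exact mul_le_mul_of_nonneg_left b2 h0
  · intro j
    have w := hCWP k α ι v c W N x0 ω (2 * R) m μ err j sv l2 h2 hAP herr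
      (hDm j) hN hm fun P => (dvR P).trans_lt hRN
    rw [mul_assoc (qq k ^ m / qq k ^ dg W)] at w
    rw [cH]
    have := CO1c.low_bd h0 hν hU hM (b4 j) w
      (mul_le_mul_of_nonneg_left b3 (by positivity)) hE
    convert this
  · rw [ht, ← mul_div_assoc, le_div_iff₀ (by positivity)]
    have a : (2048 : ℝ) * N.natDegree * r ≤ t * (m1 : ℝ) ^ 2 * B := by exact_mod_cast hrB
    have := mul_le_mul_of_nonneg_right a (zero_le_one.trans hU)
    nlinarith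

end Pool.Agent.P.MP_e94e4b_nt.MT
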