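import Pool.Agent.P.MP_e94e4b_nt.MT.IfB

/-! Step CORE. -/

namespace Pool.Agent.P.MP_e94e4b_nt.MT

open Polynomial Finset
open Pool.Agent.P.MP_8be758_nt Pool.Agent.P.MP_8be758_nt.C2 Pool.Agent.P.MP_8be758_nt.L2
open scoped Classical

theorem p_CORE (hAP : S_AP) (hCO1 : S_CO1) (hNUM : S_NUM) :
    S_CORE := by
  obtain ⟨κ, δ, ν0, hκ, hδ, H⟩ := hAP
  refine ⟨max κ 4, le_max_right _ _, fun r hr => ?_⟩
  obtain ⟨m1, K, hm1, hN⟩ := hNUM δ r hδ
  obtain ⟨t, ht⟩ : ∃ t, t = 2 ^ m1 := ⟨_, rfl⟩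
  refine ⟨t, K, ht ▸ le_self_pow₀ one_le_two (by omega), fun Dw => ?_⟩
  obtain ⟨ν1, hN⟩ := hN Dw
  refine ⟨ν0 + ν1, fun k _ _ _ N x0 m D W c hν hW pW dW sW hq ic dc cop => ?_⟩
  obtain ⟨B, R, hR, n1, n2, n3, n4, n5, n6⟩ := hN _ (by omega : ν1 ≤ N.natDegree) t ht
  have H := H k N m (by omega) (hW.mono hκ (le_max_left _ _))
  obtain ⟨w0, w1, w2⟩ := hW.mono (by norm_num) (le_max_right κ 4)
  have x1 := Nat.div_le_self N.natDegree δ
  generalize N.natDegree / δ = x at *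
  have q0 : (0 : ℝ) < qq k := qq_pos
  have := hCO1 k (Fin t) c W N x0 m1 B t R D m x r _ (Fintype.card_fin t) ht hR hm1 hr pW sW hq ic
    cop (le_trans (Nat.mul_le_mul_left _ (Nat.pow_le_pow_right (by norm_num)
      ((card_le_dg pW).trans dW))) n2) w0
    (fun j => mem_low_of_natDegree_lt (by have := dc j; omega)) (by omega) (by omega) (by omega)
    (by omega) H
    (by positivity) ?_ n3 n4
  · rw [div_le_iff₀' (by positivity)] at this
    rw [mul_assoc]
    exact this.trans (by gcongr)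
  · refine (mul_le_mul_of_nonneg_left (n5.trans (two_pow_le_qq (k := k) _))
      (by positivity)).trans ?_
    rw [mul_assoc, ← pow_add, div_mul_eq_mul_div, div_le_div_iff₀ (by positivity) (by positivity),
      mul_assoc, ← pow_add]
    exact mul_le_mul_of_nonneg_left (qq_pow_mono (by omega)) (by positivity)

end Pool.Agent.P.MP_e94e4b_nt.MT
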