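import Pool.Agent.P.MP_e94e4b_nt.MT.IfB

/-! Step CRT. -/

namespace Pool.Agent.P.MP_e94e4b_nt.MT

open Polynomial Finset
open Pool.Agent.P.MP_8be758_nt Pool.Agent.P.MP_8be758_nt.C2 Pool.Agent.P.MP_8be758_nt.L2
open scoped Classical

namespace CRTc

theorem ex_r {k : Type} [Field k] {α ι : Type} {v : α → k[X]} {c : ι → k[X]}
    {W : Finset k[X]} {F x0 : k[X]} (h : Sv v c W F x0) (y : α → k[X]) (S : Finset α) :
    ∃ r : k[X], pr W ∣ r - x0 ∧ ∀ P ∈ S, v P ∣ r - y P := by
  induction S using Finset.induction_on with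
  | empty => exact ⟨x0, by simp, by simp⟩
  | insert P S hP ih =>
    obtain ⟨r, h1, h2⟩ := ih
    have hc : IsCoprime (v P) (pr W * ∏ Q ∈ S, v Q) := by
      refine IsCoprime.mul_right ?_ ?_
      · exact IsCoprime.prod_right fun Q hQ =>
          (h.pv P).coprime (h.pW Q hQ) fun e => h.nw P (e ▸ hQ)
      · exact IsCoprime.prod_right fun Q hQ =>
          (h.pv P).coprime (h.pv Q) fun e => hP (h.inj e ▸ hQ)
    obtain ⟨a, b, hab⟩ := hc
    refine ⟨r + b * (pr W * ∏ Q ∈ S, v Q) * (y P - r), ?_, ?_⟩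
    · have e : r + b * (pr W * ∏ Q ∈ S, v Q) * (y P - r) - x0 =
          (r - x0) + pr W * (b * (∏ Q ∈ S, v Q) * (y P - r)) := by ring
      rw [e]
      exact dvd_add h1 (dvd_mul_right _ _)
    · intro Q hQ
      rcases mem_insert.1 hQ with rfl | hQ
      · refine ⟨a * (r - y Q), ?_⟩
        linear_combination (y Q - r) * hab
      · have e : r + b * (pr W * ∏ Q ∈ S, v Q) * (y P - r) - y Q =
            (r - y Q) + (∏ Q ∈ S, v Q) * (b * pr W * (y P - r)) := by ring
        rw [e]
        exact dvd_add (h2 Q hQ) ((dvd_prod_of_mem _ hQ).mul_right _)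

theorem prod_ib {α ι : Type} [Fintype α] (σ x : α → Option ι) :
    ∏ P, ib P (σ P) (x P) = if ∀ P j, σ P = some j → x P = some j then 1 else 0 := by
  unfold ib
  rw [Finset.prod_boole]
  congr 1
  refine propext ⟨fun h P j e => ?_, fun h P _ => ?_⟩
  · rcases h P (mem_univ _) with h1 | h1
    · rw [h1] at e; exact absurd e (by simp)
    · rw [h1, e]
  · cases e : σ P with
    | none => exact Or.inl rfl
    | some j => exact Or.inr (h P j e)

end CRTc

theorem p_CRT :
    S_CRT := by
  intro k _ α ι _ _ v c W F x0 σ h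
  obtain ⟨r, h1, h2⟩ := CRTc.ex_r h (fun P => (σ P).elim 0 (fun j => -(F + c j))) univ
  have h3 : ∀ P j, σ P = some j → v P ∣ F + r + c j := by
    intro P j e
    have := h2 P (mem_univ _)
    rw [e] at this
    have e2 : F + r + c j = r - -(F + c j) := by ring
    rw [e2]
    exact this
  refine ⟨r, h1, h3, fun x => ?_⟩
  have hU : ∀ P ∈ W ∪ (sp σ).image v, IsPr P := by
    intro P hP
    rcases mem_union.1 hP with hP | hP
    · exact h.pW P hP
    · obtain ⟨Q, -, rfl⟩ := mem_image.1 hP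
      exact h.pv Q
  have key : pr (W ∪ (sp σ).image v) ∣ x - r ↔
      pr W ∣ x - x0 ∧ ∀ P j, σ P = some j → XS v c F x P = some j := by
    rw [pr_dvd_iff hU]
    constructor
    · intro hd
      refine ⟨?_, fun P j e => ?_⟩
      · have h4 : pr W ∣ x - r :=
          (pr_dvd_iff h.pW _).2 fun P hP => hd P (mem_union_left _ hP)
        have e2 : x - x0 = (x - r) + (r - x0) := by ring
        rw [e2]
        exact dvd_add h4 h1
      · rw [h.xs_iff]
        have h4 := hd (v P) (mem_union_right _ (mem_image_of_mem _ (mem_sp'.2 ⟨j, e⟩)))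
        have e2 : F + x + c j = (x - r) + (F + r + c j) := by ring
        rw [e2]
        exact dvd_add h4 (h3 P j e)
    · rintro ⟨h4, h5⟩ P hP
      rcases mem_union.1 hP with hP | hP
      · have e2 : x - r = (x - x0) - (r - x0) := by ring
        rw [e2]
        exact (dvd_prod_of_mem _ hP).trans (dvd_sub h4 h1)
      · obtain ⟨Q, hQ, rfl⟩ := mem_image.1 hP
        obtain ⟨j, e⟩ := mem_sp'.1 hQ
        have h6 := (h.xs_iff x Q j).1 (h5 Q j e)
        have e2 : x - r = (F + x + c j) - (F + r + c j) := by ring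
        rw [e2]
        exact dvd_sub h6 (h3 Q j e)
  rw [CRTc.prod_ib]
  by_cases h4 : pr W ∣ x - x0
  · rw [if_pos h4]
    by_cases h5 : ∀ P j, σ P = some j → XS v c F x P = some j
    · rw [if_pos h5, if_pos (key.2 ⟨h4, h5⟩)]
    · rw [if_neg h5, if_neg fun e => h5 (key.1 e).2]
  · rw [if_neg h4, if_neg fun e => h4 (key.1 e).1]

end Pool.Agent.P.MP_e94e4b_nt.MT
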