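import Pool.Agent.P.MP_e94e4b_nt.MT.IfB

/-! Step CWP. -/

namespace Pool.Agent.P.MP_e94e4b_nt.MT

open Polynomial Finset
open Pool.Agent.P.MP_8be758_nt Pool.Agent.P.MP_8be758_nt.C2 Pool.Agent.P.MP_8be758_nt.L2
open scoped Classical

namespace CWPc

theorem deg_val {k : Type} [Field k] [Finite k] {N y : k[X]} {m : ℕ} (hN : N.Monic)
    (hm : m ≤ 2 * N.natDegree) (hy : y ∈ low k m) :
    (N ^ 2 + y).natDegree = 2 * N.natDegree := by
  have h1 : (N ^ 2).natDegree = 2 * N.natDegree := natDegree_pow _ _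
  rw [← h1]
  apply natDegree_add_eq_left_of_degree_lt
  rw [degree_eq_natDegree (hN.pow 2).ne_zero, h1]
  exact mem_low.1 (low_mono hm hy)

end CWPc

theorem p_CWP (hCW1 : S_CW1) :
    S_CWP := by
  intro k _ _ α ι _ _ v c W N x0 ω L m μ err i hS hL hμ hAP herr hci hN hm hdeg
  set G := (L3.Gx (pr W) x0 m).filter (fun x => Irreducible (N ^ 2 + x + c i)) with hG
  set B : ℝ := qq k ^ m / qq k ^ dg W * eu (-1) W with hB
  have hq := qq_pos (k := k)
  have e1 : 2 * (N.natDegree : ℝ) * ∑ x ∈ G, LC ω ib (XS v c (N ^ 2) x) -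
      B * ∑ σ : α → Option ι, ω σ * pw (p1 i (zv v)) σ =
      ∑ σ : α → Option ι, ω σ * (2 * (N.natDegree : ℝ) *
        ∑ x ∈ G, ∏ P, ib P (σ P) (XS v c (N ^ 2) x P) - B * pw (p1 i (zv v)) σ) := by
    unfold LC
    rw [sum_comm, mul_sum, mul_sum, ← sum_sub_distrib]
    refine sum_congr rfl fun σ _ => ?_
    rw [← mul_sum]
    ring
  rw [e1, mul_sum]
  refine (abs_sum_le_sum_abs _ _).trans (sum_le_sum fun σ _ => ?_)
  rw [abs_mul]
  by_cases h0 : ω σ = 0
  · simp [h0]
  have hLσ := hL σ h0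
  have huz : 1 ≤ qq k ^ L * uz (zv v) (sp σ) := by
    rw [uz_zv, mul_one_div, one_le_div (by positivity)]
    exact qq_pow_mono hLσ
  have key : |2 * (N.natDegree : ℝ) * ∑ x ∈ G, ∏ P, ib P (σ P) (XS v c (N ^ 2) x P) -
      B * pw (p1 i (zv v)) σ| ≤ err := by
    by_cases hc : col σ i = ∅
    · exact hCW1 k α ι v c W N x0 σ m μ err i hS (by omega) hAP hci hc
    · rw [col_eq_empty] at hc
      push Not at hc
      obtain ⟨P, hP⟩ := hc
      have a1 : pw (p1 i (zv v)) σ = 0 := by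
        refine prod_eq_zero (mem_univ P) ?_
        simp [hP, p1]
      have a2 : ∑ x ∈ G, ∏ P, ib P (σ P) (XS v c (N ^ 2) x P) = 0 := by
        refine sum_eq_zero fun x hx => prod_eq_zero (mem_univ P) ?_
        obtain ⟨hx1, hx2⟩ := mem_filter.1 hx
        have hxl := (L3.mem_Gx.1 hx1).1
        rw [hP, ib, if_neg]
        rintro (h | h)
        · simp at h
        · have hd := (hS.xs_iff x P i).1 h
          have has := (hS.pv P).2.associated_of_dvd hx2 hd
          have h3 := natDegree_eq_of_degree_eq (degree_eq_degree_of_associated has)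
          rw [add_assoc, CWPc.deg_val hN hm (add_mem_low hxl hci)] at h3
          have := hdeg P
          omega
      rw [a1, a2]
      simpa using herr
  calc |ω σ| * |2 * (N.natDegree : ℝ) * ∑ x ∈ G, ∏ P, ib P (σ P) (XS v c (N ^ 2) x P) -
        B * pw (p1 i (zv v)) σ| ≤ |ω σ| * (err * (qq k ^ L * uz (zv v) (sp σ))) :=
        mul_le_mul_of_nonneg_left (key.trans (le_mul_of_one_le_right herr huz)) (abs_nonneg _)
    _ = _ := by ring

end Pool.Agent.P.MP_e94e4b_nt.MT
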