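import Pool.Agent.P.MP_e94e4b_nt.MT.IfA

/-! Step EXI. -/

namespace Pool.Agent.P.MP_e94e4b_nt.MT

open Finset
open scoped Classical

namespace EXIc

theorem loc {α ι : Type} [Fintype ι] (p : α → ι → ℝ) (P : α) (s : Option ι) :
    ∑ b, ms p P b * ib P s b = s.elim 1 (p P) := by
  cases s with
  | none => simpa [ib] using sum_ms p P
  | some j =>
    have : ∀ b : Option ι, ms p P b * ib P (some j) b = if b = some j then p P j else 0 := by
      intro b
      by_cases hb : b = some j
      · simp [ib, ms, hb]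
      · simp [ib, hb]
    simp [this]

end EXIc

theorem p_EXI :
    S_EXI := by
  intro α ι _ _ p ω
  have e : LC ω ib = fun x => ∑ σ ∈ (univ : Finset (α → Option ι)),
      ω σ * (fun (σ : α → Option ι) (x : α → Option ι) => ∏ P, ib P (σ P) (x P)) σ x := rfl
  rw [e, EX_sum]
  refine sum_congr rfl fun σ _ => ?_
  congr 1
  rw [EX_prod (ms p) (fun P => ib P (σ P))]
  exact prod_congr rfl fun P _ => EXIc.loc p P (σ P)

end Pool.Agent.P.MP_e94e4b_nt.MT
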