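import Pool.Agent.P.MP_e94e4b_nt.MT.IfA

/-! Step F1. -/

namespace Pool.Agent.P.MP_e94e4b_nt.MT

open Finset
open scoped Classical

namespace F1c

theorem key {α ι : Type} [Fintype α] (z : α → ℝ) (i : ι) (x ρ : α → Option ι) (e : Finset α)
    (hx : ∀ P, x P ≠ some i) (hρ : col ρ i = ∅) (he : e ⊆ (sp ρ)ᶜ) :
    ∏ P, ps z P (pt i e ρ P) (x P) = uz z e * ∏ P, ch i z P (ρ P) (x P) := by
  have e1 : uz z e = ∏ P, if P ∈ e then (z P)⁻¹ else 1 := by
    rw [prod_ite_mem, univ_inter]; rfl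
  rw [e1, ← prod_mul_distrib]
  refine prod_congr rfl fun P _ => ?_
  by_cases hP : P ∈ e
  · have h0 : ρ P = none := notMem_sp.1 (mem_compl.1 (he hP))
    simp [pt, hP, ch, ps, h0, hx P]
  · simp [pt, hP, ch, col_eq_empty.1 hρ P]

end F1c

theorem p_F1 (hFIB : S_FIB) :
    S_F1 := by
  intro α ι _ _ δ z g R i x hx
  unfold LC
  rw [hFIB α ι i, sum_filter]
  refine sum_congr rfl fun ρ _ => ?_
  unfold Yc
  split_ifs with h
  · rw [sum_mul]
    refine sum_congr rfl fun e he => ?_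
    rw [F1c.key z i x ρ e hx h (mem_powerset.1 he), mul_assoc]
  · rw [zero_mul]

end Pool.Agent.P.MP_e94e4b_nt.MT
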