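import Pool.Agent.P.MP_e94e4b_nt.MT.IfB

/-! Step FD. -/

namespace Pool.Agent.P.MP_e94e4b_nt.MT

open Polynomial Finset
open Pool.Agent.P.MP_8be758_nt Pool.Agent.P.MP_8be758_nt.C2 Pool.Agent.P.MP_8be758_nt.L2
open scoped Classical

theorem p_FD (hFE : S_FE) (hSM : S_SM) (hMAXS : S_MAXS) :
    S_FD := by
  obtain ⟨κ, t, K, hκ, ht, H⟩ := hFE
  obtain ⟨A, hA⟩ := hSM (32 * t ^ 2)
  refine ⟨κ, A * t + t ^ 2, K + 1, by omega, fun D => ?_⟩
  obtain ⟨ν0, H⟩ := H D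
  refine ⟨ν0 + A, fun k _ _ _ N m hν hW => ?_⟩
  obtain ⟨D0, hq, hA⟩ := hA k
  have pS : ∀ P ∈ Pr k D0, IsPr P := fun P hP => (mem_Pr.1 hP).1
  have w0 := (monic_pr pS).ne_zero
  have wd := natDegree_pr pS
  have q0 : 0 < Nat.card k := Nat.card_pos
  rcases lt_or_ge D (dg (Pr k D0)) with hD | hD
  · refine ((Nat.pow_le_pow_right q0 hD).trans hA).trans (le_trans ?_
      (Nat.le_mul_of_pos_right _ (by omega)))
    nlinarith
  obtain ⟨n, hn⟩ := Nat.exists_eq_add_of_le hD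
  have yd : ∀ v : Fin (n + 1) → k, (ofFn (n + 1) v).natDegree ≤ n := fun v =>
    Nat.lt_succ_iff.1 (ofFn_natDegree_lt (by omega) v)
  have h1 := hMAXS (Fin (n + 1) → k) t (fun v => Nat.card k ^ m ≤
      Nat.card k ^ ((A * t + t ^ 2) * D) * N.natDegree ^ (K + 1) *
        TP (N ^ 2) m ((pr (Pr k D0) * ofFn (n + 1) v) ^ 2))
    (fun v hv => by rwa [map_neg, mul_neg, neg_sq] at hv) fun b hb => by
      obtain ⟨i, j, hij, a⟩ := H k N m D0 (fun j => ofFn (n + 1) (b j)) (by omega) hW hq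
        ((injective_ofFn _).comp hb) fun j => by have := yd (b j); omega
      refine ⟨i, j, hij, a.trans ?_⟩
      rw [map_sub, pow_add, pow_succ _ K, mul_comm (_ ^ dg _), mul_assoc (_ ^ (t ^ 2 * D)),
        mul_comm (_ ^ dg _)]
      exact Nat.mul_le_mul_right _ (Nat.mul_le_mul (Nat.pow_le_pow_right q0
        (Nat.mul_le_mul_right _ (Nat.le_add_left _ _))) (Nat.mul_le_mul_left _ (by omega)))
  rw [Nat.card_fun, Nat.card_eq_fintype_card (α := Fin _), Fintype.card_fin] at h1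
  rw [show D + 1 = dg (Pr k D0) + (n + 1) by omega, pow_add]
  refine (Nat.mul_le_mul hA h1).trans ?_
  rw [← mul_assoc]
  refine Nat.mul_le_mul (Nat.le_add_right _ _) (Nat.add_le_add_left ?_ 1)
  refine Set.ncard_le_ncard_of_injOn (fun v => pr (Pr k D0) * ofFn (n + 1) v) ?_
    (fun v _ v' _ e => injective_ofFn _ (mul_left_cancel₀ w0 e)) ?_
  · rintro v ⟨h0, hv⟩
    refine ⟨mul_ne_zero w0 fun e => h0 (injective_ofFn _ (by rw [e, map_zero])), ?_, hv⟩
    have := yd v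
    exact natDegree_mul_le.trans (by omega)
  · exact (low k (D + 1)).finite_toSet.subset fun g hg =>
      mem_low_of_natDegree_lt (Nat.lt_succ_of_le hg.2.1)

end Pool.Agent.P.MP_e94e4b_nt.MT
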