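import Pool.Agent.P.MP_e94e4b_nt.MT.IfA

/-! Step GCH. -/

namespace Pool.Agent.P.MP_e94e4b_nt.MT

open Finset
open scoped Classical

namespace GCHc

theorem swap {α : Type} [Fintype α] (δ : α → ℕ) (z : α → ℝ) (m B : ℕ) (a : ℕ → ℝ) :
    ∑ S : Finset α, (∑ s ∈ range m, if ds δ S ≤ B * 2 ^ s then a s else 0) * uz z S =
      ∑ s ∈ range m, a s * HH δ z (B * 2 ^ s) := by
  simp_rw [sum_mul]
  rw [sum_comm]
  refine sum_congr rfl fun s _ => ?_
  unfold HH
  rw [sum_filter, mul_sum]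
  refine sum_congr rfl fun S _ => ?_
  split_ifs <;> simp

theorem geo (m : ℕ) : ∑ s ∈ range m, (1 / 2 : ℝ) ^ s ≤ 2 := sum_geometric_two_le m

end GCHc

open GCHc in
theorem p_GCH (hGS : S_GS) :
    S_GCH := by
  intro α _ δ z m B η hz hm hη hH
  obtain ⟨-, h0, -, h1, h2⟩ := hGS m B
  have hu := fun S => (uz_pos hz S).le
  have hs : ∀ s ∈ range m, η * (B * 2 ^ s) / 2 ≤ HH δ z (B * 2 ^ s) ∧
      HH δ z (B * 2 ^ s) ≤ 2 * η * (B * 2 ^ s) := by
    intro s hs
    have := hH (B * 2 ^ s) (Nat.le_mul_of_pos_right _ (by positivity))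
      (Nat.mul_le_mul_left _ (Nat.pow_le_pow_right (by norm_num) (mem_range.1 hs).le))
    push_cast at this
    exact this
  have e2 : ∀ s : ℕ, (1 / 2 : ℝ) ^ s * 2 ^ s = 1 := fun s => by rw [← mul_pow]; norm_num
  have e4 : ∀ s : ℕ, (1 / 4 : ℝ) ^ s * 2 ^ s = (1 / 2) ^ s := fun s => by rw [← mul_pow]; norm_num
  have hB : (0 : ℝ) ≤ B := Nat.cast_nonneg B
  have hg : ∀ S : Finset α, 0 ≤ gs m B (ds δ S) ^ 2 * uz z S :=
    fun S => mul_nonneg (sq_nonneg _) (hu S)
  refine ⟨?_, ?_, ?_, ?_, ?_⟩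
  · unfold U1 gs
    rw [swap δ z m B fun s => (1 / 2 : ℝ) ^ s]
    calc (m : ℝ) * η * B / 2 = ∑ s ∈ range m, η * B / 2 := by
          rw [sum_const, card_range, nsmul_eq_mul]; ring
      _ ≤ _ := sum_le_sum fun s h => by
          calc η * B / 2 = (1 / 2 : ℝ) ^ s * (η * (B * 2 ^ s) / 2) := by
                linear_combination (-(η * B / 2)) * e2 s
            _ ≤ _ := mul_le_mul_of_nonneg_left (hs s h).1 (by positivity)
  · refine (hH B le_rfl (Nat.le_mul_of_pos_right _ (by positivity))).1.trans ?_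
    unfold U2 HH
    refine le_trans (sum_le_sum fun S hS => ?_)
      (sum_le_sum_of_subset_of_nonneg (filter_subset _ _) fun S _ _ => hg S)
    have := h1 hm _ (mem_filter.1 hS).2
    exact le_mul_of_one_le_left (hu S) (one_le_pow₀ this)
  · unfold U2
    refine le_trans ?_ (single_le_sum (fun S _ => hg S) (mem_univ ∅))
    rw [uz_empty, ds_empty, mul_one]
    exact one_le_pow₀ (h1 hm 0 (Nat.zero_le _))
  · unfold U2
    calc ∑ S : Finset α, gs m B (ds δ S) ^ 2 * uz z S
        ≤ ∑ S : Finset α, 4 * ((∑ s ∈ range m,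
            if ds δ S ≤ B * 2 ^ s then (1 / 4 : ℝ) ^ s else 0) * uz z S) :=
          sum_le_sum fun S _ => by
            rw [← mul_assoc]
            exact mul_le_mul_of_nonneg_right (h2 _) (hu S)
      _ = 4 * ∑ s ∈ range m, (1 / 4 : ℝ) ^ s * HH δ z (B * 2 ^ s) := by
          rw [← mul_sum, swap δ z m B fun s => (1 / 4 : ℝ) ^ s]
      _ ≤ 4 * ∑ s ∈ range m, 2 * η * B * (1 / 2 : ℝ) ^ s := by
          refine mul_le_mul_of_nonneg_left (sum_le_sum fun s h => ?_) (by norm_num)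
          calc (1 / 4 : ℝ) ^ s * HH δ z (B * 2 ^ s) ≤ (1 / 4 : ℝ) ^ s * (2 * η * (B * 2 ^ s)) :=
                mul_le_mul_of_nonneg_left (hs s h).2 (by positivity)
            _ = _ := by linear_combination (2 * η * B) * e4 s
      _ ≤ 16 * η * B := by
          rw [← mul_sum]
          have := mul_le_mul_of_nonneg_left (geo m) (show 0 ≤ 2 * η * B by positivity)
          linarith
  · unfold U3
    calc ∑ S : Finset α, (ds δ S : ℝ) * (gs m B (ds δ S) ^ 2 * uz z S)
        ≤ ∑ S : Finset α, 4 * ((∑ s ∈ range m,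
            if ds δ S ≤ B * 2 ^ s then (1 / 4 : ℝ) ^ s * (B * 2 ^ s) else 0) * uz z S) :=
          sum_le_sum fun S _ => by
            rw [← mul_assoc, ← mul_assoc]
            refine mul_le_mul_of_nonneg_right ?_ (hu S)
            refine (mul_le_mul_of_nonneg_left (h2 _) (Nat.cast_nonneg _)).trans ?_
            rw [mul_left_comm, mul_sum]
            refine mul_le_mul_of_nonneg_left (sum_le_sum fun s _ => ?_) (by norm_num)
            split_ifs with h
            · rw [mul_comm]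
              exact mul_le_mul_of_nonneg_left (by exact_mod_cast h) (by positivity)
            · simp
      _ = 4 * ∑ s ∈ range m, (1 / 4 : ℝ) ^ s * (B * 2 ^ s) * HH δ z (B * 2 ^ s) := by
          rw [← mul_sum, swap δ z m B fun s => (1 / 4 : ℝ) ^ s * (B * 2 ^ s)]
      _ ≤ 4 * ∑ s ∈ range m, 2 * η * (B : ℝ) ^ 2 := by
          refine mul_le_mul_of_nonneg_left (sum_le_sum fun s h => ?_) (by norm_num)
          calc (1 / 4 : ℝ) ^ s * (B * 2 ^ s) * HH δ z (B * 2 ^ s)
              ≤ (1 / 4 : ℝ) ^ s * (B * 2 ^ s) * (2 * η * (B * 2 ^ s)) :=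
                mul_le_mul_of_nonneg_left (hs s h).2 (by positivity)
            _ = _ := by
                linear_combination (2 * η * (B : ℝ) ^ 2 * 2 ^ s) * e4 s +
                  (2 * η * (B : ℝ) ^ 2) * e2 s
      _ = _ := by rw [sum_const, card_range, nsmul_eq_mul]; ring

end Pool.Agent.P.MP_e94e4b_nt.MT
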