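import Pool.Agent.P.MP_e94e4b_nt.MT.IfA

/-! Step GS. -/

namespace Pool.Agent.P.MP_e94e4b_nt.MT

open Finset
open scoped Classical

namespace GSc

theorem shift (c : ℝ) (m B d : ℕ) :
    (∑ s ∈ range (m + 1), if d ≤ B * 2 ^ s then c ^ s else 0) =
      c * (∑ s ∈ range m, if d ≤ (2 * B) * 2 ^ s then c ^ s else 0) +
        if d ≤ B then 1 else 0 := by
  rw [sum_range_succ', mul_sum]
  simp only [pow_zero, mul_one]
  congr 1
  refine sum_congr rfl fun s _ => ?_
  have e : B * 2 ^ (s + 1) = 2 * B * 2 ^ s := by ring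
  rw [e]
  split_ifs <;> ring

theorem nonneg {c : ℝ} (hc : 0 ≤ c) (m B d : ℕ) :
    0 ≤ ∑ s ∈ range m, if d ≤ B * 2 ^ s then c ^ s else 0 :=
  sum_nonneg fun s _ => by split_ifs <;> positivity

theorem le_two (m B d : ℕ) : gs m B d ≤ 2 := by
  refine le_trans (sum_le_sum fun s _ => ?_) (sum_geometric_two_le m)
  split_ifs
  · exact le_rfl
  · positivity

theorem sq_le (m : ℕ) : ∀ B d : ℕ,
    gs m B d ^ 2 ≤ 4 * ∑ s ∈ range m, if d ≤ B * 2 ^ s then (1 / 4 : ℝ) ^ s else 0 := by
  induction m with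
  | zero => intro B d; simp [gs]
  | succ m ih =>
    intro B d
    by_cases h : d ≤ B
    · have h1 := le_two (m + 1) B d
      have h2 : 0 ≤ gs (m + 1) B d := nonneg (by norm_num) _ _ _
      have h3 := nonneg (c := 1 / 4) (by norm_num) m (2 * B) d
      rw [shift, if_pos h]
      nlinarith
    · have h1 := ih (2 * B) d
      unfold gs at h1 ⊢
      rw [shift, shift, if_neg h]
      nlinarith

end GSc

open GSc in
theorem p_GS :
    S_GS := by
  intro m B
  refine ⟨fun d d' h => sum_le_sum fun s _ => ?_,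
    fun d => ⟨nonneg (by norm_num) _ _ _, le_two m B d⟩, fun d hd => ?_, fun hm d hd => ?_,
    sq_le m B⟩
  · by_cases h' : d' ≤ B * 2 ^ s
    · rw [if_pos h', if_pos (h.trans h')]
    · rw [if_neg h']
      split_ifs <;> positivity
  · refine sum_eq_zero fun s hs => if_neg fun h => ?_
    have : B * 2 ^ s ≤ B * 2 ^ m :=
      Nat.mul_le_mul_left _ (Nat.pow_le_pow_right (by norm_num) (mem_range.1 hs).le)
    omega
  · obtain ⟨k, rfl⟩ : ∃ k, m = k + 1 := ⟨m - 1, by omega⟩
    have h3 := nonneg (c := 1 / 2) (by norm_num) k (2 * B) d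
    unfold gs
    rw [shift, if_pos hd]
    linarith

end Pool.Agent.P.MP_e94e4b_nt.MT
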