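import Pool.Agent.P.MP_e94e4b_nt.MT.IfB

/-! Step HS1. -/

namespace Pool.Agent.P.MP_e94e4b_nt.MT

open Polynomial Finset
open Pool.Agent.P.MP_8be758_nt Pool.Agent.P.MP_8be758_nt.C2 Pool.Agent.P.MP_8be758_nt.L2
open scoped Classical

namespace HS1c

variable {k : Type} [Field k] [Finite k] {α : Type} [Fintype α]

theorem fib {v : α → k[X]} {W : Finset k[X]} {E x D : ℕ} (h : En v (Pr k E \ W)) (hx : x ≤ E)
    (hD : D ≤ x) :
    ∑ S ∈ (univ.filter (fun S : Finset α => ds (dv v) S ≤ x)).filter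
      (fun S => ds (dv v) S = D), uz (zv v) S = xs 1 W D := by
  unfold xs
  rw [sum_div]
  refine sum_bij (fun S _ => S.image v) ?_ ?_ ?_ ?_
  · intro S hS
    have key : ∀ P ∈ S.image v, P ∈ Pr k E \ W := fun P hP => by
      obtain ⟨a, _, rfl⟩ := mem_image.1 hP
      exact (h.2 _).2 ⟨a, rfl⟩
    exact mem_Sc.2 ⟨fun P hP => (mem_Pr.1 (mem_sdiff.1 (key P hP)).1).1,
      (dg_image h.1 S).trans (mem_filter.1 hS).2,
      disjoint_left.2 fun P hP => (mem_sdiff.1 (key P hP)).2⟩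
  · intro S _ T _ e
    exact image_injective h.1 e
  · intro T hT
    obtain ⟨h1, h2, h3⟩ := mem_Sc.1 hT
    have e : (univ.filter (fun a => v a ∈ T)).image v = T := by
      ext P
      simp only [mem_image, mem_filter, mem_univ, true_and]
      refine ⟨fun ⟨a, ha, e⟩ => e ▸ ha, fun hP => ?_⟩
      obtain ⟨a, rfl⟩ := (h.2 P).1 (mem_sdiff.2 ⟨mem_Pr.2 ⟨h1 P hP, by
        have := natDegree_le_dg hP
        omega⟩, disjoint_left.1 h3 hP⟩)
      exact ⟨a, hP, rfl⟩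
    have e2 : ds (dv v) (univ.filter (fun a => v a ∈ T)) = D := by rw [← dg_image h.1, e, h2]
    exact ⟨_, mem_filter.2 ⟨mem_filter.2 ⟨mem_univ _, e2.le.trans hD⟩, e2⟩, e⟩
  · intro S hS
    rw [uz_zv, (mem_filter.1 hS).2, one_pow]

theorem geo (n : ℕ) : ∑ D ∈ range n, (3 / 4 : ℝ) ^ D = 4 - 4 * (3 / 4) ^ n := by
  induction n with
  | zero => simp
  | succ n ih => rw [sum_range_succ, ih]; ring

end HS1c

theorem p_HS1 (hXAB : L2.S_XAB) :
    S_HS1 := by
  intro k _ _ α _ v W E x h hW hx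
  have e : HH (dv v) (zv v) x = ∑ D ∈ range (x + 1), xs 1 W D := by
    unfold HH
    rw [← sum_fiberwise_of_maps_to (t := range (x + 1)) (g := ds (dv v)) fun S hS =>
      mem_range.2 (Nat.lt_succ_of_le (mem_filter.1 hS).2)]
    exact sum_congr rfl fun D hD => HS1c.fib h hx (Nat.lt_succ_iff.1 (mem_range.1 hD))
  have e2 : (1 - 1 / qq k) * eu 1 W * ((x : ℝ) + 1) =
      ∑ _D ∈ range (x + 1), (1 - 1 / qq k) * eu 1 W := by
    rw [sum_const, card_range, nsmul_eq_mul]; push_cast; ring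
  rw [e, e2, ← sum_sub_distrib]
  refine (abs_sum_le_sum_abs _ _).trans ?_
  have hs : (4 / 3 : ℝ) ≤ √(qq k) := Real.le_sqrt_of_sq_le (by linarith [two_le_qq (k := k)])
  calc _ ≤ ∑ D ∈ range (x + 1), 4 ^ W.card * (3 / 4 : ℝ) ^ D := sum_le_sum fun D _ => by
        refine (hXAB k W D hW).2.1.trans ?_
        rw [div_eq_mul_inv, ← inv_pow]
        gcongr
        rw [inv_le_comm₀ (by linarith) (by norm_num)]
        linarith
    _ ≤ _ := by
      rw [← mul_sum, HS1c.geo]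
      have h1 : (0 : ℝ) ≤ (3 / 4) ^ (x + 1) := by positivity
      have h2 : (0 : ℝ) < 4 ^ W.card := by positivity
      nlinarith

end Pool.Agent.P.MP_e94e4b_nt.MT
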