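import Pool.Agent.P.MP_e94e4b_nt.MT.IfB

/-! Step HS2. -/

namespace Pool.Agent.P.MP_e94e4b_nt.MT

open Polynomial Finset
open Pool.Agent.P.MP_8be758_nt Pool.Agent.P.MP_8be758_nt.C2 Pool.Agent.P.MP_8be758_nt.L2
open scoped Classical

namespace HS2c

theorem harm (E : ℕ) : ∑ d ∈ Ioc 0 E, (d : ℝ)⁻¹ ≤ 1 + Real.log (E + 1) := by
  have a1 : ∀ E : ℕ, ∑ d ∈ Ioc 0 (E + 1), (d : ℝ)⁻¹ ≤ 1 + Real.log (E + 1) := fun E => by
    induction E with
    | zero => simp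
    | succ E ih =>
      rw [sum_Ioc_succ_top (Nat.zero_le _)]
      have h1 : (0 : ℝ) < E + 1 := by positivity
      have h2 : (0 : ℝ) < E + 1 + 1 := by positivity
      have h3 := Real.log_le_sub_one_of_pos (div_pos h1 h2)
      have h4 : ((E : ℝ) + 1) / (E + 1 + 1) - 1 = -(E + 1 + 1 : ℝ)⁻¹ := by field_simp; ring
      rw [Real.log_div h1.ne' h2.ne', h4] at h3
      push_cast
      linarith
  refine le_trans ?_ (a1 E)
  exact sum_le_sum_of_subset_of_nonneg (Ioc_subset_Ioc_right (Nat.le_succ E))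
    fun _ _ _ => by positivity

theorem geo {q : ℝ} (hq : 2 ≤ q) (D E : ℕ) : ∑ d ∈ Ioc D E, (q ^ d)⁻¹ ≤ 2 / q ^ (D + 1) := by
  have h0 : 0 < q := by linarith
  have a1 : ∀ E, D ≤ E → ∑ d ∈ Ioc D E, (q ^ d)⁻¹ ≤ 2 / q ^ (D + 1) - 2 / q ^ (E + 1) := by
    intro E h
    induction E, h using Nat.le_induction with
    | base => simp
    | succ E h ih =>
      rw [sum_Ioc_succ_top h]
      have h1 : 2 / q ^ (E + 1 + 1) ≤ (q ^ (E + 1))⁻¹ := by
        rw [div_le_iff₀ (by positivity), pow_succ q (E + 1), ← mul_assoc,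
          inv_mul_cancel₀ (by positivity), one_mul]
        exact hq
      have h2 : 2 / q ^ (E + 1) = 2 * (q ^ (E + 1))⁻¹ := div_eq_mul_inv _ _
      linarith
  rcases le_total D E with h | h
  · have : 0 ≤ 2 / q ^ (E + 1) := by positivity
    linarith [a1 E h]
  · rw [Ioc_eq_empty (not_lt.2 h), sum_empty]
    positivity

theorem fib {k : Type} [Field k] [Finite k] {α : Type} [Fintype α] {v : α → k[X]}
    (hv : Function.Injective v) {D E : ℕ}
    (h : ∀ P, IsPr (v P) ∧ D < (v P).natDegree ∧ (v P).natDegree ≤ E) (f : ℕ → ℝ)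
    (hf : ∀ d, 0 ≤ f d) :
    ∑ P, f (v P).natDegree ≤ ∑ d ∈ Ioc D E, ((Pd k d).card : ℝ) * f d := by
  rw [← sum_fiberwise_of_maps_to (s := univ) (t := Ioc D E) (g := fun P => (v P).natDegree)
    fun P _ => mem_Ioc.2 (h P).2]
  refine sum_le_sum fun d _ => ?_
  rw [sum_congr rfl (g := fun _ => f d) fun P hP => by rw [(mem_filter.1 hP).2], sum_const,
    nsmul_eq_mul]
  refine mul_le_mul_of_nonneg_right (Nat.cast_le.2 ?_) (hf d)
  exact card_le_card_of_injOn v (fun P hP => mem_Pd.2 ⟨(h P).1, (mem_filter.1 hP).2⟩) hv.injOn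

end HS2c

theorem p_HS2 (hGAUSS : L2.S_GAUSS) :
    S_HS2 := by
  intro k _ _ α _ v W E D hE hD
  have a1 : ∀ P, IsPr (v P) ∧ v P ∉ W ∧ D < (v P).natDegree ∧ (v P).natDegree ≤ E := fun P => by
    have b1 := mem_sdiff.1 ((hE.2 (v P)).2 ⟨P, rfl⟩)
    have b2 := mem_Pr.1 b1.1
    exact ⟨b2.1, b1.2, not_le.1 fun c => b1.2 (hD (mem_Pr.2 ⟨b2.1, c⟩)), b2.2⟩
  have hq := qq_pos (k := k)
  have a2 : ∀ d, 1 ≤ d → ((Pd k d).card : ℝ) * (qq k ^ d)⁻¹ ≤ (d : ℝ)⁻¹ := fun d hd => by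
    have b1 := (hGAUSS k d hd).1
    have b2 : (0 : ℝ) < d := Nat.cast_pos.2 hd
    rw [← div_eq_mul_inv, div_le_iff₀ (by positivity), inv_mul_eq_div, le_div_iff₀ b2]
    linarith
  refine ⟨a1, ?_, ?_⟩
  · refine (HS2c.fib hE.1 (D := 0) (E := E)
      (fun P => ⟨(a1 P).1, (Nat.zero_le _).trans_lt (a1 P).2.2.1, (a1 P).2.2.2⟩)
      (fun d => (qq k ^ d)⁻¹) fun d => by positivity).trans (le_trans ?_ (HS2c.harm E))
    exact sum_le_sum fun d hd => a2 d (mem_Ioc.1 hd).1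
  · refine (HS2c.fib hE.1 (D := D) (E := E) (fun P => ⟨(a1 P).1, (a1 P).2.2⟩)
      (fun d => ((qq k ^ d) ^ 2)⁻¹) fun d => by positivity).trans
      (le_trans ?_ (HS2c.geo two_le_qq D E))
    refine sum_le_sum fun d hd => ?_
    have b1 : 1 ≤ d := by have := (mem_Ioc.1 hd).1; omega
    have b2 : (d : ℝ)⁻¹ ≤ 1 := inv_le_one_of_one_le₀ (by exact_mod_cast b1)
    rw [sq, mul_inv, ← mul_assoc]
    exact mul_le_of_le_one_left (by positivity) ((a2 d b1).trans b2)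

end Pool.Agent.P.MP_e94e4b_nt.MT
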