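import Pool.Agent.P.MP_e94e4b_nt.MT.IfB

/-! Step HS3. -/

namespace Pool.Agent.P.MP_e94e4b_nt.MT

open Polynomial Finset
open Pool.Agent.P.MP_8be758_nt Pool.Agent.P.MP_8be758_nt.C2 Pool.Agent.P.MP_8be758_nt.L2
open scoped Classical

theorem p_HS3 (hHS1 : S_HS1) :
    S_HS3 := by
  intro k _ _ α _ v W E B η hv hW hB hη
  have q0 : (0 : ℝ) < qq k := qq_pos
  have q1 : 1 / qq k ≤ 1 / 2 := one_div_le_one_div_of_le (by norm_num) two_le_qq
  have q2 : 0 < 1 / qq k := by positivity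
  have u0 := eu_one_pos W
  have u1 := eu_one_le W
  have u2 := L3.one_le_eu_mul hW
  have u3 : 1 ≤ 2 ^ W.card * eu 1 W := by
    rw [eu, ← prod_const, ← prod_mul_distrib]
    refine Finset.one_le_prod fun P _ => ?_
    have : 1 / qq k ^ P.natDegree ≤ 1 := (div_le_one (by positivity)).2 (one_le_pow₀ one_le_qq)
    rw [← div_eq_mul_inv, one_le_div (by positivity)]
    linarith
  have e1 : eu 1 W / 2 ≤ η := by rw [hη]; nlinarith
  have e2 : η ≤ 1 := by rw [hη]; nlinarith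
  refine ⟨by linarith, by nlinarith [L3.one_le_eu hW], fun x h1 h2 => ?_⟩
  have h := abs_le.1 (hη ▸ hHS1 k α v W E x hv hW h2)
  have x1 : (64 * (4 ^ W.card * 2 ^ W.card) : ℝ) ≤ x := by
    rw [← mul_pow, show (4 : ℝ) * 2 = 8 by norm_num]
    exact_mod_cast hB.trans h1
  have c1 : (1 : ℝ) ≤ 4 ^ W.card := one_le_pow₀ (by norm_num)
  have x2 := mul_le_mul e1 x1 (by positivity) (by linarith)
  have x3 := mul_le_mul_of_nonneg_left u3 (zero_le_one.trans c1)
  constructor <;> nlinarith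

end Pool.Agent.P.MP_e94e4b_nt.MT
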