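import Pool.Agent.P.MP_e94e4b_nt.MT.IfA

/-! Step K1. -/

namespace Pool.Agent.P.MP_e94e4b_nt.MT

open Finset
open scoped Classical

namespace K1c

theorem inner_some {α ι : Type} [Fintype ι] (z : α → ℝ) (P : α) (v : Option ι → ℝ) (l : ι) :
    ∑ b, v b * ps z P b (some l) =
      v none + (∑ j, v (some j)) * (z P)⁻¹ - (z P - 1) * (z P)⁻¹ * v (some l) := by
  rw [Fintype.sum_option]
  have h : ∀ j, v (some j) * ps z P (some j) (some l) =
      v (some j) * (z P)⁻¹ - if l = j then (z P - 1) * (z P)⁻¹ * v (some j) else 0 := by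
    intro j
    by_cases h : l = j
    · simp only [ps, Option.elim, h, if_true]
      ring
    · have h' : ¬ (some l = some j) := fun e => h (Option.some.inj e)
      simp only [ps, Option.elim, h, h', if_false]
      ring
  rw [sum_congr rfl fun j _ => h j, sum_sub_distrib, sum_ite_eq, ← sum_mul]
  simp only [ps, Option.elim, mem_univ, if_true]
  ring

theorem inner_none {α ι : Type} [Fintype ι] (z : α → ℝ) (P : α) (v : Option ι → ℝ) :
    ∑ b, v b * ps z P b none = v none + (∑ j, v (some j)) * (z P)⁻¹ := by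
  rw [Fintype.sum_option, sum_mul]
  simp [ps, div_eq_mul_inv]

theorem key (a S Q u : ℝ) (h0 : 0 ≤ u) (h3 : 3 * u ≤ 1) (hQ : 0 ≤ Q) :
    (a + S * u) ^ 2 - 2 * (a + S * u) * (1 - u) * u * S + (1 - u) ^ 2 * u * Q ≤
      (1 + 3 * u ^ 2) * a ^ 2 + u * Q := by
  have h1 : (1 - u) ^ 2 * u * Q ≤ u * Q := by
    have : (1 - u) ^ 2 ≤ 1 := by nlinarith
    have h := mul_le_mul_of_nonneg_right this (mul_nonneg h0 hQ)
    linarith
  have h2 : 2 * a * S - (1 - 2 * u) * S ^ 2 ≤ 3 * a ^ 2 := by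
    nlinarith [sq_nonneg (3 * a - S), mul_nonneg (sub_nonneg.2 h3) (sq_nonneg S)]
  have h4 := mul_le_mul_of_nonneg_left h2 (sq_nonneg u)
  nlinarith

end K1c

theorem p_K1 :
    S_K1 := by
  intro α ι _ z P v hz
  have h0 : 0 < z P := by linarith
  have hu : (z P - 1) * (z P)⁻¹ = 1 - (z P)⁻¹ := by
    rw [sub_mul, mul_inv_cancel₀ h0.ne', one_mul]
  have h3 : 3 * (z P)⁻¹ ≤ 1 := by
    rw [← div_eq_mul_inv, div_le_one h0]
    exact hz
  have hk := K1c.key (v none) (∑ j, v (some j)) (∑ j, v (some j) ^ 2) (z P)⁻¹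
    (inv_pos.2 h0).le h3 (sum_nonneg fun j _ => sq_nonneg _)
  rw [Fintype.sum_option, Fintype.sum_option (f := fun b => d1 z P b * v b ^ 2), K1c.inner_none]
  simp only [K1c.inner_some, hu]
  simp only [ms, p0, d1, Option.elim]
  set u := (z P)⁻¹
  set S := ∑ j, v (some j) with hS
  set m := v none + S * u
  have e : ∑ j : ι, u * (m - (1 - u) * v (some j)) ^ 2 =
      (∑ _j : ι, u) * m ^ 2 - 2 * m * (1 - u) * u * S +
        (1 - u) ^ 2 * u * ∑ j, v (some j) ^ 2 := by
    rw [hS, sum_mul, mul_sum, mul_sum, ← sum_sub_distrib, ← sum_add_distrib]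
    exact sum_congr rfl fun j _ => by ring
  rw [e, ← mul_sum, div_eq_mul_inv, ← inv_pow]
  linarith

end Pool.Agent.P.MP_e94e4b_nt.MT
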