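import Pool.Agent.P.MP_e94e4b_nt.MT.IfA

/-! Step K2. -/

namespace Pool.Agent.P.MP_e94e4b_nt.MT

open Finset
open scoped Classical

namespace K2c

variable {α ι : Type} [Fintype ι]

/-- the vector without the colour `i` -/
noncomputable def vv (i : ι) (v : Option ι → ℝ) (j : ι) : ℝ := if j = i then 0 else v (some j)

theorem inner_none (i : ι) (z : α → ℝ) (P : α) (v : Option ι → ℝ) :
    ∑ b, v b * ch i z P b none = v none + (∑ j, vv i v j) / z P := by
  rw [Fintype.sum_option, sum_div]
  congr 1
  · simp [ch, ps]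
  · refine sum_congr rfl fun j _ => ?_
    by_cases h : j = i
    · simp [ch, vv, h]
    · simp [ch, vv, ps, h, div_eq_mul_inv]

theorem inner_some (i : ι) (z : α → ℝ) (P : α) (v : Option ι → ℝ) (k : ι) :
    ∑ b, v b * ch i z P b (some k) =
      v none + (∑ j, vv i v j) / z P - (z P - 1) * vv i v k / z P := by
  have e : ∀ j, v (some j) * ch i z P (some j) (some k) =
      vv i v j / z P - if k = j then (z P - 1) * vv i v j / z P else 0 := by
    intro j
    by_cases h : j = i
    · simp [ch, vv, h]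
    · by_cases h' : k = j
      · simp only [ch, vv, ps, h, h', Option.some.injEq, if_false, if_true, Option.elim]
        ring
      · simp only [ch, vv, ps, h, h', Option.some.injEq, if_false, Option.elim]
        ring
  rw [Fintype.sum_option, sum_congr rfl fun j _ => e j, sum_sub_distrib, sum_ite_eq, ← sum_div]
  simp only [mem_univ, if_true]
  have : v none * ch i z P none (some k) = v none := by simp [ch, ps]
  rw [this]
  ring

theorem cs (i : ι) (v : Option ι → ℝ) :
    (∑ j, vv i v j) ^ 2 ≤ ((Fintype.card ι : ℝ) - 1) * ∑ j, vv i v j ^ 2 := by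
  have h0 : vv i v i = 0 := if_pos rfl
  have e1 : ∑ j, vv i v j = ∑ j ∈ univ.erase i, vv i v j :=
    (sum_erase _ h0).symm
  have e2 : ∑ j, vv i v j ^ 2 = ∑ j ∈ univ.erase i, vv i v j ^ 2 :=
    (sum_erase (f := fun j => vv i v j ^ 2) _ (by simp [h0])).symm
  have h1 : 1 ≤ Fintype.card ι := Fintype.card_pos_iff.2 ⟨i⟩
  have e3 : (((univ : Finset ι).erase i).card : ℝ) = (Fintype.card ι : ℝ) - 1 := by
    rw [card_erase_of_mem (mem_univ i), card_univ, Nat.cast_sub h1, Nat.cast_one]
  rw [e1, e2, ← e3]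
  exact sq_sum_le_card_mul_sum_sq

end K2c

open K2c in
theorem p_K2 :
    S_K2 := by
  intro α ι _ i z P v hz
  have h0 : 0 < z P := by linarith
  have h1 : z P - 1 ≠ 0 := by
    have : 0 < z P - 1 := by linarith
    exact this.ne'
  have eL : ∑ b, d2 i z P b * v b ^ 2 =
      v none ^ 2 + (z P - Fintype.card ι) / z P ^ 2 * ∑ j, vv i v j ^ 2 := by
    rw [Fintype.sum_option, mul_sum]
    congr 1
    · simp [d2]
    · refine sum_congr rfl fun j _ => ?_
      by_cases h : j = i
      · simp [d2, vv, h]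
      · simp [d2, vv, h]
  have eR : ∀ (m : ℝ) (k : ι), p1 i z P k * (m - (z P - 1) * vv i v k / z P) ^ 2 =
      p1 i z P k * m ^ 2 - 2 * m / z P * vv i v k + (z P - 1) / z P ^ 2 * vv i v k ^ 2 := by
    intro m k
    by_cases h : k = i
    · simp [p1, vv, h]
    · simp only [p1, h, if_false]
      field_simp
      ring
  rw [eL, Fintype.sum_option (fun x => ms (p1 i z) P x * (∑ b, v b * ch i z P b x) ^ 2)]
  simp only [inner_none, inner_some, ms, Option.elim, eR]
  rw [sum_add_distrib, sum_sub_distrib, ← sum_mul, ← mul_sum, ← mul_sum]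
  have hc := cs i v
  generalize ∑ j, vv i v j = s at hc ⊢
  generalize ∑ j, vv i v j ^ 2 = Q at hc ⊢
  generalize ∑ j, p1 i z P j = p
  generalize (Fintype.card ι : ℝ) = t at hc ⊢
  have e : (1 - p) * (v none + s / z P) ^ 2 + (p * (v none + s / z P) ^ 2 -
      2 * (v none + s / z P) / z P * s + (z P - 1) / z P ^ 2 * Q) -
      (v none ^ 2 + (z P - t) / z P ^ 2 * Q) = ((t - 1) * Q - s ^ 2) / z P ^ 2 := by
    field_simp
    ring
  have : 0 ≤ ((t - 1) * Q - s ^ 2) / z P ^ 2 := div_nonneg (by linarith) (by positivity)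
  linarith

end Pool.Agent.P.MP_e94e4b_nt.MT
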