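import Pool.Agent.P.MP_e94e4b_nt.MT.IfA

/-! Step LO. -/

namespace Pool.Agent.P.MP_e94e4b_nt.MT

open Finset
open scoped Classical

theorem p_LO (hTEN : S_TEN) (hK2 : S_K2) (hF1 : S_F1) :
    S_LO := by
  intro α ι _ _ δ z g R i hz
  have h1 : (1 : ℝ) ≤ Fintype.card ι := by exact_mod_cast Fintype.card_pos_iff.2 ⟨i⟩
  have h := hTEN ι (-1) α (ms (p1 i z)) (d2 i z) (ch i z) (fun P x => ms_p1_nonneg i (hz P) x)
    (fun P b => by
      cases b with
      | none => exact zero_le_one
      | some j =>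
        simp only [d2, Option.elim]
        split_ifs
        exacts [le_rfl, div_nonneg (by linarith [hz P]) (sq_nonneg _)])
    (fun P v => by linarith [hK2 α ι i z P v (by linarith [hz P])]) (Yc δ z g R i)
  have e : EX (ms (p1 i z)) (fun x => LC (yc δ g R) (ps z) x ^ 2) =
      EX (ms (p1 i z)) (fun x => LC (Yc δ z g R i) (ch i z) x ^ 2) := by
    refine sum_congr rfl fun x _ => ?_
    by_cases c : ∀ P, x P ≠ some i
    · simp only [hF1 α ι δ z g R i x c]
    · push Not at c
      obtain ⟨P, hP⟩ := c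
      rw [prod_eq_zero (mem_univ P) (by simp [hP, ms, p1]), zero_mul, zero_mul]
  linarith

end Pool.Agent.P.MP_e94e4b_nt.MT
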