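import Pool.Agent.P.MP_e94e4b_nt.MT.IfA

/-! Step M4. -/

namespace Pool.Agent.P.MP_e94e4b_nt.MT

open Finset
open scoped Classical

namespace M4c

variable {α ι : Type} [Fintype ι] {z : α → ℝ} {P : α}

theorem row (h1 : 1 ≤ z P) (x : Option ι) : ∑ b, |ps z P b x| ≤
    1 + Fintype.card ι * (z P)⁻¹ + ∑ l, if x = some l then (1 : ℝ) else 0 := by
  have h0 : 0 < z P := by linarith
  have h2 := inv_pos.2 h0
  rw [Fintype.sum_option, add_assoc, ← nsmul_eq_mul, ← card_univ, ← sum_const, ← sum_add_distrib]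
  refine add_le_add (by simp [ps]) (sum_le_sum fun l _ => ?_)
  simp only [ps, Option.elim]
  rw [abs_div, abs_of_pos h0, div_le_iff₀ h0, add_mul, inv_mul_cancel₀ h0.ne', abs_le]
  split_ifs <;> constructor <;> linarith

theorem loc (h1 : 1 ≤ z P) :
    ∑ x : Option ι, ms (p0 z) P x * (∑ b, |ps z P b x|) ^ 4 ≤
      Real.exp (20 * (Fintype.card ι : ℝ) * (z P)⁻¹) := by
  have h2 : 0 < (z P)⁻¹ := inv_pos.2 (by linarith)
  obtain ⟨u, hu⟩ : ∃ u : ℝ, u = Fintype.card ι * (z P)⁻¹ := ⟨_, rfl⟩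
  have u0 : 0 ≤ u := by rw [hu]; positivity
  have a0 : ∀ x : Option ι, 0 ≤ ∑ b, |ps z P b x| := fun x => sum_nonneg fun _ _ => abs_nonneg _
  have a1 : (∑ b, |ps z P b (none : Option ι)|) ^ 4 ≤ (1 + u) ^ 4 :=
    pow_le_pow_left₀ (a0 _) (by simpa [hu] using row (ι := ι) h1 none) 4
  have a2 : ∀ j : ι, (∑ b, |ps z P b (some j)|) ^ 4 ≤ (2 * (1 + u)) ^ 4 := fun j =>
    pow_le_pow_left₀ (a0 _) (by
      have := row h1 (some j)
      simp only [Option.some.injEq, sum_ite_eq, mem_univ, if_true, ← hu] at this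
      linarith) 4
  have a3 : ms (p0 z) P (none : Option ι) ≤ 1 := by
    simp only [ms, p0, Option.elim, sum_const, nsmul_eq_mul, sub_le_self_iff]
    positivity
  have a4 : ∑ j : ι, ms (p0 z) P (some j) * (∑ b, |ps z P b (some j)|) ^ 4 ≤
      u * (2 * (1 + u)) ^ 4 := by
    refine (sum_le_card_nsmul _ _ _ fun j _ => mul_le_mul_of_nonneg_left (a2 j) h2.le).trans_eq ?_
    rw [card_univ, nsmul_eq_mul, hu, mul_assoc]
  have a5 : (1 + u) ^ 4 ≤ Real.exp u ^ 4 :=
    pow_le_pow_left₀ (by positivity) (by linarith [Real.add_one_le_exp u]) 4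
  have a6 := mul_le_mul a5 (Real.add_one_le_exp (16 * u)) (by positivity) (by positivity)
  rw [← Real.exp_nat_mul, ← Real.exp_add] at a6
  rw [Fintype.sum_option, mul_assoc, ← hu, show 20 * u = (4 : ℕ) * u + 16 * u by push_cast; ring]
  have a7 := (mul_le_of_le_one_left (pow_nonneg (a0 none) 4) a3).trans a1
  linarith

end M4c

theorem p_M4 :
    S_M4 := by
  intro α ι _ _ z c cm Λ h1 h2 h3 h4
  have k1 : ∀ x, LC c (ps z) x ^ 4 ≤
      ∑ _b : Unit, cm ^ 4 * ∏ P, (∑ b, |ps z P b (x P : Option ι)|) ^ 4 := fun x => by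
    rw [prod_pow, sum_const, card_univ, Fintype.card_unit, one_smul, ← mul_pow, ← sum_prod_fun,
      mul_sum, ← Even.pow_abs (by decide)]
    refine pow_le_pow_left₀ (abs_nonneg _) ((abs_sum_le_sum_abs _ _).trans
      (sum_le_sum fun ρ _ => ?_)) 4
    rw [abs_mul, abs_prod]
    exact mul_le_mul_of_nonneg_right (h4 ρ) (prod_nonneg fun _ _ => abs_nonneg _)
  have k0 : ∀ P (x : Option ι), 0 ≤ ms (p0 z) P x := fun P =>
    ms_p0_nonneg (by linarith [h1 P]) (h2 P)
  refine (EX_mono k0 k1).trans ?_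
  rw [EX_sum, sum_const, card_univ, Fintype.card_unit, one_smul,
    EX_prod _ fun P x => (∑ b, |ps z P b x|) ^ 4]
  refine mul_le_mul_of_nonneg_left ((prod_le_prod (fun P _ => sum_nonneg fun x _ =>
    mul_nonneg (k0 P x) (by positivity)) fun P _ => M4c.loc (h1 P)).trans ?_) (by positivity)
  rw [← Real.exp_sum, ← mul_sum]
  gcongr

end Pool.Agent.P.MP_e94e4b_nt.MT
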