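import Pool.Agent.P.MP_e94e4b_nt.MT.IfA

/-! Step MAXS. -/

namespace Pool.Agent.P.MP_e94e4b_nt.MT

open Finset
open scoped Classical

namespace MAXSc

end MAXSc

theorem p_MAXS :
    S_MAXS := by
  intro G _ _ t p hp hb
  have : Fintype G := Fintype.ofFinite G
  obtain ⟨s, hs, hmax⟩ := exists_max_image
    (univ.filter fun s : Finset G => ∀ a ∈ s, ∀ b ∈ s, a ≠ b → ¬ p (a - b)) card
    ⟨∅, by simp⟩
  have hs' := (mem_filter.1 hs).2
  have hlt : s.card ≤ t := by
    by_contra h
    obtain ⟨u, hu, hc⟩ := exists_subset_card_eq (s := s) (n := t) (by omega)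
    obtain ⟨i, j, hij, h⟩ := hb (fun i => ((equivFinOfCardEq hc).symm i : G))
      (Subtype.val_injective.comp (equivFinOfCardEq hc).symm.injective)
    refine hs' _ (hu ((equivFinOfCardEq hc).symm i).2) _ (hu ((equivFinOfCardEq hc).symm j).2)
      (fun e => hij ?_) h
    exact (equivFinOfCardEq hc).symm.injective (Subtype.val_injective e)
  set g : Finset G := univ.filter fun y => y ≠ 0 ∧ p y with hg
  have hcov : (univ : Finset G) ⊆ s ∪ image₂ (· + ·) s g := by
    intro y _
    by_cases hy : y ∈ s
    · exact mem_union_left _ hy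
    refine mem_union_right _ ?_
    by_contra hn
    have key : ∀ a ∈ s, ¬ p (y - a) := fun a ha h => hn (mem_image₂.2 ⟨a, ha, y - a,
      mem_filter.2 ⟨mem_univ _, sub_ne_zero.2 fun e => hy (e ▸ ha), h⟩, by simp⟩)
    have := hmax (insert y s) (mem_filter.2 ⟨mem_univ _, fun a ha b hb' hab => ?_⟩)
    · rw [card_insert_of_notMem hy] at this
      omega
    rcases mem_insert.1 ha with rfl | ha1
    · rcases mem_insert.1 hb' with rfl | hb1
      · exact absurd rfl hab
      · exact key b hb1
    · rcases mem_insert.1 hb' with rfl | hb1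
      · exact fun h => key a ha1 (hp _ (by rwa [neg_sub]))
      · exact hs' a ha1 b hb1 hab
  have e : Set.ncard {y | y ≠ 0 ∧ p y} = g.card := by
    rw [← Set.ncard_coe_finset]
    congr 1
    ext y
    simp [hg]
  have h1 := (card_le_card hcov).trans (card_union_le _ _)
  have h2 := card_image₂_le (· + ·) s g
  rw [e, Nat.card_eq_fintype_card, ← card_univ]
  calc (univ : Finset G).card ≤ s.card + s.card * g.card := by omega
    _ = s.card * (1 + g.card) := by ring
    _ ≤ _ := Nat.mul_le_mul_right _ hlt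

end Pool.Agent.P.MP_e94e4b_nt.MT
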