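import Pool.Agent.P.MP_e94e4b_nt.MT.IfA

/-! Step MON. -/

namespace Pool.Agent.P.MP_e94e4b_nt.MT

open Finset
open scoped Classical

theorem p_MON :
    S_MON := by
  intro α _ δ z g P hz hg h0
  simp only [mul_ite, mul_one, mul_zero]
  rw [← sum_filter, U2, sum_mul]
  have hinj : Set.InjOn (fun S : Finset α => S.erase P)
      (univ.filter (fun S : Finset α => P ∈ S) : Finset (Finset α)) := by
    intro S hS T hT h
    have h1 : P ∈ S := (mem_filter.1 (mem_coe.1 hS)).2
    have h2 : P ∈ T := (mem_filter.1 (mem_coe.1 hT)).2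
    rw [← insert_erase h1, ← insert_erase h2]
    exact congrArg _ h
  calc _ ≤ ∑ S ∈ univ.filter (fun S : Finset α => P ∈ S),
        g (ds δ (S.erase P)) ^ 2 * uz z (S.erase P) * (z P)⁻¹ := by
        refine sum_le_sum fun S hS => ?_
        have h1 : uz z S = (z P)⁻¹ * uz z (S.erase P) :=
          (mul_prod_erase S (fun Q => (z Q)⁻¹) (mem_filter.1 hS).2).symm
        have h2 := pow_le_pow_left₀ (h0 _) (hg (ds_mono δ (erase_subset P S))) 2
        have h3 := mul_pos (inv_pos.2 (hz P)) (uz_pos hz (S.erase P))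
        rw [h1, mul_assoc, mul_comm (uz z _)]
        exact mul_le_mul_of_nonneg_right h2 h3.le
    _ = ∑ S ∈ (univ.filter (fun S : Finset α => P ∈ S)).image (fun S => S.erase P),
        g (ds δ S) ^ 2 * uz z S * (z P)⁻¹ :=
        (sum_image (f := fun S => g (ds δ S) ^ 2 * uz z S * (z P)⁻¹) hinj).symm
    _ ≤ _ := sum_le_sum_of_subset_of_nonneg (subset_univ _) fun S _ _ =>
        mul_nonneg (mul_nonneg (sq_nonneg _) (uz_pos hz S).le) (inv_pos.2 (hz P)).le

end Pool.Agent.P.MP_e94e4b_nt.MT
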