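import Pool.Agent.P.MP_e94e4b_nt.MT.IfA
import Pool.Agent.P.MP_8be758_nt.L2.Basic

/-! Step NUM. -/

namespace Pool.Agent.P.MP_e94e4b_nt.MT

open Finset
open scoped Classical

namespace NUMc

theorem ex (c R ν : ℕ) (h : R + 1 ≤ ν) :
    Real.exp (c * (1 + Real.log (R + 1))) ≤ Real.exp c * (ν : ℝ) ^ c := by
  rw [mul_add, mul_one, Real.exp_add, Real.exp_nat_mul (Real.log _), Real.exp_log (by positivity)]
  gcongr
  exact_mod_cast h

end NUMc

theorem p_NUM :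
    S_NUM := by
  intro δ r hδ
  obtain ⟨m, hm⟩ : ∃ m, m = 2048 * 2080 * (δ * r) + 1 := ⟨_, rfl⟩
  obtain ⟨t, ht⟩ : ∃ t, t = 2 ^ m := ⟨_, rfl⟩
  have t1 : 1 ≤ t := ht ▸ Nat.one_le_two_pow
  refine ⟨m, 20 * t + 1, by omega, fun D => ?_⟩
  obtain ⟨n0, h0⟩ := MP_8be758_nt.L2.NEG (2 * (t + 1) ^ 3) (δ * 2)
    (4 ^ t * Real.exp (2 * (t + 1) ^ 3 : ℕ)) 1 (by omega) one_pos
  obtain ⟨n1, h1⟩ := exists_nat_ge ((t : ℝ) ^ 2 * 16 ^ t * Real.exp (20 * t : ℕ))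
  obtain ⟨M, hM⟩ : ∃ M, M = 1040 * (t * m) := ⟨_, rfl⟩
  have M1 : 0 < M := by rw [hM]; exact Nat.mul_pos (by norm_num) (Nat.mul_pos t1 (by omega))
  obtain ⟨Z, hZ⟩ : ∃ Z, Z = 64 * 8 ^ D + 1024 := ⟨_, rfl⟩
  refine ⟨n0 + n1 + (Z * M + 8 * D + 8) * δ, fun ν hν t' ht' => ?_⟩
  obtain rfl : t = t' := ht.trans ht'.symm
  clear ht ht'
  have x1 : Z * M + 8 * D + 8 ≤ ν / δ := (Nat.le_div_iff_mul_le hδ).2 (by omega)
  have x2 := Nat.lt_mul_div_succ ν hδ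
  have x3 := Nat.div_le_self ν δ
  have h0 := h0 ν (by omega)
  rw [← Nat.div_div_eq_div_mul, one_mul] at h0
  generalize ν / δ = x at *
  have b1 : Z ≤ x / M := (Nat.le_div_iff_mul_le M1).2 (by omega)
  have b2 := Nat.lt_mul_div_succ x M1
  have b3 := Nat.mul_div_le x M
  generalize x / M = B at *
  have e : M * B = 16 * (65 * t * m * B) := by rw [hM]; ring
  have b4 : x + 1 ≤ M * (2 * B) := b2.trans_le (Nat.mul_le_mul_left M (by omega))
  refine ⟨B, _, rfl, by omega, by omega, ?_, ?_, ?_, ?_⟩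
  · exact le_trans (by omega) (Nat.le_mul_of_pos_left B (pow_pos (by omega) 2))
  · calc 2048 * ν * r ≤ 2048 * (δ * (M * (2 * B))) * r := by
          gcongr
          exact x2.le.trans (Nat.mul_le_mul_left δ b4)
      _ = t * m * B * (2048 * 2080 * (δ * r)) := by rw [hM]; ring
      _ ≤ t * m * B * m := Nat.mul_le_mul_left _ (by omega)
      _ = _ := by ring
  · have := NUMc.ex (2 * (t + 1) ^ 3) (65 * t * m * B) (ν + 1) (by omega)
    push_cast at this h0 ⊢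
    exact (mul_le_mul_of_nonneg_left this (by positivity)).trans (by rwa [← mul_assoc])
  · have := NUMc.ex (20 * t) (65 * t * m * B) ν (by omega)
    have a : (n1 : ℝ) ≤ ν := by exact_mod_cast (by omega : n1 ≤ ν)
    push_cast at this h1 ⊢
    calc _ ≤ (t : ℝ) ^ 2 * (16 ^ t * (Real.exp (20 * t) * (ν : ℝ) ^ (20 * t))) := by gcongr
      _ = (ν : ℝ) ^ (20 * t) * ((t : ℝ) ^ 2 * 16 ^ t * Real.exp (20 * t)) := by ring
      _ ≤ _ := by rw [pow_succ (ν : ℝ)]; gcongr; exact h1.trans a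

end Pool.Agent.P.MP_e94e4b_nt.MT
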