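import Pool.Agent.P.MP_e94e4b_nt.MT.IfB

/-! Step PIG. -/

namespace Pool.Agent.P.MP_e94e4b_nt.MT

open Polynomial Finset
open Pool.Agent.P.MP_8be758_nt Pool.Agent.P.MP_8be758_nt.C2 Pool.Agent.P.MP_8be758_nt.L2
open scoped Classical

theorem p_PIG :
    S_PIG := by
  intro k _ _ t c F m ht hc
  obtain ⟨⟨i, j⟩, h1, h2⟩ := exists_max_image (univ : Finset (Fin t)).offDiag
    (fun p => TP F m (c p.1 - c p.2)) ⟨(⟨0, by omega⟩, ⟨1, by omega⟩), by simp⟩
  refine ⟨i, j, (mem_offDiag.1 h1).2.2, (card_le_card (t := univ.offDiag.biUnion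
    fun p : Fin t × Fin t => (low k m).filter fun x =>
      Irreducible (F + x + c p.2) ∧ Irreducible (F + x + c p.1)) fun x hx => ?_).trans
    ((card_biUnion_le_card_mul _ _ _ fun p hp => le_trans ?_ (h2 p hp)).trans
      (Nat.mul_le_mul_right _ (by simp [offDiag_card, pow_two])))⟩
  · obtain ⟨a, ha, b, hb, e⟩ := one_lt_card.1 (mem_filter.1 hx).2
    exact mem_biUnion.2 ⟨(a, b), by simpa using e, mem_filter.2
      ⟨(mem_filter.1 hx).1, (mem_filter.1 hb).2, (mem_filter.1 ha).2⟩⟩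
  · refine card_le_card_of_injOn (· + c p.2) (fun x hx => ?_) (add_left_injective _).injOn
    obtain ⟨a, b, d⟩ := mem_filter.1 (mem_coe.1 hx)
    exact mem_coe.2 (mem_filter.2 ⟨add_mem_low a (hc _), by rwa [← add_assoc],
      by rwa [← add_assoc, add_assoc (F + x), add_sub_cancel]⟩)

end Pool.Agent.P.MP_e94e4b_nt.MT
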