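import Pool.Agent.P.MP_e94e4b_nt.MT.IfA

/-! Step PR. -/

namespace Pool.Agent.P.MP_e94e4b_nt.MT

open Finset
open scoped Classical

theorem p_PR (hPR1 : S_PR1) (hPR2 : S_PR2) :
    S_PR := by
  intro α ι _ _ δ z w A σ μ L hz hA hAz hL hμ hσ hw h1 h2
  set W := ∏ j, ∑ S, w j S with hW
  have W0 : 0 ≤ W := prod_nonneg fun j _ => sum_nonneg fun S _ => hw j S
  have zi : ∀ P, 0 ≤ (z P)⁻¹ := fun P => (inv_pos.2 (hz P)).le
  have ind : ∀ (P : α) (S : Finset α), (0 : ℝ) ≤ if P ∈ S then 1 else 0 := fun P S => by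
    split_ifs <;> norm_num
  have hs : ∑ P, (z P)⁻¹ * (z P)⁻¹ ≤ σ := by simpa [sq] using hσ
  have σ0 : 0 ≤ σ := (sum_nonneg fun P _ => mul_nonneg (zi P) (zi P)).trans hs
  have L0 : (0 : ℝ) < L := by exact_mod_cast hL
  have e0 : ∑ r : ι → Finset α, ∏ l, w l (r l) = W := sum_prod_fun w
  have e1 : ∑ r : ι → Finset α, (∏ l, w l (r l)) * ∑ j, ∑ j' ∈ univ.erase j, ∑ P,
      (if P ∈ r j then (1 : ℝ) else 0) * (if P ∈ r j' then (1 : ℝ) else 0) ≤
      W * ((Fintype.card ι : ℝ) ^ 2 * σ) := by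
    simp only [mul_sum]
    rw [sum_comm]
    refine (sum_le_card_nsmul _ _ (Fintype.card ι * (W * σ)) fun j _ => ?_).trans
      (le_of_eq (by rw [nsmul_eq_mul, card_univ]; ring))
    rw [sum_comm]
    refine (sum_le_card_nsmul _ _ (W * σ) fun j' hj' => ?_).trans ?_
    · rw [sum_comm]
      refine (sum_le_sum fun P _ => (hPR2 _ ι w _ _ _ (z P)⁻¹ j j' hw (ind P) (ind P) (zi P)
        (h1 j P)).2 (ne_of_mem_erase hj').symm (h1 j' P)).trans ?_
      rw [← mul_sum]
      exact mul_le_mul_of_nonneg_left hs W0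
    · rw [nsmul_eq_mul]
      exact mul_le_mul_of_nonneg_right (Nat.cast_le.2 (card_le_univ _)) (mul_nonneg W0 σ0)
  have e2 : ∑ r : ι → Finset α, (∏ l, w l (r l)) * ((∑ j, (ds δ (r j) : ℝ)) / L) ≤
      W * (Fintype.card ι * μ / L) := by
    simp only [← mul_div_assoc]
    rw [← sum_div]
    refine div_le_div_of_nonneg_right ?_ L0.le
    simp only [mul_sum]
    rw [sum_comm]
    refine (sum_le_card_nsmul _ _ (W * μ) fun j _ => (hPR2 _ ι w (fun S => (ds δ S : ℝ))
      (fun _ => 0) μ 0 j j hw (fun _ => Nat.cast_nonneg _) (fun _ => le_rfl) hμ (h2 j)).1).trans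
      (le_of_eq (by rw [nsmul_eq_mul, card_univ]; ring))
  have e3 : ∑ r : ι → Finset α, (∏ l, w l (r l)) * ∑ j, ∑ P,
      (if P ∈ r j then (1 : ℝ) else 0) * (A * (z P)⁻¹) ≤ W * (Fintype.card ι * A * σ) := by
    simp only [mul_sum]
    rw [sum_comm]
    refine (sum_le_card_nsmul _ _ (W * (A * σ)) fun j _ => ?_).trans
      (le_of_eq (by rw [nsmul_eq_mul, card_univ]; ring))
    rw [sum_comm]
    refine (sum_le_sum (g := fun P => W * (A * ((z P)⁻¹ * (z P)⁻¹))) fun P _ => ?_).trans ?_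
    · simp only [← mul_assoc]
      rw [← sum_mul, ← sum_mul]
      have := (hPR2 _ ι w _ (fun _ => 0) _ 0 j j hw (ind P) (fun _ => le_rfl) (zi P) (h1 j P)).1
      have := mul_le_mul_of_nonneg_right this (mul_nonneg hA (zi P))
      linarith
    · rw [← mul_sum, ← mul_sum]
      exact mul_le_mul_of_nonneg_left (mul_le_mul_of_nonneg_left hs hA) W0
  have key := sum_le_sum (s := univ) fun (r : ι → Finset α) _ => mul_le_mul_of_nonneg_left
    (hPR1 α ι δ (fun P => A * (z P)⁻¹) L r (fun P => ⟨mul_nonneg hA (zi P), by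
      rw [← div_eq_mul_inv, div_le_one (hz P)]; exact hAz P⟩) hL)
    (prod_nonneg (s := univ) fun l _ => hw l (r l))
  simp only [mul_sub, mul_one, sum_sub_distrib] at key
  rw [sum_filter, mul_sub, mul_sub, mul_sub, mul_one]
  refine le_trans (by linarith) (key.trans (le_of_eq (sum_congr rfl fun r _ => ?_)))
  rw [mul_ite, mul_zero, prod_mul_distrib]

end Pool.Agent.P.MP_e94e4b_nt.MT
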