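import Pool.Agent.P.MP_e94e4b_nt.MT.IfA

/-! Step PR1. -/

namespace Pool.Agent.P.MP_e94e4b_nt.MT

open Finset
open scoped Classical

namespace PR1c

theorem one_sub_sum_le {β : Type} (s : Finset β) (a b : β → ℝ) (ha : ∀ j, 0 ≤ a j)
    (hb : ∀ j, 0 ≤ b j) (hab : ∀ j, 1 - a j ≤ b j) :
    1 - ∑ j ∈ s, a j ≤ ∏ j ∈ s, b j := by
  induction s using Finset.induction_on with
  | empty => simp
  | insert j s hj ih =>
    rw [sum_insert hj, prod_insert hj]
    have h1 : 0 ≤ ∑ i ∈ s, a i := sum_nonneg fun i _ => ha i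
    have h2 : 0 ≤ ∏ i ∈ s, b i := prod_nonneg fun i _ => hb i
    by_cases h : 0 ≤ 1 - a j
    · have h3 : (1 - a j) * (1 - ∑ i ∈ s, a i) ≤ (1 - a j) * ∏ i ∈ s, b i :=
        mul_le_mul_of_nonneg_left ih h
      have h4 : (1 - a j) * ∏ i ∈ s, b i ≤ b j * ∏ i ∈ s, b i :=
        mul_le_mul_of_nonneg_right (hab j) h2
      nlinarith [mul_nonneg (ha j) h1]
    · have := mul_nonneg (hb j) h2
      linarith

end PR1c

theorem p_PR1 :
    S_PR1 := by
  intro α ι _ _ δ y L r hy hL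
  have hi : ∀ (j : ι) (P : α), 0 ≤ (if P ∈ r j then (1 : ℝ) else 0) := fun j P => by
    split_ifs <;> norm_num
  have hc : ∀ j j' : ι, 0 ≤ ∑ P, (if P ∈ r j then (1 : ℝ) else 0) *
      (if P ∈ r j' then (1 : ℝ) else 0) :=
    fun j j' => sum_nonneg fun P _ => mul_nonneg (hi j P) (hi j' P)
  have h1 : 0 ≤ ∑ j, ∑ j' ∈ univ.erase j, ∑ P, (if P ∈ r j then (1 : ℝ) else 0) *
      (if P ∈ r j' then (1 : ℝ) else 0) :=
    sum_nonneg fun j _ => sum_nonneg fun j' _ => hc j j'
  have hL' : (0 : ℝ) < L := by exact_mod_cast hL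
  have h2 : 0 ≤ (∑ j, (ds δ (r j) : ℝ)) / L := by positivity
  have h3 : 0 ≤ ∑ j, ∑ P, (if P ∈ r j then (1 : ℝ) else 0) * y P :=
    sum_nonneg fun j _ => sum_nonneg fun P _ => mul_nonneg (hi j P) (hy P).1
  split_ifs with h
  · have e : ∀ j, ∑ P, (if P ∈ r j then (1 : ℝ) else 0) * y P = ∑ P ∈ r j, y P := fun j => by
      simp only [ite_mul, one_mul, zero_mul, sum_ite_mem, univ_inter]
    simp only [e]
    have := PR1c.one_sub_sum_le univ (fun j => ∑ P ∈ r j, y P) (fun j => ∏ P ∈ r j, (1 - y P))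
      (fun j => sum_nonneg fun P _ => (hy P).1)
      (fun j => prod_nonneg fun P _ => sub_nonneg.2 (hy P).2)
      (fun j => PR1c.one_sub_sum_le (r j) y (fun P => 1 - y P) (fun P => (hy P).1)
        (fun P => sub_nonneg.2 (hy P).2) (fun P => le_rfl))
    linarith
  · by_cases hD : Dj r
    · have h4 : L ≤ ∑ j, ds δ (r j) := by
        by_contra hlt
        exact h ⟨hD, (not_le.1 hlt).le⟩
      have h5 : (L : ℝ) ≤ ∑ j, (ds δ (r j) : ℝ) := by exact_mod_cast h4
      have h6 := (one_le_div hL').2 h5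
      linarith
    · have : ∃ j j' P, j ≠ j' ∧ P ∈ r j ∧ P ∈ r j' := by
        by_contra hcon
        apply hD
        intro j j' hne
        rw [Finset.disjoint_left]
        intro P hP hP'
        exact hcon ⟨j, j', P, hne, hP, hP'⟩
      obtain ⟨j, j', P, hne, hP, hP'⟩ := this
      have k1 := single_le_sum (f := fun P => (if P ∈ r j then (1 : ℝ) else 0) *
        (if P ∈ r j' then (1 : ℝ) else 0)) (fun P _ => mul_nonneg (hi j P) (hi j' P)) (mem_univ P)
      have k2 := single_le_sum (f := fun j' => ∑ P, (if P ∈ r j then (1 : ℝ) else 0) *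
        (if P ∈ r j' then (1 : ℝ) else 0)) (fun j' _ => hc j j')
        (mem_erase.2 ⟨hne.symm, mem_univ j'⟩)
      have k3 := single_le_sum (f := fun j => ∑ j' ∈ univ.erase j, ∑ P,
        (if P ∈ r j then (1 : ℝ) else 0) * (if P ∈ r j' then (1 : ℝ) else 0))
        (fun j _ => sum_nonneg fun j' _ => hc j j') (mem_univ j)
      simp only [if_pos hP, if_pos hP', mul_one] at k1
      linarith

end Pool.Agent.P.MP_e94e4b_nt.MT
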