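import Pool.Agent.P.MP_e94e4b_nt.MT.IfA

/-! Step PR2. -/

namespace Pool.Agent.P.MP_e94e4b_nt.MT

open Finset
open scoped Classical

namespace PR2c

theorem gen {β ι : Type} [Fintype β] [Fintype ι] (w F : ι → β → ℝ) (A : ι → ℝ)
    (hw : ∀ l b, 0 ≤ w l b) (hF : ∀ l b, 0 ≤ F l b)
    (h : ∀ l, ∑ b, w l b * F l b ≤ (∑ b, w l b) * A l) :
    ∑ r : ι → β, (∏ l, w l (r l)) * ∏ l, F l (r l) ≤ (∏ l, ∑ b, w l b) * ∏ l, A l := by
  rw [← prod_mul_distrib]
  refine le_trans (le_of_eq ?_) (prod_le_prod
    (fun l _ => sum_nonneg fun b _ => mul_nonneg (hw l b) (hF l b)) fun l _ => h l)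
  rw [← sum_prod_fun]
  exact sum_congr rfl fun r _ => prod_mul_distrib.symm

end PR2c

theorem p_PR2 :
    S_PR2 := by
  intro β ι _ _ w f f' a a' j j' hw hf hf' _ h
  refine ⟨?_, fun hj h' => ?_⟩
  · have := PR2c.gen w (fun l b => if l = j then f b else 1) (fun l => if l = j then a else 1) hw
      (fun l b => by split_ifs; exacts [hf b, zero_le_one]) fun l => by
        by_cases e : l = j
        · subst e
          simpa using h
        · simp [e]
    have e1 : ∀ r : ι → β, ∏ l, (if l = j then f (r l) else 1) = f (r j) := fun r => by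
      rw [prod_ite_eq']
      simp
    simpa [e1] using this
  · have := PR2c.gen w (fun l b => (if l = j then f b else 1) * if l = j' then f' b else 1)
      (fun l => (if l = j then a else 1) * if l = j' then a' else 1) hw
      (fun l b => mul_nonneg (by split_ifs; exacts [hf b, zero_le_one])
        (by split_ifs; exacts [hf' b, zero_le_one])) fun l => by
        by_cases e : l = j
        · subst e
          simpa [hj] using h
        · by_cases e' : l = j'
          · subst e'
            simpa [e] using h'
          · simp [e, e']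
    have e1 : ∀ r : ι → β, ∏ l, ((if l = j then f (r l) else 1) *
        if l = j' then f' (r l) else 1) = f (r j) * f' (r j') := fun r => by
      rw [prod_mul_distrib, prod_ite_eq', prod_ite_eq']
      simp
    have e2 : ∏ l, ((if l = j then a else 1) * if l = j' then a' else 1) = a * a' := by
      rw [prod_mul_distrib, prod_ite_eq', prod_ite_eq']
      simp
    rw [e2] at this
    simpa only [e1] using this

end Pool.Agent.P.MP_e94e4b_nt.MT
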