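import Pool.Agent.P.MP_e94e4b_nt.MT.IfB

/-! Step SM. -/

namespace Pool.Agent.P.MP_e94e4b_nt.MT

open Polynomial Finset
open Pool.Agent.P.MP_8be758_nt Pool.Agent.P.MP_8be758_nt.C2 Pool.Agent.P.MP_8be758_nt.L2
open scoped Classical

theorem p_SM :
    S_SM := by
  intro A
  refine ⟨A ^ (A ^ (A + 1) * A) + 1, fun k _ _ => ?_⟩
  rcases le_or_gt A (Nat.card k) with h | h
  · refine ⟨0, by simpa using h, ?_⟩
    have : Pr k 0 = ∅ := eq_empty_of_forall_notMem fun P hP => by
      have := mem_Pr.1 hP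
      have := this.1.pos
      omega
    rw [this, dg_empty, pow_zero]
    exact Nat.le_add_left _ _
  · refine ⟨A, ?_, ?_⟩
    · have h1 : A + 1 < 2 ^ (A + 1) := Nat.lt_two_pow_self
      have h2 : 2 ^ (A + 1) ≤ Nat.card k ^ (A + 1) := Nat.pow_le_pow_left two_le_card _
      omega
    · have h1 : (Pr k A).card ≤ Nat.card k ^ (A + 1) := by
        have := card_Pr_le (k := k) A
        unfold qq at this
        exact_mod_cast this
      have h2 : dg (Pr k A) ≤ (Pr k A).card * A :=
        sum_le_card_nsmul _ _ A fun P hP => (mem_Pr.1 hP).2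
      have h3 := h2.trans (Nat.mul_le_mul_right A (h1.trans (Nat.pow_le_pow_left h.le _)))
      exact ((Nat.pow_le_pow_left h.le _).trans (Nat.pow_le_pow_right (by omega) h3)).trans
        (Nat.le_add_right _ _)

end Pool.Agent.P.MP_e94e4b_nt.MT
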