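import Pool.Agent.P.MP_e94e4b_nt.MT.IfA

/-! Step SQ1. -/

namespace Pool.Agent.P.MP_e94e4b_nt.MT

open Finset
open scoped Classical

namespace SQ1c

theorem loc {α ι : Type} [Fintype ι] (φ : α → Option ι → Option ι → ℝ) (P : α)
    (b b' x : Option ι) : φ P b x * φ P b' x = ∑ s, gm φ P b b' s * ib P s x := by
  rw [Fintype.sum_option]
  cases x with
  | none => simp [gm, ib]
  | some j => simp [gm, ib]

end SQ1c

theorem p_SQ1 :
    S_SQ1 := by
  intro α ι _ _ c φ hφ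
  refine ⟨fun x => ?_, fun δ L hL σ hσ => ?_⟩
  · have e : ∀ ρ ρ' : α → Option ι, (∏ P, φ P (ρ P) (x P)) * ∏ P, φ P (ρ' P) (x P) =
        ∑ σ : α → Option ι, (∏ P, gm φ P (ρ P) (ρ' P) (σ P)) * ∏ P, ib P (σ P) (x P) := by
      intro ρ ρ'
      rw [← prod_mul_distrib, prod_congr rfl fun P _ => SQ1c.loc φ P (ρ P) (ρ' P) (x P),
        ← sum_prod_fun]
      exact sum_congr rfl fun σ _ => prod_mul_distrib
    unfold LC o2
    simp only [sum_mul]
    rw [sq, sum_mul_sum, sum_comm (f := fun σ ρ : α → Option ι => ∑ ρ' : α → Option ι, _)]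
    refine sum_congr rfl fun ρ _ => ?_
    rw [sum_comm]
    refine sum_congr rfl fun ρ' _ => ?_
    rw [mul_mul_mul_comm, e, mul_sum]
    exact sum_congr rfl fun σ _ => (mul_assoc _ _ _).symm
  · obtain ⟨ρ, -, h1⟩ := exists_ne_zero_of_sum_ne_zero hσ
    obtain ⟨ρ', -, h2⟩ := exists_ne_zero_of_sum_ne_zero h1
    have a1 := hL ρ (left_ne_zero_of_mul (left_ne_zero_of_mul h2))
    have a2 := hL ρ' (right_ne_zero_of_mul (left_ne_zero_of_mul h2))
    have a3 : sp σ ⊆ sp ρ ∪ sp ρ' := fun P hP => by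
      by_contra hc
      rw [mem_union, not_or, notMem_sp, notMem_sp] at hc
      obtain ⟨j, hj⟩ := mem_sp'.1 hP
      refine right_ne_zero_of_mul h2 (prod_eq_zero (mem_univ P) ?_)
      simp [gm, hj, hc.1, hc.2, hφ]
    have a4 := (ds_mono δ a3).trans (ds_union_le δ _ _)
    omega

end Pool.Agent.P.MP_e94e4b_nt.MT
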