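import Pool.Agent.P.MP_e94e4b_nt.MT.IfA

/-! Step SQ2. -/

namespace Pool.Agent.P.MP_e94e4b_nt.MT

open Finset
open scoped Classical

namespace SQ2c

variable {α ι : Type} [Fintype α] [Fintype ι] {z : α → ℝ} {P : α}

omit [Fintype α] [Fintype ι] in
theorem ps_le (h : 1 ≤ z P) (b x : Option ι) : |ps z P b x| ≤ 1 := by
  cases b with
  | none => simp [ps]
  | some j =>
    simp only [ps, Option.elim]
    rw [abs_div, abs_of_pos (show 0 < z P by linarith), div_le_one (by linarith), abs_le]
    split_ifs <;> constructor <;> linarith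

omit [Fintype α] in
theorem pair (h : 1 ≤ z P) (b b' : Option ι) :
    ∑ s : Option ι, |gm (ps z) P b b' s| * s.elim 1 (fun _ => (z P)⁻¹) ≤
      (if b = none then 1 else 0) * (if b' = none then 1 else 0) +
        2 * ((Fintype.card ι : ℝ) + 1) * (z P)⁻¹ := by
  have h0 : 0 < (z P)⁻¹ := inv_pos.2 (by linarith)
  have m : ∀ x y : Option ι, |ps z P b x * ps z P b' y| ≤ 1 := fun x y => by
    rw [abs_mul]
    exact mul_le_one₀ (ps_le h _ _) (abs_nonneg _) (ps_le h _ _)
  have e : ∀ j : ι, |ps z P (some j) none| = (z P)⁻¹ := fun j => by simp [ps, abs_of_pos h0]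
  have h1 : ∑ j : ι, |gm (ps z) P b b' (some j)| * (z P)⁻¹ ≤ Fintype.card ι * (2 * (z P)⁻¹) := by
    rw [← nsmul_eq_mul, ← card_univ]
    refine sum_le_card_nsmul _ _ _ fun j _ => mul_le_mul_of_nonneg_right ?_ h0.le
    exact (abs_sub _ _).trans (by linarith [m (some j) (some j), m none none])
  have h2 : |gm (ps z) P b b' none| ≤
      (if b = none then 1 else 0) * (if b' = none then 1 else 0) + (z P)⁻¹ := by
    change |ps z P b none * ps z P b' none| ≤ _
    have a1 := ps_le h b none
    have a2 := ps_le h b' none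
    have a3 := m none none
    rw [abs_mul] at a3 ⊢
    cases b <;> cases b' <;> simp only [e, reduceCtorEq, if_true, if_false] at a1 a2 a3 ⊢ <;>
      nlinarith
  rw [Fintype.sum_option]
  simp only [Option.elim]
  linarith

omit [Fintype α] in
theorem loc (h : 1 ≤ z P) :
    ∑ b : Option ι, ∑ b' : Option ι, ∑ s : Option ι,
      |gm (ps z) P b b' s| * s.elim 1 (fun _ => (z P)⁻¹) ≤
      1 + 2 * ((Fintype.card ι : ℝ) + 1) ^ 3 * (z P)⁻¹ := by
  refine (sum_le_sum fun b _ => sum_le_sum fun b' _ => pair h b b').trans (le_of_eq ?_)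
  simp only [sum_add_distrib, ← mul_sum, ← sum_mul, sum_ite_eq', mem_univ, if_true, sum_const,
    card_univ, Fintype.card_option, nsmul_eq_mul]
  push_cast
  ring

theorem uz_eq (z : α → ℝ) (σ : α → Option ι) :
    uz z (sp σ) = ∏ P, (σ P).elim 1 (fun _ => (z P)⁻¹) := by
  rw [prod_split σ fun P s => s.elim 1 (fun _ => (z P)⁻¹), uz_sp]
  simp [uz]

end SQ2c

open SQ2c in
theorem p_SQ2 :
    S_SQ2 := by
  intro α ι _ _ z c cm Λ hz hΛ hc
  have h0 : ∀ P, 0 < (z P)⁻¹ := fun P => inv_pos.2 (by linarith [hz P])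
  have hw : ∀ P (s : Option ι), 0 ≤ s.elim 1 (fun _ => (z P)⁻¹) := fun P s => by
    cases s
    exacts [zero_le_one, (h0 P).le]
  calc _ ≤ ∑ σ : α → Option ι, ∑ ρ : α → Option ι, ∑ ρ' : α → Option ι, cm ^ 2 *
        ∏ P, |gm (ps z) P (ρ P) (ρ' P) (σ P)| * (σ P).elim 1 (fun _ => (z P)⁻¹) := by
        refine sum_le_sum fun σ _ => ?_
        simp only [prod_mul_distrib, ← mul_assoc, ← sum_mul]
        rw [uz_eq]
        refine mul_le_mul_of_nonneg_right ?_ (prod_nonneg fun P _ => hw P _)
        refine (abs_sum_le_sum_abs _ _).trans (sum_le_sum fun ρ _ =>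
          (abs_sum_le_sum_abs _ _).trans (sum_le_sum fun ρ' _ => ?_))
        rw [abs_mul, abs_mul, abs_prod, sq]
        exact mul_le_mul_of_nonneg_right
          (mul_le_mul (hc ρ) (hc ρ') (abs_nonneg _) ((abs_nonneg _).trans (hc ρ)))
          (prod_nonneg fun P _ => abs_nonneg _)
    _ = cm ^ 2 * ∏ P, ∑ b : Option ι, ∑ b' : Option ι, ∑ s : Option ι,
        |gm (ps z) P b b' s| * s.elim 1 (fun _ => (z P)⁻¹) := by
        rw [sum_comm, ← sum_prod_fun, mul_sum]
        refine sum_congr rfl fun ρ _ => ?_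
        rw [sum_comm, ← sum_prod_fun, mul_sum]
        refine sum_congr rfl fun ρ' _ => ?_
        rw [← sum_prod_fun, mul_sum]
    _ ≤ _ := by
        refine mul_le_mul_of_nonneg_left ?_ (sq_nonneg _)
        refine (prod_le_prod (fun P _ => ?_) fun P _ => loc (hz P)).trans
          ((prod_one_add_le _ fun P => ?_).trans (Real.exp_le_exp.2 ?_))
        · exact sum_nonneg fun _ _ => sum_nonneg fun _ _ => sum_nonneg fun _ _ =>
            mul_nonneg (abs_nonneg _) (hw P _)
        · have := h0 P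
          positivity
        · rw [← mul_sum]
          exact mul_le_mul_of_nonneg_left hΛ (by positivity)

end Pool.Agent.P.MP_e94e4b_nt.MT
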