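import Pool.Agent.P.MP_e94e4b_nt.MT.IfA

/-! Step SUB. -/

namespace Pool.Agent.P.MP_e94e4b_nt.MT

open Finset
open scoped Classical

namespace SUBc

theorem inj {α : Type} (S : Finset α) :
    Function.Injective (fun e : Finset α => (e ∩ S, e \ S)) := by
  intro e e' h
  have h1 : e ∩ S = e' ∩ S := congrArg Prod.fst h
  have h2 : e \ S = e' \ S := congrArg Prod.snd h
  rw [← sdiff_union_inter e S, ← sdiff_union_inter e' S, h1, h2]

end SUBc

theorem p_SUB :
    S_SUB := by
  intro α _ δ z g S hz hg hg0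
  have e1 : ∏ P ∈ S, (1 + (z P)⁻¹) = ∑ e ∈ S.powerset, uz z e := prod_one_add S
  rw [e1, sum_mul_sum, ← sum_product']
  have h1 : U1 δ z g ≤ ∑ e : Finset α,
      (fun q : Finset α × Finset α => uz z q.1 * (g (ds δ q.2) * uz z q.2)) (e ∩ S, e \ S) := by
    refine sum_le_sum fun e _ => ?_
    have a : uz z e = uz z (e \ S) * uz z (e ∩ S) := by
      rw [← uz_union z (disjoint_sdiff_inter e S), sdiff_union_inter]
    have b : g (ds δ e) ≤ g (ds δ (e \ S)) := hg (ds_mono δ sdiff_subset)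
    have c := mul_le_mul_of_nonneg_right b (uz_pos hz e).le
    rw [a] at c ⊢
    simp only
    linarith
  refine h1.trans ?_
  rw [← sum_image (s := univ) (g := fun e : Finset α => (e ∩ S, e \ S))
    (f := fun q : Finset α × Finset α => uz z q.1 * (g (ds δ q.2) * uz z q.2))
    fun a _ b _ h => SUBc.inj S h]
  refine sum_le_sum_of_subset_of_nonneg (fun q hq => ?_) fun q _ _ =>
    mul_nonneg (uz_pos hz _).le (mul_nonneg (hg0 _) (uz_pos hz _).le)
  obtain ⟨e, -, rfl⟩ := mem_image.1 hq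
  refine mem_product.2 ⟨mem_powerset.2 inter_subset_right, mem_powerset.2 fun P hP => ?_⟩
  exact mem_compl.2 (mem_sdiff.1 hP).2

end Pool.Agent.P.MP_e94e4b_nt.MT
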