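import Pool.Agent.P.MP_e94e4b_nt.MT.IfA

/-! Step TEN. -/

namespace Pool.Agent.P.MP_e94e4b_nt.MT

open Finset
open scoped Classical

namespace TENc

theorem sum_cons {β : Type} [Fintype β] {n : ℕ} (f : (Fin (n + 1) → β) → ℝ) :
    ∑ x, f x = ∑ b, ∑ y : Fin n → β, f (Fin.cons b y) := by
  rw [← (Fin.consEquiv fun _ : Fin (n + 1) => β).sum_comp, Fintype.sum_prod_type]
  rfl

theorem fin {β : Type} [Fintype β] (s : ℝ) (n : ℕ) : ∀ (π d : Fin n → β → ℝ)
    (φ : Fin n → β → β → ℝ), (∀ P x, 0 ≤ π P x) → (∀ P b, 0 ≤ d P b) →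
    (∀ P (v : β → ℝ), s * ∑ x, π P x * (∑ b, v b * φ P b x) ^ 2 ≤ s * ∑ b, d P b * v b ^ 2) →
    ∀ c : (Fin n → β) → ℝ,
      s * ∑ x : Fin n → β, (∏ P, π P (x P)) * (∑ ρ : Fin n → β, c ρ * ∏ P, φ P (ρ P) (x P)) ^ 2 ≤
      s * ∑ ρ : Fin n → β, c ρ ^ 2 * ∏ P, d P (ρ P) := by
  induction n with
  | zero => intro π d φ _ _ _ c; simp
  | succ n ih =>
    intro π d φ hπ hd h c
    let v : (Fin n → β) → β → ℝ := fun y b =>
      ∑ ρ : Fin n → β, c (Fin.cons b ρ) * ∏ P : Fin n, φ P.succ (ρ P) (y P)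
    let w : (Fin n → β) → ℝ := fun y => ∏ P : Fin n, π P.succ (y P)
    have hw : ∀ y, 0 ≤ w y := fun y => prod_nonneg fun P _ => hπ _ _
    have e1 : s * ∑ x : Fin (n + 1) → β, (∏ P, π P (x P)) *
        (∑ ρ : Fin (n + 1) → β, c ρ * ∏ P, φ P (ρ P) (x P)) ^ 2 =
        ∑ y, w y * (s * ∑ x, π 0 x * (∑ b, v y b * φ 0 b x) ^ 2) := by
      rw [sum_cons, sum_comm, mul_sum]
      refine sum_congr rfl fun y _ => ?_
      rw [mul_left_comm (w y), mul_sum _ _ (w y)]
      congr 1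
      refine sum_congr rfl fun x _ => ?_
      rw [sum_cons]
      simp only [Fin.prod_univ_succ, Fin.cons_zero, Fin.cons_succ, v, w, sum_mul]
      rw [mul_left_comm, mul_assoc]
      congr 3
      exact sum_congr rfl fun b _ => sum_congr rfl fun ρ _ => by ring
    have e2 : s * ∑ ρ : Fin (n + 1) → β, c ρ ^ 2 * ∏ P, d P (ρ P) = ∑ b, d 0 b *
        (s * ∑ ρ : Fin n → β, c (Fin.cons b ρ) ^ 2 * ∏ P : Fin n, d P.succ (ρ P)) := by
      rw [sum_cons, mul_sum]
      refine sum_congr rfl fun b _ => ?_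
      simp only [Fin.prod_univ_succ, Fin.cons_zero, Fin.cons_succ, mul_sum]
      exact sum_congr rfl fun ρ _ => by ring
    have e3 : ∑ y, w y * (s * ∑ b, d 0 b * v y b ^ 2) =
        ∑ b, d 0 b * (s * ∑ y, w y * v y b ^ 2) := by
      simp only [mul_sum]
      rw [sum_comm]
      exact sum_congr rfl fun b _ => sum_congr rfl fun y _ => by ring
    rw [e1, e2]
    refine (sum_le_sum fun y _ => mul_le_mul_of_nonneg_left (h 0 (v y)) (hw y)).trans ?_
    rw [e3]
    exact sum_le_sum fun b _ => mul_le_mul_of_nonneg_left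
      (ih (fun P => π P.succ) (fun P => d P.succ) (fun P => φ P.succ) (fun _ _ => hπ _ _)
        (fun _ _ => hd _ _) (fun P => h _) fun ρ => c (Fin.cons b ρ)) (hd _ _)

end TENc

theorem p_TEN :
    S_TEN := by
  intro ι _ s α _ π d φ hπ hd h c
  let e := (Fintype.equivFin α).symm
  let E : (Fin (Fintype.card α) → Option ι) ≃ (α → Option ι) := e.arrowCongr (Equiv.refl _)
  have hE : ∀ x P, E x (e P) = x P := fun x P => by simp [E]
  have := TENc.fin s _ (fun P => π (e P)) (fun P => d (e P)) (fun P => φ (e P))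
    (fun _ _ => hπ _ _) (fun _ _ => hd _ _) (fun P => h _) fun ρ => c (E ρ)
  unfold EX LC
  simp only [← E.sum_comp, ← e.prod_comp, hE]
  exact this

end Pool.Agent.P.MP_e94e4b_nt.MT
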