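import Pool.Agent.P.MP_e94e4b_nt.MT.IfA

/-! Step UP. -/

namespace Pool.Agent.P.MP_e94e4b_nt.MT

open Finset
open scoped Classical

namespace UPc

end UPc

theorem p_UP (hTEN : S_TEN) (hK1 : S_K1) (hCA : S_CA) :
    S_UP := by
  intro α ι _ _ δ z g R σ h3 hc hσ h16
  have h0 : ∀ P, 0 < z P := fun P => by linarith [h3 P]
  have hd : ∀ P (b : Option ι), 0 ≤ d1 z P b := fun P b => by
    have := h0 P
    cases b <;> simp only [d1, Option.elim] <;> positivity
  have h1 := hTEN ι 1 α (ms (p0 z)) (d1 z) (ps z) (fun P x => ms_p0_nonneg (h0 P) (hc P) x) hd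
    (fun P v => by simpa using hK1 α ι z P v (h3 P)) (yc δ g R)
  rw [one_mul, one_mul] at h1
  refine h1.trans ((hCA α ι δ z g R σ h0 hσ).trans ?_)
  have hU : 0 ≤ U2 δ z g := sum_nonneg fun S _ => mul_nonneg (sq_nonneg _) (uz_pos h0 S).le
  refine mul_le_mul_of_nonneg_right ?_ (pow_nonneg hU _)
  calc Real.exp (3 * σ) ≤ Real.exp (1 / 2) := Real.exp_le_exp.2 (by linarith)
    _ ≤ 1 / (1 - 1 / 2) := Real.exp_bound_div_one_sub_of_interval (by norm_num) (by norm_num)
    _ = 2 := by norm_num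

end Pool.Agent.P.MP_e94e4b_nt.MT
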