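import Pool.Agent.P.MP_8be758_nt.L2.TXAB
import Pool.Agent.P.MP_e94e4b_nt.MT.TAP
import Pool.Agent.P.MP_e94e4b_nt.MT.Last
import Pool.Agent.P.MP_e94e4b_nt.MT.TEXI
import Pool.Agent.P.MP_e94e4b_nt.MT.TSQ1
import Pool.Agent.P.MP_e94e4b_nt.MT.TSQ2
import Pool.Agent.P.MP_e94e4b_nt.MT.TTEN
import Pool.Agent.P.MP_e94e4b_nt.MT.TK1
import Pool.Agent.P.MP_e94e4b_nt.MT.TK2
import Pool.Agent.P.MP_e94e4b_nt.MT.TM4
import Pool.Agent.P.MP_e94e4b_nt.MT.TFIB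
import Pool.Agent.P.MP_e94e4b_nt.MT.TF1
import Pool.Agent.P.MP_e94e4b_nt.MT.TBIJ
import Pool.Agent.P.MP_e94e4b_nt.MT.TCA
import Pool.Agent.P.MP_e94e4b_nt.MT.TSUB
import Pool.Agent.P.MP_e94e4b_nt.MT.TCD1
import Pool.Agent.P.MP_e94e4b_nt.MT.TPR1
import Pool.Agent.P.MP_e94e4b_nt.MT.TPR2
import Pool.Agent.P.MP_e94e4b_nt.MT.TPR
import Pool.Agent.P.MP_e94e4b_nt.MT.TMON
import Pool.Agent.P.MP_e94e4b_nt.MT.TCD2
import Pool.Agent.P.MP_e94e4b_nt.MT.TCD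
import Pool.Agent.P.MP_e94e4b_nt.MT.TGS
import Pool.Agent.P.MP_e94e4b_nt.MT.TGCH
import Pool.Agent.P.MP_e94e4b_nt.MT.TUP
import Pool.Agent.P.MP_e94e4b_nt.MT.TLO
import Pool.Agent.P.MP_e94e4b_nt.MT.TABS
import Pool.Agent.P.MP_e94e4b_nt.MT.TCNT
import Pool.Agent.P.MP_e94e4b_nt.MT.TMAXS
import Pool.Agent.P.MP_e94e4b_nt.MT.TNUM
import Pool.Agent.P.MP_e94e4b_nt.MT.TCRT
import Pool.Agent.P.MP_e94e4b_nt.MT.TCIND
import Pool.Agent.P.MP_e94e4b_nt.MT.TCW1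
import Pool.Agent.P.MP_e94e4b_nt.MT.TCWP
import Pool.Agent.P.MP_e94e4b_nt.MT.THS1
import Pool.Agent.P.MP_e94e4b_nt.MT.THS2
import Pool.Agent.P.MP_e94e4b_nt.MT.THS3
import Pool.Agent.P.MP_e94e4b_nt.MT.TCO0
import Pool.Agent.P.MP_e94e4b_nt.MT.TCO1
import Pool.Agent.P.MP_e94e4b_nt.MT.TCORE
import Pool.Agent.P.MP_e94e4b_nt.MT.TADM
import Pool.Agent.P.MP_e94e4b_nt.MT.TPIG
import Pool.Agent.P.MP_e94e4b_nt.MT.TSM
import Pool.Agent.P.MP_e94e4b_nt.MT.TFE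
import Pool.Agent.P.MP_e94e4b_nt.MT.TFD

/-! The steps put together. -/

namespace Pool.Agent.P.MP_e94e4b_nt.MT

open Pool.Agent.P.MP_8be758_nt

theorem t_EXI : S_EXI := p_EXI

theorem t_SQ1 : S_SQ1 := p_SQ1

theorem t_SQ2 : S_SQ2 := p_SQ2

theorem t_TEN : S_TEN := p_TEN

theorem t_K1 : S_K1 := p_K1

theorem t_K2 : S_K2 := p_K2

theorem t_M4 : S_M4 := p_M4

theorem t_FIB : S_FIB := p_FIB

theorem t_F1 : S_F1 := p_F1 t_FIB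

theorem t_BIJ : S_BIJ := p_BIJ

theorem t_CA : S_CA := p_CA t_BIJ

theorem t_SUB : S_SUB := p_SUB

theorem t_CD1 : S_CD1 := p_CD1 t_SUB

theorem t_PR1 : S_PR1 := p_PR1

theorem t_PR2 : S_PR2 := p_PR2

theorem t_PR : S_PR := p_PR t_PR1 t_PR2

theorem t_MON : S_MON := p_MON

theorem t_CD2 : S_CD2 := p_CD2 t_CD1

theorem t_CD : S_CD := p_CD t_BIJ t_CD2 t_PR t_MON

theorem t_GS : S_GS := p_GS

theorem t_GCH : S_GCH := p_GCH t_GS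

theorem t_UP : S_UP := p_UP t_TEN t_K1 t_CA

theorem t_LO : S_LO := p_LO t_TEN t_K2 t_F1

theorem t_ABS : S_ABS := p_ABS t_EXI t_SQ1 t_SQ2 t_M4 t_UP t_LO t_CD t_GS t_GCH

theorem t_CNT : S_CNT := p_CNT

theorem t_MAXS : S_MAXS := p_MAXS

theorem t_NUM : S_NUM := p_NUM

theorem t_AP : S_AP := p_AP

theorem t_CRT : S_CRT := p_CRT

theorem t_CIND : S_CIND := p_CIND t_CRT

theorem t_CW1 : S_CW1 := p_CW1 t_CRT

theorem t_CWP : S_CWP := p_CWP t_CW1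

theorem t_HS1 : S_HS1 := p_HS1 (L2.p_XAB (L2.p_BASE L2.p_BIJ) L2.p_REC L2.p_SEQ)

theorem t_HS2 : S_HS2 := p_HS2 L2.p_GAUSS

theorem t_HS3 : S_HS3 := p_HS3 t_HS1

theorem t_CO0 : S_CO0 := p_CO0 t_ABS t_HS2 t_HS3

theorem t_CO1 : S_CO1 := p_CO1 t_CO0 t_CNT t_CIND t_CWP

theorem t_CORE : S_CORE := p_CORE t_AP t_CO1 t_NUM

theorem t_ADM : S_ADM := p_ADM

theorem t_PIG : S_PIG := p_PIG

theorem t_SM : S_SM := p_SM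

theorem t_FE : S_FE := p_FE t_CORE t_ADM t_PIG

theorem t_FD : S_FD := p_FD t_FE t_SM t_MAXS

end Pool.Agent.P.MP_e94e4b_nt.MT
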