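import Pool.Agent.P.MP_e94e4b_nt.MT.Defs

/-! Basic facts on colourings. -/

namespace Pool.Agent.P.MP_e94e4b_nt.MT

open Finset
open scoped Classical

variable {α ι : Type} [Fintype α] [Fintype ι]

omit [Fintype ι] in
theorem mem_col {ρ : α → Option ι} {j : ι} {P : α} : P ∈ col ρ j ↔ ρ P = some j := by
  simp [col]

omit [Fintype ι] in
theorem mem_sp {ρ : α → Option ι} {P : α} : P ∈ sp ρ ↔ ρ P ≠ none := by simp [sp]

omit [Fintype ι] in
theorem notMem_sp {ρ : α → Option ι} {P : α} : P ∉ sp ρ ↔ ρ P = none := by simp [sp]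

omit [Fintype ι] in
theorem mem_sp' {ρ : α → Option ι} {P : α} : P ∈ sp ρ ↔ ∃ j, ρ P = some j := by
  rw [mem_sp, Option.ne_none_iff_exists']

omit [Fintype ι] in
theorem col_eq_empty {ρ : α → Option ι} {i : ι} : col ρ i = ∅ ↔ ∀ P, ρ P ≠ some i := by
  simp [col, filter_eq_empty_iff]

omit [Fintype ι] in
theorem dj_col (ρ : α → Option ι) : Dj (col ρ) := fun j j' h =>
  disjoint_left.2 fun P h1 h2 => h (by
    rw [mem_col] at h1 h2
    exact Option.some.inj (h1.symm.trans h2))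

theorem sp_eq_biUnion (ρ : α → Option ι) : sp ρ = univ.biUnion (col ρ) := by
  ext P
  simp [mem_sp', mem_col]

theorem prod_sp (ρ : α → Option ι) (f : α → ℝ) :
    ∏ P ∈ sp ρ, f P = ∏ j, ∏ P ∈ col ρ j, f P := by
  rw [sp_eq_biUnion, prod_biUnion fun j _ j' _ h => dj_col ρ j j' h]

theorem uz_sp (z : α → ℝ) (ρ : α → Option ι) : uz z (sp ρ) = ∏ j, uz z (col ρ j) :=
  prod_sp ρ _

theorem ds_sp (δ : α → ℕ) (ρ : α → Option ι) : ds δ (sp ρ) = ∑ j, ds δ (col ρ j) := by
  unfold ds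
  rw [sp_eq_biUnion, sum_biUnion fun j _ j' _ h => dj_col ρ j j' h]

theorem prod_split (ρ : α → Option ι) (F : α → Option ι → ℝ) :
    ∏ P, F P (ρ P) = (∏ P ∈ (sp ρ)ᶜ, F P none) * ∏ j, ∏ P ∈ col ρ j, F P (some j) := by
  rw [← prod_compl_mul_prod (sp ρ), prod_sp]
  congr 1
  · exact prod_congr rfl fun P hP => by rw [notMem_sp.1 (mem_compl.1 hP)]
  · exact prod_congr rfl fun j _ => prod_congr rfl fun P hP => by rw [mem_col.1 hP]

omit [Fintype α] in
theorem ds_mono (δ : α → ℕ) {S T : Finset α} (h : S ⊆ T) : ds δ S ≤ ds δ T :=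
  sum_le_sum_of_subset h

omit [Fintype α] in
theorem ds_union (δ : α → ℕ) {S T : Finset α} (h : Disjoint S T) :
    ds δ (S ∪ T) = ds δ S + ds δ T := sum_union h

omit [Fintype α] in
theorem ds_union_le (δ : α → ℕ) (S T : Finset α) : ds δ (S ∪ T) ≤ ds δ S + ds δ T := by
  have := sum_union_inter (s₁ := S) (s₂ := T) (f := δ)
  unfold ds
  omega

omit [Fintype α] in
theorem ds_empty (δ : α → ℕ) : ds δ ∅ = 0 := rfl

omit [Fintype α] in
theorem uz_empty (z : α → ℝ) : uz z ∅ = 1 := prod_empty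

omit [Fintype α] in
theorem uz_union (z : α → ℝ) {S T : Finset α} (h : Disjoint S T) :
    uz z (S ∪ T) = uz z S * uz z T := prod_union h

omit [Fintype α] in
theorem uz_pos {z : α → ℝ} (hz : ∀ P, 0 < z P) (S : Finset α) : 0 < uz z S :=
  prod_pos fun P _ => inv_pos.2 (hz P)

omit [Fintype ι] in
theorem col_pt_self {i : ι} {ρ : α → Option ι} (h : col ρ i = ∅) (e : Finset α) :
    col (pt i e ρ) i = e := by
  ext P
  have := col_eq_empty.1 h P
  by_cases hP : P ∈ e <;> simp [mem_col, pt, hP, this]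

omit [Fintype ι] in
theorem col_pt_ne {i j : ι} {ρ : α → Option ι} {e : Finset α} (he : e ⊆ (sp ρ)ᶜ) (h : j ≠ i) :
    col (pt i e ρ) j = col ρ j := by
  ext P
  by_cases hP : P ∈ e
  · have := notMem_sp.1 (mem_compl.1 (he hP))
    simp [mem_col, pt, hP, this, h.symm]
  · simp [mem_col, pt, hP]

omit [Fintype ι] in
theorem sp_pt (i : ι) (e : Finset α) (ρ : α → Option ι) : sp (pt i e ρ) = sp ρ ∪ e := by
  ext P
  by_cases hP : P ∈ e <;> simp [mem_sp, pt, hP]

omit [Fintype ι] in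
theorem disjoint_of_subset_compl {ρ : α → Option ι} {e : Finset α} (he : e ⊆ (sp ρ)ᶜ) :
    Disjoint (sp ρ) e := disjoint_right.2 fun _ h => mem_compl.1 (he h)

/-- sums of products over all functions -/
theorem sum_prod_fun {β γ : Type} [Fintype β] [Fintype γ] (f : β → γ → ℝ) :
    ∑ x : β → γ, ∏ P, f P (x P) = ∏ P, ∑ b, f P b := by
  rw [prod_univ_sum, Fintype.piFinset_univ]

/-- the mean value of a product function -/
theorem EX_prod (π f : α → Option ι → ℝ) :
    EX π (fun x => ∏ P, f P (x P)) = ∏ P, ∑ b, π P b * f P b := by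
  rw [← sum_prod_fun]
  exact sum_congr rfl fun x _ => prod_mul_distrib.symm

theorem EX_sum {β : Type} (π : α → Option ι → ℝ) (s : Finset β) (c : β → ℝ)
    (f : β → (α → Option ι) → ℝ) :
    EX π (fun x => ∑ b ∈ s, c b * f b x) = ∑ b ∈ s, c b * EX π (f b) := by
  unfold EX
  simp only [mul_sum]
  rw [sum_comm]
  exact sum_congr rfl fun _ _ => sum_congr rfl fun _ _ => by ring

theorem EX_mono {π : α → Option ι → ℝ} (hπ : ∀ P x, 0 ≤ π P x) {f g : (α → Option ι) → ℝ}
    (h : ∀ x, f x ≤ g x) : EX π f ≤ EX π g :=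
  sum_le_sum fun x _ => mul_le_mul_of_nonneg_left (h x) (prod_nonneg fun P _ => hπ P _)

omit [Fintype α] in
theorem sum_ms (p : α → ι → ℝ) (P : α) : ∑ x, ms p P x = 1 := by
  rw [Fintype.sum_option]
  simp [ms]

omit [Fintype α] in
theorem ms_p0_nonneg {z : α → ℝ} {P : α} (h0 : 0 < z P) (h : (Fintype.card ι : ℝ) ≤ z P)
    (x : Option ι) : 0 ≤ ms (p0 z) P x := by
  cases x with
  | none =>
    simp only [ms, p0, Option.elim, sum_const, card_univ, nsmul_eq_mul, sub_nonneg]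
    rw [← div_eq_mul_inv, div_le_one h0]
    exact h
  | some j => exact (inv_pos.2 h0).le

omit [Fintype α] in
theorem ms_p1_nonneg (i : ι) {z : α → ℝ} {P : α} (h : (Fintype.card ι : ℝ) + 1 ≤ z P)
    (x : Option ι) : 0 ≤ ms (p1 i z) P x := by
  have h1 : (1 : ℝ) ≤ Fintype.card ι := by
    exact_mod_cast Fintype.card_pos_iff.2 ⟨i⟩
  have h0 : 0 < z P - 1 := by linarith
  have h2 : ∀ j, p1 i z P j ≤ (z P - 1)⁻¹ ∧ 0 ≤ p1 i z P j := fun j => by
    unfold p1
    split_ifs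
    · exact ⟨(inv_pos.2 h0).le, le_rfl⟩
    · exact ⟨le_rfl, (inv_pos.2 h0).le⟩
  cases x with
  | none =>
    simp only [ms, Option.elim, sub_nonneg]
    refine (sum_le_card_nsmul _ _ _ fun j _ => (h2 j).1).trans ?_
    rw [card_univ, nsmul_eq_mul, ← div_eq_mul_inv, div_le_one h0]
    linarith
  | some j => exact (h2 j).2

omit [Fintype α] in
/-- products of `1 + f` against the exponential -/
theorem prod_one_add_le (s : Finset α) {f : α → ℝ} (hf : ∀ P, 0 ≤ f P) :
    ∏ P ∈ s, (1 + f P) ≤ Real.exp (∑ P ∈ s, f P) := by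
  rw [Real.exp_sum]
  exact prod_le_prod (fun P _ => by linarith [hf P]) fun P _ => by
    linarith [Real.add_one_le_exp (f P)]

end Pool.Agent.P.MP_e94e4b_nt.MT
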