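import Mathlib

/-! Definitions for the multidimensional sieve on a finite set of coloured points. A state (or a
colouring) gives each point of `α` either no colour or one colour of `ι`. -/

namespace Pool.Agent.P.MP_e94e4b_nt.MT

open Finset
open scoped Classical

variable {α ι : Type} [Fintype α] [Fintype ι]

/-- the points of colour `j` -/
noncomputable def col (ρ : α → Option ι) (j : ι) : Finset α :=
  univ.filter (fun P => ρ P = some j)

/-- the coloured points -/
noncomputable def sp (ρ : α → Option ι) : Finset α := univ.filter (fun P => ρ P ≠ none)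

/-- the total degree -/
def ds (δ : α → ℕ) (S : Finset α) : ℕ := ∑ P ∈ S, δ P

/-- the inverse of the norm -/
noncomputable def uz (z : α → ℝ) (S : Finset α) : ℝ := ∏ P ∈ S, (z P)⁻¹

/-- the mean value for a product measure -/
noncomputable def EX (π : α → Option ι → ℝ) (f : (α → Option ι) → ℝ) : ℝ :=
  ∑ x : α → Option ι, (∏ P, π P (x P)) * f x

/-- a linear combination of product functions -/
noncomputable def LC (c : (α → Option ι) → ℝ) (φ : α → Option ι → Option ι → ℝ)
    (x : α → Option ι) : ℝ :=
  ∑ ρ : α → Option ι, c ρ * ∏ P, φ P (ρ P) (x P)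

/-- the indicator functions -/
noncomputable def ib (_ : α) (b x : Option ι) : ℝ := if b = none ∨ x = b then 1 else 0

/-- the measure with the masses `p P j` at the colours -/
noncomputable def ms (p : α → ι → ℝ) (P : α) (x : Option ι) : ℝ :=
  x.elim (1 - ∑ j, p P j) (p P)

/-- the mass of the states that extend `σ` -/
noncomputable def pw (p : α → ι → ℝ) (σ : α → Option ι) : ℝ := ∏ P, (σ P).elim 1 (p P)

/-- the coefficients of a product of two local functions in terms of indicators -/
noncomputable def gm (φ : α → Option ι → Option ι → ℝ) (P : α) (b b' s : Option ι) : ℝ :=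
  s.elim (φ P b none * φ P b' none)
    (fun j => φ P b (some j) * φ P b' (some j) - φ P b none * φ P b' none)

/-- the coefficients of a square in terms of indicators -/
noncomputable def o2 (c : (α → Option ι) → ℝ) (φ : α → Option ι → Option ι → ℝ)
    (σ : α → Option ι) : ℝ :=
  ∑ ρ : α → Option ι, ∑ ρ' : α → Option ι, c ρ * c ρ' * ∏ P, gm φ P (ρ P) (ρ' P) (σ P)

/-- the coefficients have level at most `L` -/
def Lv (δ : α → ℕ) (L : ℕ) (c : (α → Option ι) → ℝ) : Prop :=
  ∀ ρ, c ρ ≠ 0 → ds δ (sp ρ) ≤ L

/-- the masses of the basic measure -/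
noncomputable def p0 (z : α → ℝ) (P : α) (_ : ι) : ℝ := (z P)⁻¹

/-- the masses conditioned on the absence of the colour `i` -/
noncomputable def p1 (i : ι) (z : α → ℝ) (P : α) (j : ι) : ℝ :=
  if j = i then 0 else (z P - 1)⁻¹

/-- the local functions of the sieve -/
noncomputable def ps (z : α → ℝ) (P : α) (b x : Option ι) : ℝ :=
  b.elim 1 (fun j => (1 - (z P - 1) * (if x = some j then 1 else 0)) / z P)

/-- the same without the colour `i` -/
noncomputable def ch (i : ι) (z : α → ℝ) (P : α) (b x : Option ι) : ℝ :=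
  if b = some i then 0 else ps z P b x

/-- the diagonal form of the upper bound -/
noncomputable def d1 (z : α → ℝ) (P : α) (b : Option ι) : ℝ :=
  b.elim (1 + 3 / z P ^ 2) (fun _ => (z P)⁻¹)

/-- the diagonal form of the lower bound -/
noncomputable def d2 (i : ι) (z : α → ℝ) (P : α) (b : Option ι) : ℝ :=
  b.elim 1 (fun j => if j = i then 0 else (z P - Fintype.card ι) / z P ^ 2)

/-- the coefficients of the sieve -/
noncomputable def yc (δ : α → ℕ) (g : ℕ → ℝ) (R : ℕ) (ρ : α → Option ι) : ℝ :=
  if ds δ (sp ρ) ≤ R then ∏ j, g (ds δ (col ρ j)) else 0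

/-- paint the points of `e` with the colour `i` -/
noncomputable def pt (i : ι) (e : Finset α) (ρ : α → Option ι) : α → Option ι :=
  fun P => if P ∈ e then some i else ρ P

/-- the coefficients after the removal of the colour `i` -/
noncomputable def Yc (δ : α → ℕ) (z : α → ℝ) (g : ℕ → ℝ) (R : ℕ) (i : ι)
    (ρ : α → Option ι) : ℝ :=
  if col ρ i = ∅ then ∑ e ∈ (sp ρ)ᶜ.powerset, yc δ g R (pt i e ρ) * uz z e else 0

/-- the first moment of the test function -/
noncomputable def U1 (δ : α → ℕ) (z : α → ℝ) (g : ℕ → ℝ) : ℝ :=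
  ∑ S : Finset α, g (ds δ S) * uz z S

/-- the second moment of the test function -/
noncomputable def U2 (δ : α → ℕ) (z : α → ℝ) (g : ℕ → ℝ) : ℝ :=
  ∑ S : Finset α, g (ds δ S) ^ 2 * uz z S

/-- the second moment weighted by the degree -/
noncomputable def U3 (δ : α → ℕ) (z : α → ℝ) (g : ℕ → ℝ) : ℝ :=
  ∑ S : Finset α, (ds δ S : ℝ) * (g (ds δ S) ^ 2 * uz z S)

/-- the mass of the sets of degree at most `x` -/
noncomputable def HH (δ : α → ℕ) (z : α → ℝ) (x : ℕ) : ℝ :=
  ∑ S ∈ univ.filter (fun S : Finset α => ds δ S ≤ x), uz z S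

/-- the test function -/
noncomputable def gs (m B d : ℕ) : ℝ :=
  ∑ s ∈ range m, if d ≤ B * 2 ^ s then (1 / 2 : ℝ) ^ s else 0

/-- pairwise disjoint sets -/
def Dj (r : ι → Finset α) : Prop := ∀ j j', j ≠ j' → Disjoint (r j) (r j')

end Pool.Agent.P.MP_e94e4b_nt.MT
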