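import Pool.Agent.P.MP_e94e4b_nt.MT.IfA
import Pool.Agent.P.MP_8be758_nt.L3.Defs

/-! Definitions for prime tuples in a window at a square. -/

namespace Pool.Agent.P.MP_e94e4b_nt.MT

open Polynomial Finset
open Pool.Agent.P.MP_8be758_nt Pool.Agent.P.MP_8be758_nt.C2 Pool.Agent.P.MP_8be758_nt.L2
open scoped Classical

variable {k : Type} [Field k] {α ι : Type}

/-- the window: `N` is monic of degree `ν` and `m` is within `ν / κ` of `ν` -/
def Wn (N : k[X]) (m κ : ℕ) : Prop :=
  N.Monic ∧ N.natDegree ≤ m + N.natDegree / κ ∧ m ≤ N.natDegree + N.natDegree / κ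

/-- the number of primes of the window in the class `a` modulo `r` -/
noncomputable def PA [Finite k] (N : k[X]) (m : ℕ) (r a : k[X]) : ℝ :=
  (((low k m).filter (fun x => Irreducible (N ^ 2 + x) ∧ r ∣ N ^ 2 + x - a)).card : ℝ)

/-- the primes of the window are well distributed modulo squarefree moduli of degree `≤ μ` -/
def APb [Finite k] (N : k[X]) (m μ : ℕ) (err : ℝ) : Prop :=
  ∀ (S : Finset k[X]) (a : k[X]), (∀ P ∈ S, IsPr P) → dg S ≤ μ → IsCoprime a (pr S) →
    |2 * (N.natDegree : ℝ) * PA N m (pr S) a - qq k ^ m / qq k ^ dg S * eu (-1) S| ≤ err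

/-- `v` enumerates the set `T` -/
def En (v : α → k[X]) (T : Finset k[X]) : Prop :=
  Function.Injective v ∧ ∀ P, P ∈ T ↔ ∃ a, v a = P

/-- the degrees -/
noncomputable def dv (v : α → k[X]) (P : α) : ℕ := (v P).natDegree

/-- the norms -/
noncomputable def zv (v : α → k[X]) (P : α) : ℝ := qq k ^ (v P).natDegree

/-- the state of `x`: the prime `v P` has the colour `j` if it divides `F + x + c j` -/
noncomputable def XS (v : α → k[X]) (c : ι → k[X]) (F x : k[X]) : α → Option ι :=
  fun P => if h : ∃ j, v P ∣ F + x + c j then some (Classical.choose h) else none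

/-- the setting of the sieve -/
structure Sv (v : α → k[X]) (c : ι → k[X]) (W : Finset k[X]) (F x0 : k[X]) : Prop where
  inj : Function.Injective v
  pv : ∀ P, IsPr (v P)
  nw : ∀ P, v P ∉ W
  pW : ∀ P ∈ W, IsPr P
  sep : ∀ P i j, v P ∣ c i - c j → i = j
  cop : ∀ j, IsCoprime (F + x0 + c j) (pr W)

/-- the `x` of the window for which at least `r` of the values are prime -/
noncomputable def GD [Finite k] [Fintype ι] (r : ℕ) (F : k[X]) (m : ℕ) (c : ι → k[X]) :
    Finset k[X] :=
  (low k m).filter (fun x => r ≤ (univ.filter (fun j => Irreducible (F + x + c j))).card)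

/-- the number of prime pairs of the window with difference `y` -/
noncomputable def TP [Finite k] (F : k[X]) (m : ℕ) (y : k[X]) : ℕ :=
  ((low k m).filter (fun x => Irreducible (F + x) ∧ Irreducible (F + x + y))).card

theorem Sv.xs_iff {v : α → k[X]} {c : ι → k[X]} {W : Finset k[X]} {F x0 : k[X]}
    (h : Sv v c W F x0) (x : k[X]) (P : α) (j : ι) :
    XS v c F x P = some j ↔ v P ∣ F + x + c j := by
  unfold XS
  split_ifs with h1
  · have h2 := Classical.choose_spec h1
    refine ⟨fun e => Option.some.inj e ▸ h2, fun e => congrArg some (h.sep P _ _ ?_)⟩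
    have := dvd_sub h2 e
    rwa [add_sub_add_left_eq_sub] at this
  · exact ⟨fun e => by simp at e, fun e => absurd ⟨j, e⟩ h1⟩

theorem dg_image {v : α → k[X]} (h : Function.Injective v) (S : Finset α) :
    dg (S.image v) = ds (dv v) S := sum_image fun _ _ _ _ e => h e

theorem uz_zv [Finite k] (v : α → k[X]) (S : Finset α) :
    uz (zv v) S = 1 / qq k ^ ds (dv v) S := by
  unfold uz zv ds dv
  rw [prod_inv_distrib, prod_pow_eq_pow_sum, one_div]

theorem Wn.mono {N : k[X]} {m κ κ' : ℕ} (h : Wn N m κ') (h0 : 1 ≤ κ) (hκ : κ ≤ κ') :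
    Wn N m κ := by
  have := Nat.div_le_div_left (a := N.natDegree) hκ h0
  exact ⟨h.1, by have := h.2.1; omega, by have := h.2.2; omega⟩

end Pool.Agent.P.MP_e94e4b_nt.MT
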