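import Pool.Agent.P.MP_e94e4b_nt.MT.Basic

/-! The steps of the abstract sieve, as statements. -/

namespace Pool.Agent.P.MP_e94e4b_nt.MT

open Finset
open scoped Classical

-- deps:
def S_EXI : Prop :=
  ∀ (α ι : Type) [Fintype α] [Fintype ι] (p : α → ι → ℝ) (ω : (α → Option ι) → ℝ),
    EX (ms p) (LC ω ib) = ∑ σ : α → Option ι, ω σ * pw p σ

-- deps:
def S_SQ1 : Prop :=
  ∀ (α ι : Type) [Fintype α] [Fintype ι] (c : (α → Option ι) → ℝ)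
    (φ : α → Option ι → Option ι → ℝ), (∀ P x, φ P none x = 1) →
    (∀ x, LC c φ x ^ 2 = LC (o2 c φ) ib x) ∧
      ∀ (δ : α → ℕ) (L : ℕ), Lv δ L c → Lv δ (2 * L) (o2 c φ)

-- deps:
def S_SQ2 : Prop :=
  ∀ (α ι : Type) [Fintype α] [Fintype ι] (z : α → ℝ) (c : (α → Option ι) → ℝ) (cm Λ : ℝ),
    (∀ P, 1 ≤ z P) → ∑ P, (z P)⁻¹ ≤ Λ → (∀ ρ, |c ρ| ≤ cm) →
    ∑ σ : α → Option ι, |o2 c (ps z) σ| * uz z (sp σ) ≤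
      cm ^ 2 * Real.exp (2 * ((Fintype.card ι : ℝ) + 1) ^ 3 * Λ)

-- deps:
def S_TEN : Prop :=
  ∀ (ι : Type) [Fintype ι] (s : ℝ) (α : Type) [Fintype α] (π d : α → Option ι → ℝ)
    (φ : α → Option ι → Option ι → ℝ), (∀ P x, 0 ≤ π P x) → (∀ P b, 0 ≤ d P b) →
    (∀ P (v : Option ι → ℝ),
      s * ∑ x, π P x * (∑ b, v b * φ P b x) ^ 2 ≤ s * ∑ b, d P b * v b ^ 2) →
    ∀ c : (α → Option ι) → ℝ, s * EX π (fun x => LC c φ x ^ 2) ≤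
      s * ∑ ρ : α → Option ι, c ρ ^ 2 * ∏ P, d P (ρ P)

-- deps:
def S_K1 : Prop :=
  ∀ (α ι : Type) [Fintype ι] (z : α → ℝ) (P : α) (v : Option ι → ℝ), 3 ≤ z P →
    ∑ x, ms (p0 z) P x * (∑ b, v b * ps z P b x) ^ 2 ≤ ∑ b, d1 z P b * v b ^ 2

-- deps:
def S_K2 : Prop :=
  ∀ (α ι : Type) [Fintype ι] (i : ι) (z : α → ℝ) (P : α) (v : Option ι → ℝ), 2 ≤ z P →
    ∑ b, d2 i z P b * v b ^ 2 ≤ ∑ x, ms (p1 i z) P x * (∑ b, v b * ch i z P b x) ^ 2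

-- deps:
def S_M4 : Prop :=
  ∀ (α ι : Type) [Fintype α] [Fintype ι] (z : α → ℝ) (c : (α → Option ι) → ℝ) (cm Λ : ℝ),
    (∀ P, 1 ≤ z P) → (∀ P, (Fintype.card ι : ℝ) ≤ z P) → ∑ P, (z P)⁻¹ ≤ Λ →
    (∀ ρ, |c ρ| ≤ cm) →
    EX (ms (p0 z)) (fun x => LC c (ps z) x ^ 4) ≤
      cm ^ 4 * Real.exp (20 * (Fintype.card ι : ℝ) * Λ)

-- deps:
def S_FIB : Prop :=
  ∀ (α ι : Type) [Fintype α] [Fintype ι] (i : ι) (Φ : (α → Option ι) → ℝ),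
    ∑ ρ : α → Option ι, Φ ρ = ∑ ρ ∈ univ.filter (fun ρ : α → Option ι => col ρ i = ∅),
      ∑ e ∈ (sp ρ)ᶜ.powerset, Φ (pt i e ρ)

-- deps: FIB
def S_F1 : Prop :=
  ∀ (α ι : Type) [Fintype α] [Fintype ι] (δ : α → ℕ) (z : α → ℝ) (g : ℕ → ℝ) (R : ℕ) (i : ι)
    (x : α → Option ι), (∀ P, x P ≠ some i) →
    LC (yc δ g R) (ps z) x = LC (Yc δ z g R i) (ch i z) x

-- deps:
def S_BIJ : Prop :=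
  ∀ (α ι : Type) [Fintype α] [Fintype ι] (Φ : (ι → Finset α) → ℝ),
    ∑ ρ : α → Option ι, Φ (col ρ) = ∑ r ∈ univ.filter (fun r : ι → Finset α => Dj r), Φ r

-- deps: BIJ
def S_CA : Prop :=
  ∀ (α ι : Type) [Fintype α] [Fintype ι] (δ : α → ℕ) (z : α → ℝ) (g : ℕ → ℝ) (R : ℕ) (σ : ℝ),
    (∀ P, 0 < z P) → ∑ P, (z P ^ 2)⁻¹ ≤ σ →
    ∑ ρ : α → Option ι, yc δ g R ρ ^ 2 * ∏ P, d1 z P (ρ P) ≤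
      Real.exp (3 * σ) * U2 δ z g ^ Fintype.card ι

-- deps:
def S_SUB : Prop :=
  ∀ (α : Type) [Fintype α] (δ : α → ℕ) (z : α → ℝ) (g : ℕ → ℝ) (S : Finset α),
    (∀ P, 0 < z P) → Antitone g → (∀ d, 0 ≤ g d) →
    U1 δ z g ≤ (∏ P ∈ S, (1 + (z P)⁻¹)) * ∑ e ∈ Sᶜ.powerset, g (ds δ e) * uz z e

-- deps: SUB
def S_CD1 : Prop :=
  ∀ (α ι : Type) [Fintype α] [Fintype ι] (δ : α → ℕ) (z : α → ℝ) (g : ℕ → ℝ) (R T : ℕ) (i : ι)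
    (ρ : α → Option ι), (∀ P, 0 < z P) → Antitone g → (∀ d, 0 ≤ g d) →
    (∀ d, T < d → g d = 0) → col ρ i = ∅ → ds δ (sp ρ) + T ≤ R →
    U1 δ z g * ∏ j ∈ univ.erase i, g (ds δ (col ρ j)) ≤
      (∏ P ∈ sp ρ, (1 + (z P)⁻¹)) * Yc δ z g R i ρ

-- deps:
def S_PR1 : Prop :=
  ∀ (α ι : Type) [Fintype α] [Fintype ι] (δ : α → ℕ) (y : α → ℝ) (L : ℕ) (r : ι → Finset α),
    (∀ P, 0 ≤ y P ∧ y P ≤ 1) → 0 < L →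
    1 - (∑ j, ∑ j' ∈ univ.erase j, ∑ P, (if P ∈ r j then (1 : ℝ) else 0) *
        (if P ∈ r j' then (1 : ℝ) else 0)) - (∑ j, (ds δ (r j) : ℝ)) / L -
        ∑ j, ∑ P, (if P ∈ r j then (1 : ℝ) else 0) * y P ≤
      if Dj r ∧ ∑ j, ds δ (r j) ≤ L then ∏ j, ∏ P ∈ r j, (1 - y P) else 0

-- deps:
def S_PR2 : Prop :=
  ∀ (β ι : Type) [Fintype β] [Fintype ι] (w : ι → β → ℝ) (f f' : β → ℝ) (a a' : ℝ) (j j' : ι),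
    (∀ l b, 0 ≤ w l b) → (∀ b, 0 ≤ f b) → (∀ b, 0 ≤ f' b) → 0 ≤ a →
    ∑ b, w j b * f b ≤ (∑ b, w j b) * a →
    ∑ r : ι → β, (∏ l, w l (r l)) * f (r j) ≤ (∏ l, ∑ b, w l b) * a ∧
      (j ≠ j' → ∑ b, w j' b * f' b ≤ (∑ b, w j' b) * a' →
        ∑ r : ι → β, (∏ l, w l (r l)) * (f (r j) * f' (r j')) ≤ (∏ l, ∑ b, w l b) * (a * a'))

-- deps: PR1 PR2
def S_PR : Prop :=
  ∀ (α ι : Type) [Fintype α] [Fintype ι] (δ : α → ℕ) (z : α → ℝ) (w : ι → Finset α → ℝ)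
    (A σ μ : ℝ) (L : ℕ), (∀ P, 0 < z P) → 0 ≤ A → (∀ P, A ≤ z P) → 0 < L → 0 ≤ μ →
    ∑ P, (z P ^ 2)⁻¹ ≤ σ → (∀ j S, 0 ≤ w j S) →
    (∀ j P, ∑ S, w j S * (if P ∈ S then (1 : ℝ) else 0) ≤ (∑ S, w j S) * (z P)⁻¹) →
    (∀ j, ∑ S, w j S * (ds δ S : ℝ) ≤ (∑ S, w j S) * μ) →
    (∏ j, ∑ S, w j S) * (1 - (Fintype.card ι : ℝ) ^ 2 * σ - Fintype.card ι * μ / L -
        Fintype.card ι * A * σ) ≤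
      ∑ r ∈ univ.filter (fun r : ι → Finset α => Dj r ∧ ∑ j, ds δ (r j) ≤ L),
        ∏ j, (w j (r j) * ∏ P ∈ r j, (1 - A * (z P)⁻¹))

-- deps:
def S_MON : Prop :=
  ∀ (α : Type) [Fintype α] (δ : α → ℕ) (z : α → ℝ) (g : ℕ → ℝ) (P : α), (∀ P, 0 < z P) →
    Antitone g → (∀ d, 0 ≤ g d) →
    ∑ S : Finset α, g (ds δ S) ^ 2 * uz z S * (if P ∈ S then (1 : ℝ) else 0) ≤
      U2 δ z g * (z P)⁻¹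

-- deps: CD1
def S_CD2 : Prop :=
  ∀ (α ι : Type) [Fintype α] [Fintype ι] (δ : α → ℕ) (z : α → ℝ) (g : ℕ → ℝ) (T L : ℕ) (i : ι)
    (ρ : α → Option ι), (∀ P, (Fintype.card ι : ℝ) + 2 ≤ z P) → Antitone g → (∀ d, 0 ≤ g d) →
    (∀ d, T < d → g d = 0) → ∑ j, ds δ (col ρ j) ≤ L →
    U1 δ z g ^ 2 * ∏ j, ((if j = i then (if col ρ j = ∅ then (1 : ℝ) else 0)
        else g (ds δ (col ρ j)) ^ 2 * uz z (col ρ j)) *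
        ∏ P ∈ col ρ j, (1 - ((Fintype.card ι : ℝ) + 2) * (z P)⁻¹)) ≤
      Yc δ z g (L + T) i ρ ^ 2 * ∏ P, d2 i z P (ρ P)

-- deps: BIJ CD2 PR MON
def S_CD : Prop :=
  ∀ (α ι : Type) [Fintype α] [Fintype ι] (δ : α → ℕ) (z : α → ℝ) (g : ℕ → ℝ) (T L : ℕ) (i : ι)
    (σ : ℝ), (∀ P, (Fintype.card ι : ℝ) + 2 ≤ z P) → Antitone g → (∀ d, 0 ≤ g d) →
    (∀ d, T < d → g d = 0) → ∑ P, (z P ^ 2)⁻¹ ≤ σ → 16 * (Fintype.card ι : ℝ) ^ 2 * σ ≤ 1 →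
    0 < L → 0 < U2 δ z g → 4 * (Fintype.card ι : ℝ) * U3 δ z g ≤ U2 δ z g * L →
    U1 δ z g ^ 2 * U2 δ z g ^ (Fintype.card ι - 1) / 2 ≤
      ∑ ρ : α → Option ι, Yc δ z g (L + T) i ρ ^ 2 * ∏ P, d2 i z P (ρ P)

-- deps:
def S_GS : Prop :=
  ∀ m B : ℕ, Antitone (gs m B) ∧ (∀ d, 0 ≤ gs m B d ∧ gs m B d ≤ 2) ∧
    (∀ d, B * 2 ^ m < d → gs m B d = 0) ∧ (1 ≤ m → ∀ d, d ≤ B → 1 ≤ gs m B d) ∧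
    ∀ d, gs m B d ^ 2 ≤ 4 * ∑ s ∈ range m, if d ≤ B * 2 ^ s then (1 / 4 : ℝ) ^ s else 0

-- deps: GS
def S_GCH : Prop :=
  ∀ (α : Type) [Fintype α] (δ : α → ℕ) (z : α → ℝ) (m B : ℕ) (η : ℝ), (∀ P, 0 < z P) →
    1 ≤ m → 0 ≤ η →
    (∀ x : ℕ, B ≤ x → x ≤ B * 2 ^ m → η * x / 2 ≤ HH δ z x ∧ HH δ z x ≤ 2 * η * x) →
    m * η * B / 2 ≤ U1 δ z (gs m B) ∧ η * B / 2 ≤ U2 δ z (gs m B) ∧ 1 ≤ U2 δ z (gs m B) ∧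
      U2 δ z (gs m B) ≤ 16 * η * B ∧ U3 δ z (gs m B) ≤ 8 * m * η * (B : ℝ) ^ 2

-- deps: TEN K1 CA
def S_UP : Prop :=
  ∀ (α ι : Type) [Fintype α] [Fintype ι] (δ : α → ℕ) (z : α → ℝ) (g : ℕ → ℝ) (R : ℕ) (σ : ℝ),
    (∀ P, 3 ≤ z P) → (∀ P, (Fintype.card ι : ℝ) ≤ z P) → ∑ P, (z P ^ 2)⁻¹ ≤ σ → 16 * σ ≤ 1 →
    EX (ms (p0 z)) (fun x : α → Option ι => LC (yc δ g R) (ps z) x ^ 2) ≤
      2 * U2 δ z g ^ Fintype.card ι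

-- deps: TEN K2 F1
def S_LO : Prop :=
  ∀ (α ι : Type) [Fintype α] [Fintype ι] (δ : α → ℕ) (z : α → ℝ) (g : ℕ → ℝ) (R : ℕ) (i : ι),
    (∀ P, (Fintype.card ι : ℝ) + 1 ≤ z P) →
    ∑ ρ : α → Option ι, Yc δ z g R i ρ ^ 2 * ∏ P, d2 i z P (ρ P) ≤
      EX (ms (p1 i z)) (fun x => LC (yc δ g R) (ps z) x ^ 2)

-- deps: EXI SQ1 SQ2 M4 UP LO CD GS GCH
def S_ABS : Prop :=
  ∀ (α ι : Type) [Fintype α] [Fintype ι] (δ : α → ℕ) (z : α → ℝ) (m B t R : ℕ) (η σ Λ : ℝ),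
    Fintype.card ι = t → t = 2 ^ m → R = 65 * t * m * B → 1 ≤ m → 1 ≤ B → 0 < η →
    (∀ P, (t : ℝ) + 2 ≤ z P) → ∑ P, (z P ^ 2)⁻¹ ≤ σ → 16 * (t : ℝ) ^ 2 * σ ≤ 1 →
    ∑ P, (z P)⁻¹ ≤ Λ →
    (∀ x : ℕ, B ≤ x → x ≤ B * 2 ^ m → η * x / 2 ≤ HH δ z x ∧ HH δ z x ≤ 2 * η * x) →
    ∃ (ω ω' : (α → Option ι) → ℝ) (U : ℝ), 1 ≤ U ∧ Lv δ (2 * R) ω ∧ Lv δ (4 * R) ω' ∧
      (∀ x, 0 ≤ LC ω ib x) ∧ (∀ x, LC ω ib x ^ 2 = LC ω' ib x) ∧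
      ∑ s : α → Option ι, ω s * pw (p0 z) s ≤ U ∧
      ∑ s : α → Option ι, ω' s * pw (p0 z) s ≤ 16 ^ t * Real.exp (20 * (t : ℝ) * Λ) ∧
      ∑ s : α → Option ι, |ω s| * uz z (sp s) ≤ 4 ^ t * Real.exp (2 * ((t : ℝ) + 1) ^ 3 * Λ) ∧
      ∀ i, (m : ℝ) ^ 2 * η * B * U ≤ 256 * ∑ s : α → Option ι, ω s * pw (p1 i z) s

-- deps:
def S_CNT : Prop :=
  ∀ (β ι : Type) [Fintype ι] (H : Finset β) (W : β → ℝ) (p : ι → β → Prop) (U V A : ℝ) (r : ℕ),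
    (∀ h, 0 ≤ W h) → ∑ h ∈ H, W h ≤ H.card * U → ∑ h ∈ H, W h ^ 2 ≤ H.card * V →
    (∀ j, H.card * A ≤ ∑ h ∈ H.filter (p j), W h) → r * U ≤ Fintype.card ι * A → 1 ≤ U →
    1 ≤ r → (H.card : ℝ) ≤ (Fintype.card ι : ℝ) ^ 2 * V *
      (H.filter (fun h => r ≤ (univ.filter (fun j => p j h)).card)).card

-- deps:
def S_MAXS : Prop :=
  ∀ (G : Type) [AddCommGroup G] [Finite G] (t : ℕ) (p : G → Prop), (∀ y, p (-y) → p y) →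
    (∀ b : Fin t → G, Function.Injective b → ∃ i j, i ≠ j ∧ p (b i - b j)) →
    Nat.card G ≤ t * (1 + Set.ncard {y | y ≠ 0 ∧ p y})

-- deps:
def S_NUM : Prop :=
  ∀ δ r : ℕ, 1 ≤ δ → ∃ m K : ℕ, 1 ≤ m ∧ ∀ D : ℕ, ∃ ν0 : ℕ, ∀ ν ≥ ν0, ∀ t : ℕ, t = 2 ^ m →
    ∃ B R : ℕ, R = 65 * t * m * B ∧ 8 * R + 4 * D + 4 ≤ ν / δ ∧ 64 * 8 ^ D ≤ B ∧
      1024 ≤ m ^ 2 * B ∧ 2048 * ν * r ≤ t * m ^ 2 * B ∧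
      4 ^ t * Real.exp (2 * ((t : ℝ) + 1) ^ 3 * (1 + Real.log (R + 1))) ≤ 2 ^ (ν / δ / 2) ∧
      (t : ℝ) ^ 2 * (16 ^ t * Real.exp (20 * (t : ℝ) * (1 + Real.log (R + 1)))) ≤ (ν : ℝ) ^ K

end Pool.Agent.P.MP_e94e4b_nt.MT
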