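import Pool.Agent.P.MP_e94e4b_nt.MT.DefsB

/-! The steps on prime tuples in a window at a square, as statements. -/

namespace Pool.Agent.P.MP_e94e4b_nt.MT

open Polynomial Finset
open Pool.Agent.P.MP_8be758_nt Pool.Agent.P.MP_8be758_nt.C2 Pool.Agent.P.MP_8be758_nt.L2
open scoped Classical

-- deps:
def S_AP : Prop :=
  ∃ κ δ ν0 : ℕ, 1 ≤ κ ∧ 1 ≤ δ ∧ ∀ (k : Type) [Field k] [Finite k] [CharP k 2] (N : k[X])
    (m : ℕ), ν0 ≤ N.natDegree → Wn N m κ →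
      APb N m (N.natDegree / δ) (qq k ^ m / qq k ^ (N.natDegree / δ))

-- deps:
def S_CRT : Prop :=
  ∀ (k : Type) [Field k] (α ι : Type) [Fintype α] [Fintype ι] (v : α → k[X]) (c : ι → k[X])
    (W : Finset k[X]) (F x0 : k[X]) (σ : α → Option ι), Sv v c W F x0 →
    ∃ r : k[X], pr W ∣ r - x0 ∧ (∀ P j, σ P = some j → v P ∣ F + r + c j) ∧
      ∀ x, (if pr W ∣ x - x0 then ∏ P, ib P (σ P) (XS v c F x P) else 0) =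
        if pr (W ∪ (sp σ).image v) ∣ x - r then 1 else 0

-- deps: CRT
def S_CIND : Prop :=
  ∀ (k : Type) [Field k] [Finite k] (α ι : Type) [Fintype α] [Fintype ι] (v : α → k[X])
    (c : ι → k[X]) (W : Finset k[X]) (F x0 : k[X]) (ω : (α → Option ι) → ℝ) (L m : ℕ),
    Sv v c W F x0 → Lv (dv v) L ω → L + dg W ≤ m →
    ∑ x ∈ L3.Gx (pr W) x0 m, LC ω ib (XS v c F x) =
      qq k ^ m / qq k ^ dg W * ∑ σ : α → Option ι, ω σ * pw (p0 (zv v)) σ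

-- deps: CRT
def S_CW1 : Prop :=
  ∀ (k : Type) [Field k] [Finite k] (α ι : Type) [Fintype α] [Fintype ι] (v : α → k[X])
    (c : ι → k[X]) (W : Finset k[X]) (N x0 : k[X]) (σ : α → Option ι) (m μ : ℕ) (err : ℝ)
    (i : ι), Sv v c W (N ^ 2) x0 → ds (dv v) (sp σ) + dg W ≤ μ → APb N m μ err →
    c i ∈ low k m → col σ i = ∅ →
    |2 * (N.natDegree : ℝ) * ∑ x ∈ (L3.Gx (pr W) x0 m).filter
        (fun x => Irreducible (N ^ 2 + x + c i)), ∏ P, ib P (σ P) (XS v c (N ^ 2) x P) -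
      qq k ^ m / qq k ^ dg W * eu (-1) W * pw (p1 i (zv v)) σ| ≤ err

-- deps: CW1
def S_CWP : Prop :=
  ∀ (k : Type) [Field k] [Finite k] (α ι : Type) [Fintype α] [Fintype ι] (v : α → k[X])
    (c : ι → k[X]) (W : Finset k[X]) (N x0 : k[X]) (ω : (α → Option ι) → ℝ) (L m μ : ℕ)
    (err : ℝ) (i : ι), Sv v c W (N ^ 2) x0 → Lv (dv v) L ω → L + dg W ≤ μ → APb N m μ err →
    0 ≤ err → c i ∈ low k m → N.Monic → m ≤ 2 * N.natDegree →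
    (∀ P, (v P).natDegree < 2 * N.natDegree) →
    |2 * (N.natDegree : ℝ) * ∑ x ∈ (L3.Gx (pr W) x0 m).filter
        (fun x => Irreducible (N ^ 2 + x + c i)), LC ω ib (XS v c (N ^ 2) x) -
      qq k ^ m / qq k ^ dg W * eu (-1) W * ∑ σ : α → Option ι, ω σ * pw (p1 i (zv v)) σ| ≤
      err * qq k ^ L * ∑ σ : α → Option ι, |ω σ| * uz (zv v) (sp σ)

-- deps: L2.XAB
def S_HS1 : Prop :=
  ∀ (k : Type) [Field k] [Finite k] (α : Type) [Fintype α] (v : α → k[X]) (W : Finset k[X])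
    (E x : ℕ), En v (Pr k E \ W) → (∀ P ∈ W, IsPr P) → x ≤ E →
    |HH (dv v) (zv v) x - (1 - 1 / qq k) * eu 1 W * ((x : ℝ) + 1)| ≤ 4 * 4 ^ W.card

-- deps: L2.GAUSS
def S_HS2 : Prop :=
  ∀ (k : Type) [Field k] [Finite k] (α : Type) [Fintype α] (v : α → k[X]) (W : Finset k[X])
    (E D : ℕ), En v (Pr k E \ W) → Pr k D ⊆ W →
    (∀ P, IsPr (v P) ∧ v P ∉ W ∧ D < (v P).natDegree ∧ (v P).natDegree ≤ E) ∧
      ∑ P, (zv v P)⁻¹ ≤ 1 + Real.log (E + 1) ∧ ∑ P, (zv v P ^ 2)⁻¹ ≤ 2 / qq k ^ (D + 1)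

-- deps: HS1
def S_HS3 : Prop :=
  ∀ (k : Type) [Field k] [Finite k] (α : Type) [Fintype α] (v : α → k[X]) (W : Finset k[X])
    (E B : ℕ) (η : ℝ), En v (Pr k E \ W) → (∀ P ∈ W, IsPr P) → 64 * 8 ^ W.card ≤ B →
    η = (1 - 1 / qq k) * eu 1 W →
    0 < η ∧ 1 / 2 ≤ eu (-1) W * η ∧ ∀ x : ℕ, B ≤ x → x ≤ E →
      η * x / 2 ≤ HH (dv v) (zv v) x ∧ HH (dv v) (zv v) x ≤ 2 * η * x

-- deps: ABS HS2 HS3
def S_CO0 : Prop :=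
  ∀ (k : Type) [Field k] [Finite k] (ι : Type) [Fintype ι] (c : ι → k[X]) (W : Finset k[X])
    (F x0 : k[X]) (m1 B t R D : ℕ), Fintype.card ι = t → t = 2 ^ m1 → R = 65 * t * m1 * B →
    1 ≤ m1 → (∀ P ∈ W, IsPr P) → Pr k D ⊆ W → 32 * (t : ℝ) ^ 2 ≤ qq k ^ (D + 1) →
    (∀ P, IsPr P → P ∉ W → ∀ i j, P ∣ c i - c j → i = j) →
    (∀ j, IsCoprime (F + x0 + c j) (pr W)) → 64 * 8 ^ W.card ≤ B →
    ∃ (α : Type) (_ : Fintype α) (v : α → k[X]) (ω ω' : (α → Option ι) → ℝ) (U : ℝ),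
      Sv v c W F x0 ∧ (∀ P, (v P).natDegree ≤ R) ∧ 1 ≤ U ∧ Lv (dv v) (2 * R) ω ∧
      Lv (dv v) (4 * R) ω' ∧ (∀ x, 0 ≤ LC ω ib x) ∧ (∀ x, LC ω ib x ^ 2 = LC ω' ib x) ∧
      ∑ s : α → Option ι, ω s * pw (p0 (zv v)) s ≤ U ∧
      ∑ s : α → Option ι, ω' s * pw (p0 (zv v)) s ≤
        16 ^ t * Real.exp (20 * (t : ℝ) * (1 + Real.log (R + 1))) ∧
      ∑ s : α → Option ι, |ω s| * uz (zv v) (sp s) ≤
        4 ^ t * Real.exp (2 * ((t : ℝ) + 1) ^ 3 * (1 + Real.log (R + 1))) ∧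
      ∀ i, (m1 : ℝ) ^ 2 * B * U ≤
        512 * (eu (-1) W * ∑ s : α → Option ι, ω s * pw (p1 i (zv v)) s)

-- deps: CO0 CNT CIND CWP
def S_CO1 : Prop :=
  ∀ (k : Type) [Field k] [Finite k] (ι : Type) [Fintype ι] (c : ι → k[X]) (W : Finset k[X])
    (N x0 : k[X]) (m1 B t R D m μ r : ℕ) (err : ℝ), Fintype.card ι = t → t = 2 ^ m1 →
    R = 65 * t * m1 * B → 1 ≤ m1 → 1 ≤ r → (∀ P ∈ W, IsPr P) → Pr k D ⊆ W →
    32 * (t : ℝ) ^ 2 ≤ qq k ^ (D + 1) → (∀ P, IsPr P → P ∉ W → ∀ i j, P ∣ c i - c j → i = j) →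
    (∀ j, IsCoprime (N ^ 2 + x0 + c j) (pr W)) → 64 * 8 ^ W.card ≤ B → N.Monic →
    (∀ j, c j ∈ low k m) → m ≤ 2 * N.natDegree → R < 2 * N.natDegree → 4 * R + dg W ≤ m → 2 * R + dg W ≤ μ →
    APb N m μ err → 0 ≤ err →
    err * qq k ^ (2 * R) * (4 ^ t * Real.exp (2 * ((t : ℝ) + 1) ^ 3 * (1 + Real.log (R + 1)))) ≤
      qq k ^ m / qq k ^ dg W →
    1024 ≤ m1 ^ 2 * B → 2048 * N.natDegree * r ≤ t * m1 ^ 2 * B →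
    qq k ^ m / qq k ^ dg W ≤
      (t : ℝ) ^ 2 * (16 ^ t * Real.exp (20 * (t : ℝ) * (1 + Real.log (R + 1)))) *
        (GD r (N ^ 2) m c).card

-- deps: AP CO1 NUM
def S_CORE : Prop :=
  ∃ κ : ℕ, 4 ≤ κ ∧ ∀ r : ℕ, 1 ≤ r → ∃ t K : ℕ, 2 ≤ t ∧ ∀ Dw : ℕ, ∃ ν0 : ℕ,
    ∀ (k : Type) [Field k] [Finite k] [CharP k 2] (N x0 : k[X]) (m D : ℕ) (W : Finset k[X])
      (c : Fin t → k[X]), ν0 ≤ N.natDegree → Wn N m κ → (∀ P ∈ W, IsPr P) → dg W ≤ Dw →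
      Pr k D ⊆ W → 32 * (t : ℝ) ^ 2 ≤ qq k ^ (D + 1) →
      (∀ P, IsPr P → P ∉ W → ∀ i j, P ∣ c i - c j → i = j) →
      (∀ j, (c j).natDegree ≤ Dw) → (∀ j, IsCoprime (N ^ 2 + x0 + c j) (pr W)) →
      qq k ^ m ≤ qq k ^ dg W * (N.natDegree : ℝ) ^ K * (GD r (N ^ 2) m c).card

-- deps:
def S_ADM : Prop :=
  ∀ (k : Type) [Field k] (ι : Type) (c : ι → k[X]) (W : Finset k[X]) (F : k[X]),
    (∀ P ∈ W, IsPr P) → (∀ P : k[X], Irreducible P → ∃ y, ∀ j, ¬ P ∣ y + c j) →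
    ∃ x0, ∀ j, IsCoprime (F + x0 + c j) (pr W)

-- deps:
def S_PIG : Prop :=
  ∀ (k : Type) [Field k] [Finite k] (t : ℕ) (c : Fin t → k[X]) (F : k[X]) (m : ℕ), 2 ≤ t →
    (∀ j, c j ∈ low k m) → ∃ i j, i ≠ j ∧ (GD 2 F m c).card ≤ t ^ 2 * TP F m (c i - c j)

-- deps:
def S_SM : Prop :=
  ∀ A : ℕ, ∃ C : ℕ, ∀ (k : Type) [Field k] [Finite k], ∃ D : ℕ,
    A ≤ Nat.card k ^ (D + 1) ∧ Nat.card k ^ dg (Pr k D) ≤ C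

-- deps: CORE ADM PIG
def S_FE : Prop :=
  ∃ κ t K : ℕ, 4 ≤ κ ∧ 2 ≤ t ∧ ∀ D : ℕ, ∃ ν0 : ℕ, ∀ (k : Type) [Field k] [Finite k] [CharP k 2]
    (N : k[X]) (m D0 : ℕ) (y : Fin t → k[X]), ν0 ≤ N.natDegree → Wn N m κ →
    32 * t ^ 2 ≤ Nat.card k ^ (D0 + 1) → Function.Injective y →
    (∀ j, dg (Pr k D0) + (y j).natDegree ≤ D) → ∃ i j, i ≠ j ∧ Nat.card k ^ m ≤
      Nat.card k ^ (dg (Pr k D0) + t ^ 2 * D) * N.natDegree ^ K *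
        TP (N ^ 2) m ((pr (Pr k D0) * (y i - y j)) ^ 2)

-- deps: FE SM MAXS
def S_FD : Prop :=
  ∃ κ t K : ℕ, 1 ≤ κ ∧ ∀ D : ℕ, ∃ ν0 : ℕ, ∀ (k : Type) [Field k] [Finite k] [CharP k 2]
    (N : k[X]) (m : ℕ), ν0 ≤ N.natDegree → Wn N m κ →
    Nat.card k ^ (D + 1) ≤ t * (1 + Set.ncard {g : k[X] | g ≠ 0 ∧ g.natDegree ≤ D ∧
      Nat.card k ^ m ≤ Nat.card k ^ (t * D) * N.natDegree ^ K * TP (N ^ 2) m (g ^ 2)})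

end Pool.Agent.P.MP_e94e4b_nt.MT
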