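import Pool.Agent.P.MP_e94e4b_nt.MT.IfA

/-! Step CD. -/

namespace Pool.Agent.P.MP_e94e4b_nt.MT

open Finset
open scoped Classical

namespace CDc

variable {α ι : Type} [Fintype α] [Fintype ι]

/-- the weights -/
noncomputable def w (δ : α → ℕ) (z : α → ℝ) (g : ℕ → ℝ) (i j : ι) (S : Finset α) : ℝ :=
  if j = i then (if S = ∅ then (1 : ℝ) else 0) else g (ds δ S) ^ 2 * uz z S

omit [Fintype ι] in
theorem sum_w_self (δ : α → ℕ) (z : α → ℝ) (g : ℕ → ℝ) (i : ι) (f : Finset α → ℝ) :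
    ∑ S, w δ z g i i S * f S = f ∅ := by
  simp [w]

omit [Fintype ι] in
theorem sum_w_self' (δ : α → ℕ) (z : α → ℝ) (g : ℕ → ℝ) (i : ι) :
    ∑ S, w δ z g i i S = 1 := by
  simp [w]

omit [Fintype ι] in
theorem sum_w_ne (δ : α → ℕ) (z : α → ℝ) (g : ℕ → ℝ) {i j : ι} (h : j ≠ i) :
    ∑ S, w δ z g i j S = U2 δ z g := by
  simp [w, h, U2]

theorem prod_w (δ : α → ℕ) (z : α → ℝ) (g : ℕ → ℝ) (i : ι) :
    ∏ j, ∑ S, w δ z g i j S = U2 δ z g ^ (Fintype.card ι - 1) := by
  rw [← mul_prod_erase univ _ (mem_univ i), sum_w_self', one_mul,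
    prod_congr rfl fun j hj => sum_w_ne δ z g (ne_of_mem_erase hj), prod_const,
    card_erase_of_mem (mem_univ i), card_univ]

omit [Fintype α] [Fintype ι] in
theorem w_nonneg (δ : α → ℕ) {z : α → ℝ} (hz : ∀ P, 0 < z P) (g : ℕ → ℝ) (i j : ι)
    (S : Finset α) : 0 ≤ w δ z g i j S := by
  unfold w
  have := (uz_pos hz S).le
  split_ifs
  · exact zero_le_one
  · exact le_rfl
  · positivity

omit [Fintype α] in
theorem d2_nonneg (i : ι) {z : α → ℝ} (hz : ∀ P, (Fintype.card ι : ℝ) + 2 ≤ z P) (P : α)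
    (b : Option ι) : 0 ≤ d2 i z P b := by
  cases b with
  | none => exact zero_le_one
  | some j =>
    simp only [d2, Option.elim]
    split_ifs
    · exact le_rfl
    · exact div_nonneg (by linarith [hz P]) (sq_nonneg _)

end CDc

open CDc in
theorem p_CD (hBIJ : S_BIJ) (hCD2 : S_CD2) (hPR : S_PR) (hMON : S_MON) :
    S_CD := by
  intro α ι _ _ δ z g T L i σ hz hg hg0 hT hσ h16 hL hU2 hU3
  have ht : (1 : ℝ) ≤ Fintype.card ι := by
    exact_mod_cast Fintype.card_pos_iff.2 ⟨i⟩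
  have hz0 : ∀ P, 0 < z P := fun P => by linarith [hz P]
  have hσ0 : 0 ≤ σ := le_trans (sum_nonneg fun P _ => by positivity) hσ
  have hL0 : (0 : ℝ) < L := by exact_mod_cast hL
  have hU30 : 0 ≤ U3 δ z g := sum_nonneg fun S _ => by
    have := (uz_pos hz0 S).le
    positivity
  have key := hPR α ι δ z (w δ z g i) ((Fintype.card ι : ℝ) + 2) σ (U3 δ z g / U2 δ z g) L hz0
    (by linarith) hz hL (by positivity) hσ (w_nonneg δ hz0 g i)
    (by
      intro j P
      by_cases hj : j = i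
      · subst hj
        rw [sum_w_self, sum_w_self', one_mul, if_neg (notMem_empty P)]
        exact (inv_pos.2 (hz0 P)).le
      · rw [sum_w_ne δ z g hj]
        simpa only [w, if_neg hj] using hMON α δ z g P hz0 hg hg0)
    (by
      intro j
      by_cases hj : j = i
      · subst hj
        rw [sum_w_self δ z g j (fun S => (ds δ S : ℝ)), sum_w_self', one_mul, ds_empty]
        simp only [Nat.cast_zero]
        positivity
      · rw [sum_w_ne δ z g hj, mul_div_cancel₀ _ hU2.ne']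
        simp only [w, if_neg hj, U3]
        exact le_of_eq (sum_congr rfl fun S _ => mul_comm _ _))
  rw [prod_w] at key
  have h1 : (Fintype.card ι : ℝ) * (U3 δ z g / U2 δ z g) / L ≤ 1 / 4 := by
    rw [← mul_div_assoc, div_div, div_le_iff₀ (by positivity)]
    linarith
  have h2 : (Fintype.card ι : ℝ) ^ 2 * σ + Fintype.card ι * ((Fintype.card ι : ℝ) + 2) * σ ≤
      1 / 4 := by
    have : (Fintype.card ι : ℝ) ≤ (Fintype.card ι : ℝ) ^ 2 := by nlinarith
    nlinarith [mul_le_mul_of_nonneg_right this hσ0]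
  have h3 : U2 δ z g ^ (Fintype.card ι - 1) / 2 ≤
      ∑ r ∈ univ.filter (fun r : ι → Finset α => Dj r ∧ ∑ j, ds δ (r j) ≤ L),
        ∏ j, (w δ z g i j (r j) * ∏ P ∈ r j, (1 - ((Fintype.card ι : ℝ) + 2) * (z P)⁻¹)) := by
    refine le_trans ?_ key
    rw [div_eq_mul_one_div]
    exact mul_le_mul_of_nonneg_left (by linarith) (by positivity)
  have h4 := hBIJ α ι (fun r => if ∑ j, ds δ (r j) ≤ L then U1 δ z g ^ 2 *
    ∏ j, (w δ z g i j (r j) * ∏ P ∈ r j, (1 - ((Fintype.card ι : ℝ) + 2) * (z P)⁻¹)) else 0)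
  rw [← sum_filter, ← sum_filter, filter_filter, ← mul_sum, ← mul_sum] at h4
  rw [mul_div_assoc]
  refine (mul_le_mul_of_nonneg_left h3 (sq_nonneg _)).trans ?_
  rw [← h4, mul_sum, sum_filter]
  refine sum_le_sum fun ρ _ => ?_
  split_ifs with hρ
  · exact hCD2 α ι δ z g T L i ρ hz hg hg0 hT hρ
  · exact mul_nonneg (sq_nonneg _) (prod_nonneg fun P _ => d2_nonneg i hz P _)

end Pool.Agent.P.MP_e94e4b_nt.MT
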