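import Pool.Agent.P.MP_e94e4b_nt.MT.IfB

/-! Step CW1. -/

namespace Pool.Agent.P.MP_e94e4b_nt.MT

open Polynomial Finset
open Pool.Agent.P.MP_8be758_nt Pool.Agent.P.MP_8be758_nt.C2 Pool.Agent.P.MP_8be758_nt.L2
open scoped Classical

namespace CW1c

theorem pw_eq {α ι : Type} [Fintype α] (i : ι) (z : α → ℝ) (σ : α → Option ι)
    (h : col σ i = ∅) : pw (p1 i z) σ = ∏ P ∈ sp σ, (z P - 1)⁻¹ := by
  unfold pw
  rw [← prod_subset (subset_univ (sp σ))]
  · refine prod_congr rfl fun P hP => ?_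
    obtain ⟨j, hj⟩ := mem_sp'.1 hP
    have : j ≠ i := fun e => col_eq_empty.1 h P (e ▸ hj)
    simp [hj, p1, this]
  · intro P _ hP
    rw [notMem_sp.1 hP]; rfl

theorem main_eq {k : Type} [Field k] [Finite k] {α : Type} {v : α → k[X]}
    (hv : Function.Injective v) (hp : ∀ P, IsPr (v P)) (S : Finset α) :
    eu (-1) (S.image v) / qq k ^ dg (S.image v) = ∏ P ∈ S, (zv v P - 1)⁻¹ := by
  rw [eu, dg, prod_image fun _ _ _ _ e => hv e, sum_image fun _ _ _ _ e => hv e,
    ← prod_pow_eq_pow_sum, ← prod_div_distrib]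
  refine prod_congr rfl fun P _ => ?_
  have h : 2 ≤ qq k ^ (v P).natDegree :=
    two_le_qq.trans (le_self_pow₀ one_le_qq (Nat.one_le_iff_ne_zero.1 (hp P).pos))
  unfold zv
  generalize qq k ^ (v P).natDegree = x at h
  have h0 : x ≠ 0 := by linarith
  have h1 : x - 1 ≠ 0 := by linarith
  have e : 1 + -1 / x = (x - 1) / x := by field_simp; ring
  rw [e]
  field_simp

end CW1c

theorem p_CW1 (hCRT : S_CRT) :
    S_CW1 := by
  intro k _ _ α ι _ _ v c W N x0 σ m μ err i hS hμ hAP hc hi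
  obtain ⟨r, h1, h2, h3⟩ := hCRT k α ι v c W (N ^ 2) x0 σ hS
  have hdj : Disjoint W ((sp σ).image v) := disjoint_right.2 fun Q hQ => by
    obtain ⟨P, -, rfl⟩ := mem_image.1 hQ
    exact hS.nw P
  have hpr : ∀ Q ∈ W ∪ (sp σ).image v, IsPr Q := fun Q hQ => by
    rcases mem_union.1 hQ with h | h
    · exact hS.pW Q h
    · obtain ⟨P, -, rfl⟩ := mem_image.1 h
      exact hS.pv P
  have hcop : IsCoprime (N ^ 2 + r + c i) (pr (W ∪ (sp σ).image v)) := by
    refine IsCoprime.prod_right fun Q hQ => ((hpr Q hQ).2.coprime_iff_not_dvd.2 fun hd => ?_).symm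
    rcases mem_union.1 hQ with h | h
    · have hQW : Q ∣ pr W := dvd_prod_of_mem _ h
      have h4 : Q ∣ N ^ 2 + x0 + c i := by
        have := dvd_sub hd (hQW.trans h1)
        convert this using 1; ring
      exact (hS.pW Q h).2.not_isUnit ((hS.cop i).isUnit_of_dvd' h4 hQW)
    · obtain ⟨P, hP, rfl⟩ := mem_image.1 h
      obtain ⟨j, hj⟩ := mem_sp'.1 hP
      have h4 : v P ∣ c i - c j := by
        have := dvd_sub hd (h2 P j hj)
        rwa [add_sub_add_left_eq_sub] at this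
      exact col_eq_empty.1 hi P (hS.sep P i j h4 ▸ hj)
  have key := hAP _ _ hpr (by rw [dg_union hdj, dg_image hS.inj]; omega) hcop
  have e1 : ∑ x ∈ (L3.Gx (pr W) x0 m).filter (fun x => Irreducible (N ^ 2 + x + c i)),
      ∏ P, ib P (σ P) (XS v c (N ^ 2) x P) =
      PA N m (pr (W ∪ (sp σ).image v)) (N ^ 2 + r + c i) := by
    have e : (L3.Gx (pr W) x0 m).filter (fun x => Irreducible (N ^ 2 + x + c i)) =
        ((low k m).filter (fun x => Irreducible (N ^ 2 + x + c i))).filter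
          fun x => pr W ∣ x - x0 := filter_comm _ _ _
    rw [e, sum_filter, sum_congr rfl fun x _ => h3 x, sum_boole, PA, filter_filter]
    congr 1
    refine card_bij' (fun x _ => x + c i) (fun x _ => x - c i) ?_ ?_ (by simp) (by simp)
    · intro x hx
      obtain ⟨a1, a2, a3⟩ := mem_filter.1 hx
      refine mem_filter.2 ⟨add_mem_low a1 hc, by rwa [← add_assoc], ?_⟩
      convert a3 using 1; ring
    · intro x hx
      obtain ⟨a1, a2, a3⟩ := mem_filter.1 hx
      refine mem_filter.2 ⟨sub_mem_low a1 hc, ?_, ?_⟩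
      · convert a2 using 1; ring
      · convert a3 using 1; ring
  have e2 : qq k ^ m / qq k ^ dg W * eu (-1) W * pw (p1 i (zv v)) σ =
      qq k ^ m / qq k ^ dg (W ∪ (sp σ).image v) * eu (-1) (W ∪ (sp σ).image v) := by
    rw [CW1c.pw_eq i _ σ hi, ← CW1c.main_eq hS.inj hS.pv, dg_union hdj, eu_union _ hdj, pow_add]
    have := qq_pos (k := k)
    field_simp
  rw [e1, e2]
  exact key

end Pool.Agent.P.MP_e94e4b_nt.MT
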