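import Pool.Agent.P.MP_e94e4b_nt.MT.IfB

/-! Step FE. -/

namespace Pool.Agent.P.MP_e94e4b_nt.MT

open Polynomial Finset
open Pool.Agent.P.MP_8be758_nt Pool.Agent.P.MP_8be758_nt.C2 Pool.Agent.P.MP_8be758_nt.L2
open scoped Classical

namespace FEc

theorem miss {k : Type} [Field k] [Finite k] {t : ℕ} (c : Fin t → k[X]) {P : k[X]}
    (hP : t < Nat.card k ^ P.natDegree) : ∃ y, ∀ j, ¬ P ∣ y + c j := by
  by_contra hc
  push Not at hc
  choose f hf using hc
  have h1 : (low k P.natDegree).card ≤ (univ : Finset (Fin t)).card := by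
    refine card_le_card_of_injOn f (fun _ _ => mem_coe.2 (mem_univ _)) ?_
    intro y hy y' hy' e
    have h2 : P ∣ y - y' := by
      have := dvd_sub (hf y) (hf y')
      rwa [e, add_sub_add_right_eq_sub] at this
    have h3 : y - y' ∈ low k P.natDegree := by
      rw [mem_coe, mem_low] at hy hy'
      rw [mem_low]
      exact (degree_sub_le _ _).trans_lt (max_lt hy hy')
    exact sub_eq_zero.1 (eq_zero_of_mem_low h3 h2 le_rfl)
  rw [card_low, card_univ, Fintype.card_fin] at h1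
  omega

theorem adm {k : Type} [Field k] [Finite k] {t D0 : ℕ} (y : Fin t → k[X])
    (hq : t < Nat.card k ^ (D0 + 1)) (P : k[X]) (hP : Irreducible P) :
    ∃ z, ∀ j, ¬ P ∣ z + (pr (Pr k D0) * y j) ^ 2 := by
  by_cases hd : D0 < P.natDegree
  · exact miss _ (hq.trans_le (Nat.pow_le_pow_right Nat.card_pos hd))
  · obtain ⟨Q, hQ, hQP⟩ := exists_isPr_dvd hP.not_isUnit hP.ne_zero
    have h1 : Q ∈ Pr k D0 :=
      mem_Pr.2 ⟨hQ, (natDegree_le_of_dvd hQP hP.ne_zero).trans (not_lt.1 hd)⟩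
    have h2 : Q ∣ pr (Pr k D0) := dvd_prod_of_mem _ h1
    refine ⟨1, fun j h => hQ.2.not_isUnit (isUnit_of_dvd_one ?_)⟩
    exact (dvd_add_left (dvd_pow (h2.mul_right _) two_ne_zero)).1 (hQP.trans h)

end FEc

theorem p_FE (hCORE : S_CORE) (hADM : S_ADM) (hPIG : S_PIG) :
    S_FE := by
  obtain ⟨κ, hκ, H⟩ := hCORE
  obtain ⟨t, K, ht, H⟩ := H 2 (by norm_num)
  refine ⟨κ, t, K + 1, hκ, ht, fun D => ?_⟩
  obtain ⟨ν0, H⟩ := H (t ^ 2 * D + 2 * D)
  refine ⟨ν0 + t ^ 2 + 8 * D + 4, fun k _ _ _ N m D0 y hν hW hq hy hd => ?_⟩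
  have pS : ∀ P ∈ Pr k D0, IsPr P := fun P hP => (mem_Pr.1 hP).1
  have ad := FEc.adm y (show t < Nat.card k ^ (D0 + 1) by nlinarith)
  have w0 := (monic_pr pS).ne_zero
  have wd := natDegree_pr pS
  have wv : ∀ P ∈ Pr k D0, P ∣ pr (Pr k D0) := fun P hP => dvd_prod_of_mem _ hP
  generalize pr (Pr k D0) = w at ad w0 wd wv ⊢
  obtain ⟨Y, hY⟩ : ∃ Y, Y = ∏ p ∈ (univ : Finset (Fin t)).offDiag, (y p.1 - y p.2) := ⟨_, rfl⟩
  have Y0 : w * Y ≠ 0 := mul_ne_zero w0 (hY ▸ prod_ne_zero_iff.2 fun p hp =>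
    sub_ne_zero.2 fun e => (mem_offDiag.1 hp).2.2 (hy e))
  have Yd : Y.natDegree ≤ t ^ 2 * D := by
    rw [hY]
    refine (natDegree_prod_le _ _).trans ((sum_le_card_nsmul _ _ D fun p _ =>
      (natDegree_sub_le _ _).trans (max_le ?_ ?_)).trans
        (Nat.mul_le_mul_right D (by simp [offDiag_card, pow_two])))
    · have := hd p.1; omega
    · have := hd p.2; omega
  have dW : dg (pf (w * Y)) ≤ dg (Pr k D0) + t ^ 2 * D :=
    (dg_pf_le Y0).trans (natDegree_mul_le.trans (by omega))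
  have sq : ∀ i j, (w * y i) ^ 2 - (w * y j) ^ 2 = (w * (y i - y j)) ^ 2 := fun i j => by
    rw [CharTwo.sub_eq_add, CharTwo.sub_eq_add, mul_add, CharTwo.add_sq]
  have cd : ∀ j, ((w * y j) ^ 2).natDegree ≤ 2 * D := fun j =>
    natDegree_pow_le.trans (by have := hd j; have := natDegree_mul_le (p := w) (q := y j); omega)
  have d0 := hd ⟨0, by omega⟩
  obtain ⟨x0, hx0⟩ := hADM k (Fin t) _ (pf (w * Y)) (N ^ 2) (fun P => isPr_of_mem_pf) ad
  have a1 := H k N x0 m D0 (pf (w * Y)) (fun j => (w * y j) ^ 2) (by omega) hW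
    (fun P => isPr_of_mem_pf) (by omega)
    (fun P hP => (mem_pf Y0).2 ⟨pS P hP, (wv P hP).mul_right _⟩)
    (by rw [qq]; exact_mod_cast hq) (fun P hP hn i j h => by
      by_contra e
      rw [sq] at h
      refine hn ((mem_pf Y0).2 ⟨hP, (hP.prime.dvd_of_dvd_pow h).trans (mul_dvd_mul_left _ ?_)⟩)
      rw [hY]
      exact dvd_prod_of_mem (fun p : Fin t × Fin t => y p.1 - y p.2) (a := (i, j))
        (by simpa using e))
    (fun j => (cd j).trans (Nat.le_add_left _ _)) hx0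
  have h4 := Nat.div_le_div_left (a := N.natDegree) hκ (by norm_num)
  have hm : 2 * D < m := by have := hW.2.1; omega
  obtain ⟨i, j, hij, a2⟩ := hPIG k t (fun j => (w * y j) ^ 2) (N ^ 2) m ht fun j =>
    mem_low_of_natDegree_lt ((cd j).trans_lt hm)
  rw [qq] at a1
  have a3 : Nat.card k ^ m ≤ Nat.card k ^ dg (pf (w * Y)) * N.natDegree ^ K *
      (GD 2 (N ^ 2) m fun j => (w * y j) ^ 2).card := by exact_mod_cast a1
  refine ⟨i, j, hij, a3.trans ?_⟩
  rw [pow_succ _ K, ← mul_assoc, mul_assoc _ N.natDegree, ← sq]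
  exact Nat.mul_le_mul (Nat.mul_le_mul_right _ (Nat.pow_le_pow_right Nat.card_pos dW))
    (a2.trans (Nat.mul_le_mul_right _ (by omega)))

end Pool.Agent.P.MP_e94e4b_nt.MT
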