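import Pool.Agent.P.MP_e94e4b_nt.MT.IfA

/-! Step FIB. -/

namespace Pool.Agent.P.MP_e94e4b_nt.MT

open Finset
open scoped Classical

namespace FIBc

/-- remove the colour `i` -/
noncomputable def er {α ι : Type} (i : ι) (ρ : α → Option ι) : α → Option ι :=
  fun P => if ρ P = some i then none else ρ P

end FIBc

theorem p_FIB :
    S_FIB := by
  intro α ι _ _ i Φ
  rw [sum_sigma']
  refine sum_bij' (fun ρ _ => ⟨FIBc.er i ρ, col ρ i⟩) (fun x _ => pt i x.2 x.1) ?_ ?_ ?_ ?_ ?_
  · intro ρ _
    simp only [mem_sigma, mem_filter, mem_univ, true_and, mem_powerset]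
    refine ⟨col_eq_empty.2 fun P => ?_, fun P hP => ?_⟩
    · unfold FIBc.er
      split_ifs with h
      · simp
      · exact h
    · rw [mem_compl, notMem_sp]
      simp [FIBc.er, mem_col.1 hP]
  · intro x _
    exact mem_univ _
  · intro ρ _
    funext P
    by_cases h : ρ P = some i <;> simp [pt, FIBc.er, mem_col, h]
  · rintro ⟨ρ, e⟩ hx
    simp only [mem_sigma, mem_filter, mem_univ, true_and, mem_powerset] at hx
    have h1 : FIBc.er i (pt i e ρ) = ρ := by
      funext P
      by_cases h : P ∈ e
      · have := notMem_sp.1 (mem_compl.1 (hx.2 h))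
        simp [pt, FIBc.er, h, this]
      · have := col_eq_empty.1 hx.1 P
        simp [pt, FIBc.er, h, this]
    simp only [h1, col_pt_self hx.1]
  · intro ρ _
    congr 1
    funext P
    by_cases h : ρ P = some i <;> simp [pt, FIBc.er, mem_col, h]

end Pool.Agent.P.MP_e94e4b_nt.MT
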